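import Mathlib

set_option autoImplicit false

open Set Topology

namespace Pool.Agent.Lib.MP_d28b99_gt

noncomputable section

/-- The point set of a component of a subspace. -/
def compSet {X : Type*} [TopologicalSpace X] (W : Set X) (q : ConnectedComponents W) : Set X :=
  {x | ∃ h : x ∈ W, ConnectedComponents.mk (⟨x, h⟩ : W) = q}

lemma mk_eq_mk_of_preconnected {X : Type*} [TopologicalSpace X] {W T : Set X} (hTW : T ⊆ W)
    (hT : IsPreconnected T) {x y : X} (hx : x ∈ T) (hy : y ∈ T) :
    ConnectedComponents.mk (⟨x, hTW hx⟩ : W) = ConnectedComponents.mk (⟨y, hTW hy⟩ : W) := by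
  have h1 : IsPreconnected ((Subtype.val : W → X) ⁻¹' T) := by
    rw [← Topology.IsInducing.subtypeVal.isPreconnected_image]
    have : (Subtype.val : W → X) '' ((Subtype.val : W → X) ⁻¹' T) = T := by
      rw [image_preimage_eq_iff]
      intro z hz
      exact ⟨⟨z, hTW hz⟩, rfl⟩
    rwa [this]
  have h2 := h1.subset_connectedComponent (x := (⟨y, hTW hy⟩ : W)) hy
  exact ConnectedComponents.coe_eq_coe'.2 (h2 hx)

/-- A connected space minus `n` connected sets, each with at most two local sides, has at most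
`n+1` components. -/
theorem card_components_le {X : Type*} [TopologicalSpace X] [PreconnectedSpace X] {n : ℕ}
    (K : Fin n → Set X) (hK : ∀ j, IsPreconnected (K j)) (hKne : ∀ j, (K j).Nonempty) (W : Set X)
    (hW : W = (⋃ j, K j)ᶜ)
    (P0 : ∀ x (h : x ∈ W), ∃ U, IsOpen U ∧ x ∈ U ∧ ∀ y ∈ U, ∃ h' : y ∈ W,
      ConnectedComponents.mk (⟨y, h'⟩ : W) = ConnectedComponents.mk (⟨x, h⟩ : W))
    (P : ∀ j, ∀ x ∈ K j, ∃ (U : Set X) (q1 q2 : ConnectedComponents W), IsOpen U ∧ x ∈ U ∧
      (∀ y ∈ U, ∀ h : y ∈ W, ConnectedComponents.mk (⟨y, h⟩ : W) = q1 ∨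
        ConnectedComponents.mk (⟨y, h⟩ : W) = q2) ∧
      (∀ y ∈ U, y ∉ W → y ∈ closure (compSet W q1) ∧ y ∈ closure (compSet W q2))) :
    Nat.card (ConnectedComponents W) ≤ n + 1 := by
  classical
  rcases finite_or_infinite (ConnectedComponents W) with hfin | hinf
  swap
  · simp
  have := Fintype.ofFinite (ConnectedComponents W)
  set Adj : X → Set (ConnectedComponents W) := fun x => {q | x ∈ closure (compSet W q)} with hAdj
  have hAdjW : ∀ x (h : x ∈ W), Adj x = {ConnectedComponents.mk (⟨x, h⟩ : W)} := by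
    intro x h
    ext q
    simp only [hAdj, mem_ofPred_eq, mem_singleton_iff]
    constructor
    · intro hq
      obtain ⟨U, hU, hxU, hU'⟩ := P0 x h
      obtain ⟨y, hyU, hyS⟩ := mem_closure_iff.1 hq U hU hxU
      obtain ⟨h1, h2⟩ := hU' y hyU
      obtain ⟨h3, h4⟩ := hyS
      rw [← h4, ← h2]
    · rintro rfl
      exact subset_closure ⟨h, rfl⟩
  have hAdjK : ∀ j, ∀ x ∈ K j, ∃ (U : Set X) (q1 q2 : ConnectedComponents W), IsOpen U ∧ x ∈ U ∧
      (∀ y ∈ U, ∀ h : y ∈ W, ConnectedComponents.mk (⟨y, h⟩ : W) = q1 ∨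
        ConnectedComponents.mk (⟨y, h⟩ : W) = q2) ∧
      (∀ y ∈ U, y ∉ W → Adj y = {q1, q2}) := by
    intro j x hx
    obtain ⟨U, q1, q2, hU, hxU, h1, h2⟩ := P j x hx
    refine ⟨U, q1, q2, hU, hxU, h1, fun y hy hyW => ?_⟩
    ext q
    simp only [hAdj, mem_ofPred_eq, mem_insert_iff, mem_singleton_iff]
    constructor
    · intro hq
      obtain ⟨z, hzU, hzS⟩ := mem_closure_iff.1 hq U hU hy
      obtain ⟨h3, h4⟩ := hzS
      rw [← h4]
      exact h1 z hzU h3
    · rintro (rfl | rfl)
      · exact (h2 y hy hyW).1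
      · exact (h2 y hy hyW).2
  have hKW : ∀ j, ∀ x ∈ K j, x ∉ W := by
    intro j x hx hxW
    rw [hW] at hxW
    exact hxW (mem_iUnion.2 ⟨j, hx⟩)
  -- adjacency is constant along each set
  have hconst : ∀ j, ∀ x ∈ K j, ∀ y ∈ K j, Adj x = Adj y := by
    intro j x hx y hy
    let _ : TopologicalSpace (Set (ConnectedComponents W)) := ⊥
    have : DiscreteTopology (Set (ConnectedComponents W)) := ⟨rfl⟩
    refine (hK j).constant_of_mapsTo (T := univ)
      (isDiscrete_iff_discreteTopology.2 inferInstance) (f := Adj) ?_ ?_ hx hy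
    · intro z hz
      obtain ⟨U, q1, q2, hU, hzU, h1, h2⟩ := hAdjK j z hz
      have : ∀ᶠ w in 𝓝[K j] z, Adj w = Adj z := by
        filter_upwards [self_mem_nhdsWithin, mem_nhdsWithin_of_mem_nhds (hU.mem_nhds hzU)]
          with w hw hwU
        rw [h2 w hwU (hKW j w hw), h2 z hzU (hKW j z hz)]
      exact (continuousWithinAt_const (b := Adj z)).congr_of_eventuallyEq this rfl
    · exact fun _ _ => mem_univ _
  choose x0 hx0 using hKne
  choose U0 a b hU0 hxU0 hab1 hab2 using fun j => hAdjK j (x0 j) (hx0 j)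
  have hAdj0 : ∀ j, ∀ x ∈ K j, Adj x = {a j, b j} := by
    intro j x hx
    rw [hconst j x hx (x0 j) (hx0 j), hab2 j (x0 j) (hxU0 j) (hKW j _ (hx0 j))]
  -- the linear map
  let D : (ConnectedComponents W → ℝ) →ₗ[ℝ] (Fin n → ℝ) :=
    { toFun := fun φ j => φ (a j) - φ (b j)
      map_add' := by
        intro φ ψ; ext j; simp only [Pi.add_apply]; ring
      map_smul' := by
        intro c φ; ext j; simp only [Pi.smul_apply, smul_eq_mul, RingHom.id_apply]; ring }
  have hker : ∀ φ ∈ LinearMap.ker D, ∀ p q, φ p = φ q := by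
    intro φ hφ p q
    have hφ' : ∀ j, φ (a j) = φ (b j) := by
      intro j
      have := congrFun (LinearMap.mem_ker.1 hφ) j
      simp only [D, LinearMap.coe_mk, AddHom.coe_mk, Pi.zero_apply] at this
      linarith
    set A : Set X := {x | ∀ r ∈ Adj x, φ r = φ q} with hA
    set B : Set X := {x | ∀ r ∈ Adj x, φ r ≠ φ q} with hB
    have hcov : ∀ x, x ∈ A ∨ x ∈ B := by
      intro x
      by_cases hx : x ∈ W
      · by_cases h : φ (ConnectedComponents.mk (⟨x, hx⟩ : W)) = φ q
        · left
          intro r hr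
          rw [hAdjW x hx] at hr
          rw [mem_singleton_iff.1 hr]; exact h
        · right
          intro r hr
          rw [hAdjW x hx] at hr
          rw [mem_singleton_iff.1 hr]; exact h
      · have hx' : x ∈ ⋃ j, K j := by
          rw [hW] at hx
          exact not_not.1 hx
        obtain ⟨j, hj⟩ := mem_iUnion.1 hx'
        by_cases h : φ (a j) = φ q
        · left
          intro r hr
          rw [hAdj0 j x hj] at hr
          rcases hr with rfl | hr
          · exact h
          · rw [mem_singleton_iff.1 hr, ← hφ' j]; exact h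
        · right
          intro r hr
          rw [hAdj0 j x hj] at hr
          rcases hr with rfl | hr
          · exact h
          · rw [mem_singleton_iff.1 hr, ← hφ' j]; exact h
    have hne : ∀ x, (Adj x).Nonempty := by
      intro x
      by_cases hx : x ∈ W
      · rw [hAdjW x hx]; exact singleton_nonempty _
      · have hx' : x ∈ ⋃ j, K j := by
          rw [hW] at hx
          exact not_not.1 hx
        obtain ⟨j, hj⟩ := mem_iUnion.1 hx'
        rw [hAdj0 j x hj]
        exact ⟨a j, by simp⟩
    have hopen : ∀ C : Set (ConnectedComponents W), (∀ p q, φ p = φ q → (p ∈ C ↔ q ∈ C)) →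
        IsOpen {x | ∀ r ∈ Adj x, r ∈ C} := by
      intro C hC
      rw [isOpen_iff_forall_mem_open]
      intro x hx
      by_cases hxW : x ∈ W
      · obtain ⟨U, hU, hxU, hU'⟩ := P0 x hxW
        refine ⟨U, fun y hy r hr => ?_, hU, hxU⟩
        obtain ⟨h1, h2⟩ := hU' y hy
        rw [hAdjW y h1, h2] at hr
        apply hx
        rw [hAdjW x hxW]
        exact hr
      · have hx' : x ∈ ⋃ j, K j := by
          rw [hW] at hxW
          exact not_not.1 hxW
        obtain ⟨j, hj⟩ := mem_iUnion.1 hx'
        obtain ⟨U, q1, q2, hU, hxU, h1, h2⟩ := hAdjK j x hj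
        have e1 : Adj x = {q1, q2} := h2 x hxU hxW
        have c1 : q1 ∈ C := hx q1 (by rw [e1]; simp)
        have c2 : q2 ∈ C := hx q2 (by rw [e1]; simp)
        refine ⟨U, fun y hy r hr => ?_, hU, hxU⟩
        by_cases hyW : y ∈ W
        · rw [hAdjW y hyW, mem_singleton_iff] at hr
          rcases h1 y hy hyW with h | h
          · rw [hr, h]; exact c1
          · rw [hr, h]; exact c2
        · rw [h2 y hy hyW] at hr
          rcases hr with rfl | hr
          · exact c1
          · rw [mem_singleton_iff.1 hr]; exact c2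
    have hAo : IsOpen A := hopen {r | φ r = φ q} (by
      intro p p' h; simp only [mem_ofPred_eq, h])
    have hBo : IsOpen B := hopen {r | φ r ≠ φ q} (by
      intro p p' h; simp only [mem_ofPred_eq, h])
    have hdisj : Disjoint A B := by
      rw [Set.disjoint_left]
      intro x hxA hxB
      obtain ⟨r, hr⟩ := hne x
      exact hxB r hr (hxA r hr)
    have hcompl : Aᶜ = B := by
      ext x
      constructor
      · intro hx
        exact (hcov x).resolve_left hx
      · intro hx hxA
        exact Set.disjoint_left.1 hdisj hxA hx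
    have hclopen : IsClopen A := ⟨⟨by rw [hcompl]; exact hBo⟩, hAo⟩
    have hsurj : ∀ r : ConnectedComponents W, ∃ x, Adj x = {r} := by
      intro r
      obtain ⟨⟨x, hx⟩, rfl⟩ := ConnectedComponents.surjective_coe r
      exact ⟨x, hAdjW x hx⟩
    obtain ⟨xq, hxq⟩ := hsurj q
    have hAne : A.Nonempty := ⟨xq, fun r hr => by
      rw [hxq] at hr; rw [mem_singleton_iff.1 hr]⟩
    have hAuniv : A = univ := hclopen.eq_univ hAne
    obtain ⟨xp, hxp⟩ := hsurj p
    have : xp ∈ A := by rw [hAuniv]; trivial
    exact this p (by rw [hxp]; exact mem_singleton _)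
  have hker1 : Module.finrank ℝ (LinearMap.ker D) ≤ 1 := by
    refine finrank_le_one (⟨fun _ => 1, ?_⟩ : LinearMap.ker D) ?_
    · rw [LinearMap.mem_ker]
      ext j
      simp [D]
    · rintro ⟨φ, hφ⟩
      rcases isEmpty_or_nonempty (ConnectedComponents W) with hem | ⟨⟨q⟩⟩
      · refine ⟨0, ?_⟩
        apply Subtype.ext
        funext p
        exact (hem.false p).elim
      · refine ⟨φ q, ?_⟩
        apply Subtype.ext
        funext p
        simp only [SetLike.mk_smul_mk, Pi.smul_apply, smul_eq_mul, mul_one]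
        exact (hker φ hφ p q).symm
  have hrn := LinearMap.finrank_range_add_finrank_ker D
  have hr : Module.finrank ℝ (LinearMap.range D) ≤ n := by
    have := Submodule.finrank_le (LinearMap.range D)
    simpa using this
  rw [Nat.card_eq_fintype_card]
  have : Module.finrank ℝ (ConnectedComponents W → ℝ) = Fintype.card (ConnectedComponents W) := by
    simp
  omega

end

end Pool.Agent.Lib.MP_d28b99_gt
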