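import Pool.Agent.Lib.MP_d28b99_gt.Voronoi

/-!
# The area of the quotient by a congruence group
-/

set_option autoImplicit false

open MeasureTheory UpperHalfPlane Set Topology
open scoped MatrixGroups ENNReal Pointwise

namespace Pool.Agent.Lib.MP_d28b99_gt

noncomputable section

/-- a permutation of a finite set all of whose periods are divisible by 6 -/
lemma six_dvd_card {X : Type*} [Fintype X] (f : Equiv.Perm X)
    (h : ∀ (k : ℕ) (x : X), (f ^ k) x = x → 6 ∣ k) : 6 ∣ Fintype.card X := by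
  classical
  rw [Fintype.card_congr (MulAction.selfEquivSigmaOrbits (Subgroup.zpowers f) X),
    Fintype.card_sigma]
  refine Finset.dvd_sum ?_
  intro ω _
  have e := MulAction.minimalPeriod_eq_card (a := f) (b := ω.out)
  have hcard : Fintype.card (MulAction.orbit (Subgroup.zpowers f) ω.out) =
      Function.minimalPeriod (fun x => f • x) ω.out := by
    rw [e]
  rw [hcard]
  apply h _ ω.out
  have := Function.isPeriodicPt_minimalPeriod (fun x => f • x) ω.out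
  have h2 : ∀ k : ℕ, (fun x : X => f • x)^[k] ω.out = (f ^ k) ω.out := by
    intro k
    rw [smul_iterate]
    rfl
  rw [← h2]
  exact this

/-- conjugation by units of the order preserves the congruence groups -/
lemma conj_mem_congr {N : ℕ} {g γ : SL(2, ℝ)} {X Y Z W : ℤ}
    (hg : (g : Matrix (Fin 2) (Fin 2) ℝ) = qmat X Y Z W) (hγ : γ ∈ congr N) :
    g * γ * g⁻¹ ∈ congr N := by
  obtain ⟨x, y, z, w, h⟩ := hγ
  have hdet : X ^ 2 + Z ^ 2 - 3 * (Y ^ 2 + W ^ 2) = 1 := by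
    have := g.det_coe
    rw [hg, det_qmat] at this
    exact_mod_cast this
  have hinv : ((g⁻¹ : SL(2, ℝ)) : Matrix (Fin 2) (Fin 2) ℝ) = qmat X (-Y) (-Z) (-W) := by
    rw [Matrix.SpecialLinearGroup.coe_inv, hg, qmat, Matrix.adjugate_fin_two_of, qmat]
    ext i j
    fin_cases i <;> fin_cases j <;> simp <;> ring
  have hdetR : (X : ℝ) ^ 2 + Z ^ 2 - 3 * (Y ^ 2 + W ^ 2) = 1 := by exact_mod_cast hdet
  refine ⟨(X*x+3*Y*y-Z*z+3*W*w)*X-3*(X*y+Y*x+Z*w-W*z)*Y+(X*z+Z*x+3*Y*w-3*W*y)*Z-3*(X*w+W*x+Y*z-Z*y)*W,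
    -(X*x+3*Y*y-Z*z+3*W*w)*Y+(X*y+Y*x+Z*w-W*z)*X-(X*z+Z*x+3*Y*w-3*W*y)*W+(X*w+W*x+Y*z-Z*y)*Z,
    -(X*x+3*Y*y-Z*z+3*W*w)*Z+(X*z+Z*x+3*Y*w-3*W*y)*X-3*(X*y+Y*x+Z*w-W*z)*W+3*(X*w+W*x+Y*z-Z*y)*Y,
    -(X*x+3*Y*y-Z*z+3*W*w)*W+(X*w+W*x+Y*z-Z*y)*X-(X*y+Y*x+Z*w-W*z)*Z+(X*z+Z*x+3*Y*w-3*W*y)*Y, ?_⟩
  rw [Matrix.SpecialLinearGroup.coe_mul, Matrix.SpecialLinearGroup.coe_mul, hg, h, hinv, qmat_mul,
    qmat_mul]
  congr 1
  · push_cast; linear_combination hdetR
  · push_cast; ring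
  · push_cast; ring
  · push_cast; ring

/-- the unit `u^6`, `u = 2 + √3` -/
def uElt : SL(2, ℝ) := ⟨qmat (1351 : ℤ) (780 : ℤ) (0 : ℤ) (0 : ℤ), by
  rw [det_qmat]; norm_num⟩

lemma uElt_coe : (uElt : Matrix (Fin 2) (Fin 2) ℝ) = qmat (1351 : ℤ) (780 : ℤ) (0 : ℤ) (0 : ℤ) := rfl

lemma uElt_inv_coe : ((uElt⁻¹ : SL(2, ℝ)) : Matrix (Fin 2) (Fin 2) ℝ) =
    qmat (1351 : ℤ) (-780 : ℤ) (0 : ℤ) (0 : ℤ) := by
  rw [Matrix.SpecialLinearGroup.coe_inv, uElt_coe, qmat, Matrix.adjugate_fin_two_of, qmat]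
  ext i j
  fin_cases i <;> fin_cases j <;> simp
  ring

lemma uElt_mem : uElt ∈ congr 3 := ⟨450, 260, 0, 0, by rw [uElt_coe]; norm_num⟩

lemma uElt_pow (k : ℕ) : ∃ a b : ℤ, ((uElt ^ k : SL(2, ℝ)) : Matrix (Fin 2) (Fin 2) ℝ) =
    qmat a b (0 : ℤ) (0 : ℤ) ∧ 6 ∣ a - 1 ∧ 72 ∣ b - 60 * k := by
  induction k with
  | zero =>
    refine ⟨1, 0, ?_, by norm_num, by norm_num⟩
    simp [qmat_one]
  | succ k ih =>
    obtain ⟨a, b, h, h1, h2⟩ := ih
    refine ⟨1351 * a + 2340 * b, 780 * a + 1351 * b, ?_, ?_, ?_⟩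
    · rw [pow_succ, Matrix.SpecialLinearGroup.coe_mul, h, uElt_coe, qmat_mul]
      congr 1 <;> push_cast <;> ring
    · obtain ⟨c, hc⟩ := h1
      exact ⟨1351 * c + 390 * b + 225, by linear_combination 1351 * hc⟩
    · obtain ⟨c, hc⟩ := h1
      obtain ⟨d, hd⟩ := h2
      push_cast
      have ha : a = 1 + 6 * c := by linarith
      have hb : b = 60 * k + 72 * d := by linarith
      rw [ha, hb]
      exact ⟨10 + 65 * c + 1125 * k + 1351 * d, by ring⟩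

lemma qmat_inj {x y z w x' y' z' w' : ℝ} (h : qmat x y z w = qmat x' y' z' w') :
    x = x' ∧ y = y' ∧ z = z' ∧ w = w' := by
  have h3 := sqrt3_pos
  have e00 := congrFun (congrFun h 0) 0
  have e01 := congrFun (congrFun h 0) 1
  have e10 := congrFun (congrFun h 1) 0
  have e11 := congrFun (congrFun h 1) 1
  simp [qmat] at e00 e01 e10 e11
  have hx : x = x' := by linarith
  have hy : y * √3 = y' * √3 := by linarith
  have hz : z = z' := by linarith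
  have hw : w * √3 = w' * √3 := by linarith
  exact ⟨hx, mul_right_cancel₀ h3.ne' hy, hz, mul_right_cancel₀ h3.ne' hw⟩

lemma six_dvd_of_uElt_pow_mem {N : ℕ} (hN : 72 ∣ N) {k : ℕ} (h : uElt ^ k ∈ congr N) : 6 ∣ k := by
  obtain ⟨a, b, h1, h2, h3⟩ := uElt_pow k
  obtain ⟨x, y, z, w, h4⟩ := h
  rw [h1] at h4
  obtain ⟨-, h5, -, -⟩ := qmat_inj h4
  have h6 : b = N * y := by exact_mod_cast h5
  obtain ⟨M, rfl⟩ := hN
  push_cast at h6
  have h7 : (72 : ℤ) ∣ 60 * k := by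
    obtain ⟨c, hc⟩ := h3
    exact ⟨M * y - c, by rw [h6] at hc; linear_combination (-1 : ℤ) * hc⟩
  omega

lemma congr_mono {N M : ℕ} (h : M ∣ N) : congr N ≤ congr M := by
  obtain ⟨k, rfl⟩ := h
  rintro g ⟨x, y, z, w, hg⟩
  refine ⟨k * x, k * y, k * z, k * w, ?_⟩
  rw [hg]
  congr 1 <;> push_cast <;> ring

/-- the integer points as a type with action of the congruence group -/
instance actPP (N : ℕ) : MulAction (congr N) PP where
  smul γ v := ⟨(γ : SL(2, ℝ)) • (v : ℍ), smul_mem_PP_of_congr γ.2 v.2⟩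
  one_smul _ := Subtype.ext (one_smul _ _)
  mul_smul _ _ _ := Subtype.ext (mul_smul _ _ _)

lemma coe_smul_PP {N : ℕ} (γ : congr N) (v : PP) : ((γ • v : PP) : ℍ) = (γ : SL(2, ℝ)) • (v : ℍ) :=
  rfl

/-- the orbits of integer points -/
abbrev XN (N : ℕ) : Type := MulAction.orbitRel.Quotient (congr N) PP

lemma XN_eq_iff {N : ℕ} (v w : PP) : (Quotient.mk (MulAction.orbitRel (congr N) PP) v =
    Quotient.mk (MulAction.orbitRel (congr N) PP) w) ↔ ∃ γ : congr N, γ • w = v := by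
  rw [Quotient.eq]
  rfl

lemma finite_XN (N : ℕ) (hc : CompactSpace (MulAction.orbitRel.Quotient (congr N) ℍ)) :
    Finite (XN N) := by
  -- a ball meets every orbit
  have hball : ∃ R : ℝ, ∀ z : ℍ, ∃ γ : congr N, dist I ((γ : SL(2, ℝ)) • z) ≤ R := by
    have hopen : IsOpenMap (Quotient.mk (MulAction.orbitRel (congr N) ℍ)) :=
      isOpenMap_quotient_mk'_mul
    obtain ⟨n, hn⟩ := isCompact_univ.elim_directed_cover
      (fun n : ℕ => Quotient.mk (MulAction.orbitRel (congr N) ℍ) '' Metric.ball I n)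
      (fun n => hopen _ Metric.isOpen_ball) (by
        rintro x -
        obtain ⟨z, rfl⟩ := Quotient.exists_rep x
        obtain ⟨n, hn⟩ := exists_nat_gt (dist z I)
        exact mem_iUnion.2 ⟨n, z, hn, rfl⟩)
      (by
        intro a b
        refine ⟨max a b, ?_, ?_⟩
        · exact image_mono (Metric.ball_subset_ball (by exact_mod_cast le_max_left a b))
        · exact image_mono (Metric.ball_subset_ball (by exact_mod_cast le_max_right a b)))
    refine ⟨n, fun z => ?_⟩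
    obtain ⟨w, hw, hwz⟩ := hn (mem_univ (Quotient.mk (MulAction.orbitRel (congr N) ℍ) z))
    obtain ⟨γ, hγ⟩ := Quotient.exact hwz
    refine ⟨γ, ?_⟩
    have hγ' : (γ : SL(2, ℝ)) • z = w := hγ
    rw [hγ', dist_comm]
    exact (Metric.mem_ball.1 hw).le
  obtain ⟨R, hR⟩ := hball
  have hfin := finite_near I R
  have : Finite {v : ℍ | v ∈ PP ∧ dist I v ≤ R} := hfin
  refine Finite.of_surjective (fun v : {v : ℍ | v ∈ PP ∧ dist I v ≤ R} =>
    (Quotient.mk (MulAction.orbitRel (congr N) PP) ⟨v.1, v.2.1⟩ : XN N)) ?_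
  intro x
  obtain ⟨v, rfl⟩ := Quotient.exists_rep x
  obtain ⟨γ, hγ⟩ := hR v
  refine ⟨⟨(γ : SL(2, ℝ)) • (v : ℍ), smul_mem_PP_of_congr γ.2 v.2, hγ⟩, ?_⟩
  simp only
  rw [XN_eq_iff]
  exact ⟨γ, rfl⟩

lemma conj_mem_congr' {N : ℕ} {g γ : SL(2, ℝ)} (hg : g ∈ congr 1) (hγ : γ ∈ congr N) :
    g * γ * g⁻¹ ∈ congr N := by
  obtain ⟨x, y, z, w, h⟩ := hg
  exact conj_mem_congr h hγ

/-- the map induced by a unit -/
def sigmaX (N : ℕ) (g : SL(2, ℝ)) (hg : g ∈ congr 1) : XN N → XN N :=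
  Quotient.map' (s₁ := MulAction.orbitRel (congr N) PP) (s₂ := MulAction.orbitRel (congr N) PP)
    (fun v => ⟨g • (v : ℍ), smul_mem_PP_of_congr hg v.2⟩) (by
    rintro v w ⟨γ, hγ⟩
    refine ⟨⟨g * γ * g⁻¹, conj_mem_congr' hg γ.2⟩, ?_⟩
    apply Subtype.ext
    have hγ' : (γ : SL(2, ℝ)) • (w : ℍ) = v := congrArg Subtype.val hγ
    change (g * γ * g⁻¹) • (g • (w : ℍ)) = g • (v : ℍ)
    rw [← hγ', smul_smul, smul_smul]
    simp)

lemma sigmaX_mk (N : ℕ) (g : SL(2, ℝ)) (hg : g ∈ congr 1) (v : PP) :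
    sigmaX N g hg (Quotient.mk _ v) =
      Quotient.mk _ (⟨g • (v : ℍ), smul_mem_PP_of_congr hg v.2⟩ : PP) := rfl

lemma sigmaX_sigmaX (N : ℕ) (g h : SL(2, ℝ)) (hg : g ∈ congr 1) (hh : h ∈ congr 1) (x : XN N) :
    sigmaX N g hg (sigmaX N h hh x) = sigmaX N (g * h) ((congr 1).mul_mem hg hh) x := by
  obtain ⟨v, rfl⟩ := Quotient.exists_rep x
  rw [sigmaX_mk, sigmaX_mk, sigmaX_mk]
  congr 1
  apply Subtype.ext
  exact (mul_smul g h (v : ℍ)).symm

lemma sigmaX_one (N : ℕ) (g : SL(2, ℝ)) (hg : g ∈ congr 1) (h1 : g = 1) (x : XN N) :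
    sigmaX N g hg x = x := by
  subst h1
  obtain ⟨v, rfl⟩ := Quotient.exists_rep x
  rw [sigmaX_mk]
  congr 1
  apply Subtype.ext
  exact one_smul _ (v : ℍ)

/-- the permutation of the orbits induced by a unit -/
def sigmaPerm (N : ℕ) (g : SL(2, ℝ)) (hg : g ∈ congr 1) : Equiv.Perm (XN N) where
  toFun := sigmaX N g hg
  invFun := sigmaX N g⁻¹ ((congr 1).inv_mem hg)
  left_inv := by
    intro x
    rw [sigmaX_sigmaX]
    exact sigmaX_one N _ _ (by simp) x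
  right_inv := by
    intro x
    rw [sigmaX_sigmaX]
    exact sigmaX_one N _ _ (by simp) x

lemma sigmaPerm_pow (N : ℕ) (g : SL(2, ℝ)) (hg : g ∈ congr 1) (k : ℕ) (x : XN N) :
    (sigmaPerm N g hg ^ k) x = sigmaX N (g ^ k) ((congr 1).pow_mem hg k) x := by
  induction k with
  | zero =>
    rw [pow_zero, Equiv.Perm.one_apply]
    exact (sigmaX_one N _ _ (pow_zero g) x).symm
  | succ k ih =>
    rw [pow_succ', Equiv.Perm.mul_apply, ih]
    change sigmaX N g hg _ = _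
    rw [sigmaX_sigmaX]
    congr 1
    rw [pow_succ']

lemma six_dvd_XN {N : ℕ} (hN : 72 ∣ N) [Fintype (XN N)]
    (hfree3 : ∀ γ ∈ congr 3, γ ≠ 1 → ∀ z : ℍ, γ • z ≠ z) : 6 ∣ Fintype.card (XN N) := by
  refine six_dvd_card (sigmaPerm N uElt (congr_mono (one_dvd 3) uElt_mem)) ?_
  intro k x hx
  obtain ⟨v, rfl⟩ := Quotient.exists_rep x
  rw [sigmaPerm_pow, sigmaX_mk, XN_eq_iff] at hx
  obtain ⟨γ, hγ⟩ := hx
  have hγ' : (γ : SL(2, ℝ)) • (v : ℍ) = uElt ^ k • (v : ℍ) := congrArg Subtype.val hγ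
  have h3N : 3 ∣ N := (by norm_num : 3 ∣ 72).trans hN
  have hmem : (γ : SL(2, ℝ))⁻¹ * uElt ^ k ∈ congr 3 :=
    (congr 3).mul_mem ((congr 3).inv_mem (congr_mono h3N γ.2)) ((congr 3).pow_mem uElt_mem k)
  have hfix : ((γ : SL(2, ℝ))⁻¹ * uElt ^ k) • (v : ℍ) = v := by
    rw [mul_smul, ← hγ', inv_smul_smul]
  have hone : (γ : SL(2, ℝ))⁻¹ * uElt ^ k = 1 := by
    by_contra hne
    exact hfree3 _ hmem hne _ hfix
  have heq : uElt ^ k = (γ : SL(2, ℝ)) := by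
    rw [inv_mul_eq_one] at hone
    exact hone.symm
  exact six_dvd_of_uElt_pow_mem hN (heq ▸ γ.2)

/-- the fundamental domain -/
def FN (N : ℕ) : Set ℍ := ⋃ ω : XN N, Vor ((Quotient.out ω : PP) : ℍ)

lemma FN_isFundamentalDomain (N : ℕ) (hfin : Finite (XN N))
    (hfree : ∀ γ ∈ congr N, γ ≠ 1 → ∀ z : ℍ, γ • z ≠ z) :
    IsFundamentalDomain (congr N) (FN N) (volume : Measure ℍ) := by
  refine ⟨?_, ?_, ?_⟩
  · exact (MeasurableSet.iUnion fun ω => measurableSet_Vor _).nullMeasurableSet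
  · filter_upwards [ae_mem_Vor] with z hz
    obtain ⟨v, hv, hzv⟩ := hz
    set ω : XN N := Quotient.mk _ (⟨v, hv⟩ : PP) with hω
    have hout : Quotient.mk (MulAction.orbitRel (congr N) PP) ω.out =
        Quotient.mk (MulAction.orbitRel (congr N) PP) (⟨v, hv⟩ : PP) := by
      rw [Quotient.out_eq]
    rw [XN_eq_iff] at hout
    obtain ⟨γ, hγ⟩ := hout
    refine ⟨γ, ?_⟩
    have hγ' : (γ : SL(2, ℝ)) • v = (ω.out : ℍ) := congrArg Subtype.val hγ
    refine mem_iUnion.2 ⟨ω, ?_⟩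
    rw [← hγ']
    exact (smul_mem_Vor (congr_le_stabPP N γ.2) v z).2 hzv
  · intro g h hgh
    refine Disjoint.aedisjoint ?_
    rw [Set.disjoint_left]
    intro z hz1 hz2
    have key : ∀ g : congr N, z ∈ g • FN N →
        ∃ ω : XN N, z ∈ Vor ((g : SL(2, ℝ)) • ((Quotient.out ω : PP) : ℍ)) := by
      intro g hz
      rw [mem_smul_set_iff_inv_smul_mem] at hz
      obtain ⟨ω, hω⟩ := mem_iUnion.1 hz
      refine ⟨ω, ?_⟩
      have := (smul_mem_Vor (congr_le_stabPP N g.2) _ _).2 hω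
      have e : (g : SL(2, ℝ)) • (g⁻¹ • z) = z := smul_inv_smul g z
      rwa [e] at this
    obtain ⟨ω, h1⟩ := key g hz1
    obtain ⟨ω', h2⟩ := key h hz2
    have heq := Vor_disjoint (smul_mem_PP_of_congr g.2 (Quotient.out ω).2)
      (smul_mem_PP_of_congr h.2 (Quotient.out ω').2) h1 h2
    have hω : ω = ω' := by
      rw [← Quotient.out_eq ω, ← Quotient.out_eq ω']
      rw [XN_eq_iff]
      refine ⟨g⁻¹ * h, ?_⟩
      apply Subtype.ext
      rw [coe_smul_PP]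
      push_cast
      rw [mul_smul, ← heq, inv_smul_smul]
    subst hω
    apply hgh
    have hfix : ((h : SL(2, ℝ))⁻¹ * (g : SL(2, ℝ))) • ((Quotient.out ω : PP) : ℍ) =
        ((Quotient.out ω : PP) : ℍ) := by
      rw [mul_smul, heq, inv_smul_smul]
    have hone : (h : SL(2, ℝ))⁻¹ * (g : SL(2, ℝ)) = 1 := by
      by_contra hne
      exact hfree _ ((congr N).mul_mem ((congr N).inv_mem h.2) g.2) hne _ hfix
    apply Subtype.ext
    rw [inv_mul_eq_one] at hone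
    exact hone.symm

lemma volume_FN (N : ℕ) [Fintype (XN N)] :
    (volume (FN N) : ℝ≥0∞) = ENNReal.ofReal (Fintype.card (XN N) * (2 * Real.pi / 3)) := by
  unfold FN
  rw [measure_iUnion]
  · have : ∀ ω : XN N, volume (Vor ((Quotient.out ω : PP) : ℍ)) = ENNReal.ofReal (2 * Real.pi / 3) :=
      fun ω => volume_Vor (Quotient.out ω).2
    simp_rw [this]
    rw [tsum_fintype, Finset.sum_const, Finset.card_univ, nsmul_eq_mul,
      ENNReal.ofReal_mul (by positivity), ENNReal.ofReal_natCast]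
  · intro ω ω' hne
    rw [Function.onFun, Set.disjoint_left]
    intro z h1 h2
    apply hne
    have := Vor_disjoint (Quotient.out ω).2 (Quotient.out ω').2 h1 h2
    rw [← Quotient.out_eq ω, ← Quotient.out_eq ω', Subtype.ext this]
  · intro ω
    exact measurableSet_Vor _

/-- B4 with the facts of bundle B1 as hypotheses -/
theorem congr_area_aux (N : ℕ) (hdvd : 72 ∣ N)
    (hfree3 : ∀ γ ∈ congr 3, γ ≠ 1 → ∀ z : ℍ, γ • z ≠ z)
    (hc : CompactSpace (MulAction.orbitRel.Quotient (congr N) ℍ)) :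
    ∃ F : Set ℍ, IsFundamentalDomain (congr N) F (volume : Measure ℍ) ∧
      ∃ g : ℕ, 2 ≤ g ∧ (volume F : ℝ≥0∞) = ENNReal.ofReal (4 * Real.pi * ((g:ℝ) - 1)) := by
  have hfin := finite_XN N hc
  have : Fintype (XN N) := Fintype.ofFinite _
  have h3N : 3 ∣ N := (by norm_num : 3 ∣ 72).trans hdvd
  refine ⟨FN N, FN_isFundamentalDomain N hfin
    (fun γ hγ => hfree3 γ (congr_mono h3N hγ)), ?_⟩
  obtain ⟨m, hm⟩ := six_dvd_XN hdvd hfree3
  have hpos : 0 < Fintype.card (XN N) := Fintype.card_pos_iff.2 ⟨Quotient.mk _ ⟨I, I_mem_PP⟩⟩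
  refine ⟨m + 1, by omega, ?_⟩
  rw [volume_FN, hm]
  congr 1
  push_cast
  ring

end

end Pool.Agent.Lib.MP_d28b99_gt
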