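import Pool.Agent.Lib.MP_d28b99_gt.Congr

/-!
# The congruence groups are discrete, torsion free, with large displacement
-/

set_option autoImplicit false

open UpperHalfPlane Set Topology
open scoped MatrixGroups

namespace Pool.Agent.Lib.MP_d28b99_gt

noncomputable section

/-- divisibility by three -/
lemma three_dvd_of_sq (a b : ℤ) (h : (3 : ℤ) ∣ a ^ 2 + b ^ 2) : (3 : ℤ) ∣ a ∧ (3 : ℤ) ∣ b := by
  have key : ∀ x y : ZMod 3, x ^ 2 + y ^ 2 = 0 → x = 0 ∧ y = 0 := by decide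
  have h1 : ((a ^ 2 + b ^ 2 : ℤ) : ZMod 3) = 0 := by
    rw [ZMod.intCast_zmod_eq_zero_iff_dvd]
    exact_mod_cast h
  push_cast at h1
  obtain ⟨ha, hb⟩ := key _ _ h1
  constructor
  · exact_mod_cast (ZMod.intCast_zmod_eq_zero_iff_dvd a 3).1 ha
  · exact_mod_cast (ZMod.intCast_zmod_eq_zero_iff_dvd b 3).1 hb

/-- The norm form is anisotropic. -/
lemma anisotropic (a b c d : ℤ) (h : a ^ 2 + b ^ 2 = 3 * (c ^ 2 + d ^ 2)) :
    a = 0 ∧ b = 0 ∧ c = 0 ∧ d = 0 := by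
  have main : ∀ n : ℕ, ∀ a b c d : ℤ, a.natAbs + b.natAbs + c.natAbs + d.natAbs ≤ n →
      a ^ 2 + b ^ 2 = 3 * (c ^ 2 + d ^ 2) → a = 0 ∧ b = 0 ∧ c = 0 ∧ d = 0 := by
    intro n
    induction n with
    | zero => intro a b c d hn _; omega
    | succ n ih =>
      intro a b c d hn h
      obtain ⟨⟨a', rfl⟩, ⟨b', rfl⟩⟩ := three_dvd_of_sq a b ⟨_, h⟩
      have h2 : c ^ 2 + d ^ 2 = 3 * (a' ^ 2 + b' ^ 2) := by linarith
      obtain ⟨⟨c', rfl⟩, ⟨d', rfl⟩⟩ := three_dvd_of_sq c d ⟨_, h2⟩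
      have h3 : a' ^ 2 + b' ^ 2 = 3 * (c' ^ 2 + d' ^ 2) := by linarith
      by_cases h0 : a' = 0 ∧ b' = 0 ∧ c' = 0 ∧ d' = 0
      · obtain ⟨rfl, rfl, rfl, rfl⟩ := h0
        simp
      · exact absurd (ih a' b' c' d' (by omega) h3) h0
  exact main _ a b c d le_rfl h

/-- Elements of the congruence group with `X ^ 2 = 1`. -/
lemma mem_congr_cases {N : ℕ} {g : SL(2, ℝ)} (hg : g ∈ congr N) :
    g = 1 ∨ ∃ X : ℤ, (N : ℤ) - 1 ≤ |X| ∧ g 0 0 + g 1 1 = 2 * (X : ℝ) := by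
  obtain ⟨x, y, z, w, h⟩ := hg
  have hdet : (g : Matrix (Fin 2) (Fin 2) ℝ).det = 1 := g.2
  rw [h, det_qmat] at hdet
  have hdet' : (1 + N * x) ^ 2 + (N * z) ^ 2 - 3 * ((N * y) ^ 2 + (N * w) ^ 2) = (1 : ℤ) := by
    exact_mod_cast hdet
  by_cases hx : x = 0
  · left
    subst hx
    have h1 : (0 : ℤ) ^ 2 + (N * z) ^ 2 = 3 * ((N * y) ^ 2 + (N * w) ^ 2) := by linarith
    obtain ⟨-, hz, hy, hw⟩ := anisotropic _ _ _ _ h1
    apply Subtype.ext
    change (g : Matrix (Fin 2) (Fin 2) ℝ) = 1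
    rw [h, hz, hy, hw, mul_zero, add_zero, Int.cast_one, Int.cast_zero, qmat_one]
  · right
    refine ⟨1 + N * x, ?_, ?_⟩
    · have h1 : (1 : ℤ) ≤ |x| := Int.one_le_abs hx
      have h2 : |(N : ℤ) * x| ≤ |1 + N * x| + |(1 : ℤ)| := by
        have := abs_sub (1 + (N : ℤ) * x) 1
        simpa using this
      rw [abs_mul, abs_one, Nat.abs_cast] at h2
      nlinarith
    · have h1 : g 0 0 = (g : Matrix (Fin 2) (Fin 2) ℝ) 0 0 := rfl
      have h2 : g 1 1 = (g : Matrix (Fin 2) (Fin 2) ℝ) 1 1 := rfl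
      rw [h1, h2, h]
      simp [qmat]
      ring

/-- Distance formula. -/
lemma cosh_dist_smul (g : SL(2, ℝ)) (z : ℍ) : Real.cosh (dist z (g • z)) =
    1 + ((g 1 0 * z.re ^ 2 + (g 1 1 - g 0 0) * z.re - g 0 1 + g 1 0 * z.im ^ 2) ^ 2 +
      z.im ^ 2 * ((g 0 0 + g 1 1) ^ 2 - 4)) / (2 * z.im ^ 2) := by
  have hdet : g 0 0 * g 1 1 - g 0 1 * g 1 0 = 1 := by
    have := g.2
    rw [Matrix.det_fin_two] at this
    exact this
  set a := g 0 0
  set b := g 0 1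
  set c := g 1 0
  set d := g 1 1
  have hy : z.im ≠ 0 := z.im_pos.ne'
  have hcoe : ((g • z : ℍ) : ℂ) = ((a : ℂ) * z + b) / ((c : ℂ) * z + d) := by
    rw [coe_specialLinearGroup_apply]
    rfl
  have hne : (c : ℂ) * z + d ≠ 0 := by
    intro h
    have h1 := congrArg Complex.im h
    have h2 := congrArg Complex.re h
    simp at h1 h2
    rcases h1 with h1 | h1
    · rw [h1] at h2 hdet
      simp at h2
      rw [h2] at hdet
      simp at hdet
    · exact hy h1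
  have hD : Complex.normSq ((c : ℂ) * z + d) ≠ 0 := by
    rwa [Ne, Complex.normSq_eq_zero]
  have hDval : Complex.normSq ((c : ℂ) * z + d) = (c * z.re + d) ^ 2 + (c * z.im) ^ 2 := by
    rw [Complex.normSq_apply]
    simp
    ring
  have him : (g • z).im = z.im / Complex.normSq ((c : ℂ) * z + d) := by
    have h1 : (g • z).im = ((g • z : ℍ) : ℂ).im := rfl
    rw [h1, hcoe, Complex.div_im]
    simp
    field_simp
    linear_combination hdet
  rw [UpperHalfPlane.cosh_dist, him, Complex.dist_eq, Complex.sq_norm, hcoe]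
  have h3 : (z : ℂ) - ((a : ℂ) * z + b) / ((c : ℂ) * z + d) =
      ((c : ℂ) * z ^ 2 + (d - a) * z - b) / ((c : ℂ) * z + d) := by
    rw [eq_div_iff hne, sub_mul, div_mul_cancel₀ _ hne]
    ring
  rw [h3, Complex.normSq_div]
  have h4 : Complex.normSq ((c : ℂ) * z ^ 2 + (d - a) * z - b) =
      (c * z.re ^ 2 + (d - a) * z.re - b + c * z.im ^ 2) ^ 2 +
      z.im ^ 2 * ((a + d) ^ 2 - 4) := by
    rw [Complex.normSq_apply]
    simp [pow_two]
    linear_combination (-4 * z.im ^ 2) * hdet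
  rw [h4]
  field_simp

/-- Nontrivial elements move every point a lot. -/
lemma cosh_dist_congr {N : ℕ} (hN : 3 ≤ N) {g : SL(2, ℝ)} (hg : g ∈ congr N) (h1 : g ≠ 1) (z : ℍ) :
    2 * ((N : ℝ) - 1) ^ 2 - 1 ≤ Real.cosh (dist z (g • z)) := by
  rcases mem_congr_cases hg with h | ⟨X, hX, htr⟩
  · exact absurd h h1
  · rw [cosh_dist_smul, htr]
    have hy : 0 < z.im := z.im_pos
    have hXr : ((N : ℝ) - 1) ^ 2 ≤ (X : ℝ) ^ 2 := by
      have h2 : ((N : ℝ) - 1) ≤ |(X : ℝ)| := by exact_mod_cast hX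
      have h3 : (3 : ℝ) ≤ N := by exact_mod_cast hN
      rw [← sq_abs (X : ℝ)]
      exact pow_le_pow_left₀ (by linarith) h2 2
    rw [← sub_le_iff_le_add', le_div_iff₀ (by positivity)]
    nlinarith [sq_nonneg (g 1 0 * z.re ^ 2 + (g 1 1 - g 0 0) * z.re - g 0 1 + g 1 0 * z.im ^ 2),
      mul_le_mul_of_nonneg_left hXr (sq_nonneg z.im)]

theorem congr_displacement (R : ℝ) : ∃ N₀ : ℕ, ∀ N : ℕ, N₀ ≤ N → ∀ γ ∈ congr N, γ ≠ 1 →
    ∀ z : ℍ, R ≤ dist z (γ • z) := by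
  obtain ⟨N₁, hN₁⟩ := exists_nat_gt (Real.cosh R)
  refine ⟨max 3 (N₁ + 2), fun N hN γ hγ hne z => ?_⟩
  have hN3 : 3 ≤ N := le_trans (le_max_left _ _) hN
  have hN2 : N₁ + 2 ≤ N := le_trans (le_max_right _ _) hN
  by_contra hlt
  push Not at hlt
  have h1 := cosh_dist_congr hN3 hγ hne z
  have h2 : Real.cosh (dist z (γ • z)) < Real.cosh R := by
    rw [Real.cosh_lt_cosh, abs_of_nonneg dist_nonneg]
    exact lt_of_lt_of_le hlt (le_abs_self R)
  have h3 : (N₁ : ℝ) + 2 ≤ N := by exact_mod_cast hN2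
  have h4 : (0 : ℝ) ≤ N₁ := Nat.cast_nonneg _
  nlinarith

theorem congr_free (N : ℕ) (hN : 3 ≤ N) : ∀ γ ∈ congr N, γ ≠ 1 → ∀ z : ℍ, γ • z ≠ z := by
  intro γ hγ hne z h
  have h1 := cosh_dist_congr hN hγ hne z
  rw [h, dist_self, Real.cosh_zero] at h1
  have h2 : (3 : ℝ) ≤ N := by exact_mod_cast hN
  nlinarith

theorem congr_discrete (N : ℕ) (hN : 3 ≤ N) : DiscreteTopology (congr N) := by
  apply discreteTopology_of_isOpen_singleton_one
  have hcont : Continuous fun g : congr N => ((g : SL(2, ℝ)) 0 0 + (g : SL(2, ℝ)) 1 1 : ℝ) := by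
    have h1 : Continuous fun g : SL(2, ℝ) => (g : Matrix (Fin 2) (Fin 2) ℝ) :=
      continuous_subtype_val
    exact ((h1.matrix_elem 0 0).add (h1.matrix_elem 1 1)).comp continuous_subtype_val
  have hopen : IsOpen {g : congr N | |((g : SL(2, ℝ)) 0 0 + (g : SL(2, ℝ)) 1 1 : ℝ)| < 4} :=
    isOpen_lt hcont.abs continuous_const
  convert hopen using 1
  ext g
  simp only [mem_singleton_iff, mem_ofPred_eq]
  constructor
  · rintro rfl
    simp
    norm_num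
  · intro h
    rcases mem_congr_cases g.2 with h1 | ⟨X, hX, htr⟩
    · exact Subtype.ext h1
    · exfalso
      rw [htr, abs_mul] at h
      have h2 : (2 : ℤ) ≤ |X| := by
        have : (3 : ℤ) ≤ N := by exact_mod_cast hN
        linarith
      have h3 : (2 : ℝ) ≤ |(X : ℝ)| := by exact_mod_cast h2
      rw [abs_of_pos (by norm_num : (0 : ℝ) < 2)] at h
      linarith

end

end Pool.Agent.Lib.MP_d28b99_gt
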