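import Pool.Agent.Lib.MP_d28b99_gt.Meas

set_option autoImplicit false

open MeasureTheory UpperHalfPlane Set Topology
open scoped MatrixGroups ENNReal Pointwise ContDiff

namespace Pool.Agent.Lib.MP_d28b99_gt

noncomputable section

/-- cutoff: `1` for `u ≤ cosh (1/2)`, `0` for `u ≥ cosh 1` -/
def cut (u : ℝ) : ℝ :=
  Real.smoothTransition ((Real.cosh 1 - u) / (Real.cosh 1 - Real.cosh (1 / 2)))

lemma cosh_half_lt : Real.cosh (1 / 2) < Real.cosh 1 := by
  rw [Real.cosh_lt_cosh]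
  norm_num

lemma cut_contDiff : ContDiff ℝ ∞ cut := by
  unfold cut
  exact Real.smoothTransition.contDiff.comp ((contDiff_const.sub contDiff_id).div_const _)

lemma cut_of_le {u : ℝ} (h : u ≤ Real.cosh (1 / 2)) : cut u = 1 := by
  unfold cut
  apply Real.smoothTransition.one_of_one_le
  rw [le_div_iff₀ (sub_pos.2 cosh_half_lt)]
  linarith

lemma cut_of_ge {u : ℝ} (h : Real.cosh 1 ≤ u) : cut u = 0 := by
  unfold cut
  apply Real.smoothTransition.zero_of_nonpos
  exact div_nonpos_of_nonpos_of_nonneg (by linarith) (sub_pos.2 cosh_half_lt).le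

lemma cut_nonneg (u : ℝ) : 0 ≤ cut u := Real.smoothTransition.nonneg _

lemma deriv_cut_of_ge {u : ℝ} (h : Real.cosh 1 ≤ u) : deriv cut u = 0 := by
  refine IsLocalMin.deriv_eq_zero ?_
  refine Filter.Eventually.of_forall fun v => ?_
  rw [cut_of_ge h]
  exact cut_nonneg v

lemma exists_bound_cut : ∃ C : ℝ, 0 < C ∧ ∀ u, 1 ≤ u → (deriv cut u) ^ 2 * (u ^ 2 - 1) ≤ C := by
  have hc : Continuous fun u => (deriv cut u) ^ 2 * (u ^ 2 - 1) := by
    have h1 : Continuous (deriv cut) := cut_contDiff.continuous_deriv (by simp)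
    fun_prop
  obtain ⟨C, hC⟩ := (isCompact_Icc (a := (1:ℝ)) (b := Real.cosh 1)).exists_bound_of_continuousOn
    hc.continuousOn
  refine ⟨max C 1, by positivity, fun u hu => ?_⟩
  rcases le_or_gt u (Real.cosh 1) with h | h
  · have := hC u ⟨hu, h⟩
    rw [Real.norm_eq_abs] at this
    exact (le_abs_self _).trans (this.trans (le_max_left _ _))
  · rw [deriv_cut_of_ge h.le]
    have : (0:ℝ) < max C 1 := by positivity
    simp

/-- the bump around `p` -/
def bump (p z : ℍ) : ℝ := cut (Real.cosh (dist z p))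

lemma bump_of_le {p z : ℍ} (h : dist z p ≤ 1 / 2) : bump p z = 1 := by
  apply cut_of_le
  rw [Real.cosh_le_cosh, abs_of_nonneg dist_nonneg]
  exact h.trans (le_abs_self _)

lemma bump_of_ge {p z : ℍ} (h : 1 ≤ dist z p) : bump p z = 0 := by
  apply cut_of_ge
  rw [Real.cosh_le_cosh, abs_of_nonneg dist_nonneg]
  simpa using h

/-- extension to the plane -/
def bumpC (p : ℍ) (z : ℂ) : ℝ :=
  cut (((z.re - p.re) ^ 2 + z.im ^ 2 + p.im ^ 2) / (2 * p.im * z.im))

lemma cosh_dist_formula (z p : ℍ) : Real.cosh (dist z p) =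
    ((z.re - p.re) ^ 2 + z.im ^ 2 + p.im ^ 2) / (2 * p.im * z.im) := by
  rw [cosh_dist, Complex.dist_eq, Complex.sq_norm, Complex.normSq_apply]
  have h1 : z.im ≠ 0 := z.im_pos.ne'
  have h2 : p.im ≠ 0 := p.im_pos.ne'
  simp
  field_simp
  ring

lemma bump_ofComplex {p : ℍ} {z : ℂ} (hz : 0 < z.im) : bump p (ofComplex z) = bumpC p z := by
  unfold bump bumpC
  rw [cosh_dist_formula]
  have : ofComplex z = ⟨z, hz⟩ := ofComplex_apply_of_im_pos hz
  rw [this]
  rfl

lemma bumpC_contDiffAt {p : ℍ} {z : ℂ} (hz : 0 < z.im) : ContDiffAt ℝ ∞ (bumpC p) z := by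
  unfold bumpC
  refine cut_contDiff.contDiffAt.comp z ?_
  have h2 : p.im ≠ 0 := p.im_pos.ne'
  refine ContDiffAt.div ?_ ?_ (by positivity)
  · have hre : ContDiffAt ℝ ∞ Complex.re z := Complex.reCLM.contDiff.contDiffAt
    have him : ContDiffAt ℝ ∞ Complex.im z := Complex.imCLM.contDiff.contDiffAt
    fun_prop
  · have him : ContDiffAt ℝ ∞ Complex.im z := Complex.imCLM.contDiff.contDiffAt
    fun_prop

lemma nhds_ofComplex {z : ℍ} {P : ℍ → Prop} (h : ∀ᶠ w in 𝓝 z, P w) :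
    ∀ᶠ w in 𝓝 (z : ℂ), P (ofComplex w) := by
  rw [← isOpenEmbedding_coe.map_nhds_eq z, Filter.eventually_map]
  filter_upwards [h] with w hw
  rwa [ofComplex_apply]

lemma gradSq_congr {f g : ℍ → ℝ} {z : ℍ} (h : f =ᶠ[𝓝 z] g) : gradSq f z = gradSq g z := by
  unfold gradSq
  have : (fun w : ℂ => f (ofComplex w)) =ᶠ[𝓝 (z : ℂ)] fun w => g (ofComplex w) := nhds_ofComplex h
  rw [this.fderiv_eq]

lemma hasFDerivAt_coshForm (p : ℍ) {z : ℂ} (hzi : z.im ≠ 0) :
    HasFDerivAt (fun z : ℂ => ((z.re - p.re) ^ 2 + z.im ^ 2 + p.im ^ 2) / (2 * p.im * z.im))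
      (((z.re - p.re) / (p.im * z.im)) • Complex.reCLM +
        ((z.im ^ 2 - p.im ^ 2 - (z.re - p.re) ^ 2) / (2 * p.im * z.im ^ 2)) • Complex.imCLM) z := by
  have hpi : p.im ≠ 0 := p.im_pos.ne'
  have hre : HasFDerivAt (fun w : ℂ => w.re) Complex.reCLM z := Complex.reCLM.hasFDerivAt
  have him : HasFDerivAt (fun w : ℂ => w.im) Complex.imCLM z := Complex.imCLM.hasFDerivAt
  have h1 := (((hre.sub_const p.re).pow 2).add (him.pow 2)).add_const (p.im ^ 2)
  have h2 := (hasDerivAt_inv hzi).comp_hasFDerivAt z him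
  have h3 := (h1.mul h2).const_mul (2 * p.im)⁻¹
  have h4 := h3.congr_of_eventuallyEq (f₁ := fun z : ℂ =>
      ((z.re - p.re) ^ 2 + z.im ^ 2 + p.im ^ 2) / (2 * p.im * z.im)) (by
    refine Filter.Eventually.of_forall fun w => ?_
    simp only [Pi.add_apply, Pi.mul_apply, Function.comp_apply]
    rw [div_eq_mul_inv, mul_inv]
    ring)
  refine h4.congr_fderiv ?_
  ext
  simp
  field_simp
  ring

lemma gradSq_smul_bump (a : ℝ) (p z : ℍ) : gradSq (fun w => a * bump p w) z =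
    a ^ 2 * ((deriv cut (Real.cosh (dist z p))) ^ 2 * ((Real.cosh (dist z p)) ^ 2 - 1)) := by
  have hz : 0 < (z : ℂ).im := z.im_pos
  have hzi : z.im ≠ 0 := z.im_pos.ne'
  have hpi : p.im ≠ 0 := p.im_pos.ne'
  have h1 := hasFDerivAt_coshForm p (z := (z : ℂ)) hzi
  have h2 : HasDerivAt cut (deriv cut (((((z : ℂ).re - p.re) ^ 2 + (z : ℂ).im ^ 2 + p.im ^ 2) /
      (2 * p.im * (z : ℂ).im)))) (((((z : ℂ).re - p.re) ^ 2 + (z : ℂ).im ^ 2 + p.im ^ 2) /
      (2 * p.im * (z : ℂ).im))) :=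
    (cut_contDiff.differentiable (by simp)).differentiableAt.hasDerivAt
  have h3 := (h2.comp_hasFDerivAt (z : ℂ) h1).const_mul a
  have h4 : (fun w : ℂ => a * bump p (ofComplex w)) =ᶠ[𝓝 (z : ℂ)] fun w => a * (cut ∘ fun z : ℂ =>
      ((z.re - p.re) ^ 2 + z.im ^ 2 + p.im ^ 2) / (2 * p.im * z.im)) w := by
    have hop : IsOpen {w : ℂ | 0 < w.im} := isOpen_lt continuous_const Complex.continuous_im
    filter_upwards [hop.mem_nhds hz] with w hw
    rw [bump_ofComplex hw]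
    rfl
  unfold gradSq
  rw [h4.fderiv_eq, h3.fderiv, cosh_dist_formula]
  have e1 : (z : ℂ).re = z.re := rfl
  have e2 : (z : ℂ).im = z.im := rfl
  simp only [e1, e2]
  generalize deriv cut _ = D
  simp
  field_simp
  ring

lemma gradSq_zero (z : ℍ) : gradSq (fun _ => 0) z = 0 := by
  unfold gradSq
  simp

end

end Pool.Agent.Lib.MP_d28b99_gt
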