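import Pool.Agent.Lib.MP_d28b99_gt.Coord

/-!
# The area of the cell `D = {3|p| < q, 3|r| < q}`
-/

set_option autoImplicit false

open MeasureTheory UpperHalfPlane Set Topology
open scoped MatrixGroups ENNReal

namespace Pool.Agent.Lib.MP_d28b99_gt

noncomputable section

lemma lintegral_inv_sq {a b : ℝ} (ha : 0 < a) (hab : a ≤ b) :
    ∫⁻ y in Ioo a b, ENNReal.ofReal (1 / y ^ 2) = ENNReal.ofReal (1 / a - 1 / b) := by
  have hcont : ContinuousOn (fun y : ℝ => 1 / y ^ 2) (Icc a b) := by
    refine ContinuousOn.div continuousOn_const (by fun_prop) ?_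
    intro y hy
    have : 0 < y := ha.trans_le hy.1
    positivity
  have hint : IntervalIntegrable (fun y : ℝ => 1 / y ^ 2) volume a b := by
    refine ContinuousOn.intervalIntegrable ?_
    rwa [uIcc_of_le hab]
  have hFTC : ∫ y in a..b, 1 / y ^ 2 = -(1 / b) - -(1 / a) := by
    refine intervalIntegral.integral_eq_sub_of_hasDerivAt (f := fun y : ℝ => -(1 / y)) ?_ hint
    intro y hy
    rw [uIcc_of_le hab] at hy
    have hy0 : 0 < y := ha.trans_le hy.1
    have := (hasDerivAt_inv hy0.ne').neg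
    convert this using 1
    · ext t; simp
    · field_simp
  rw [← ofReal_integral_eq_lintegral_ofReal]
  · rw [← integral_Ioc_eq_integral_Ioo, ← intervalIntegral.integral_of_le hab, hFTC]
    congr 1
    ring
  · exact (hint.1).mono_set Ioo_subset_Ioc_self
  · filter_upwards with y
    positivity

lemma integral_inv_sqrt {c h a b : ℝ} (hc : 0 < c) (hab : a ≤ b) (ha : (a - h) ^ 2 < c)
    (hb : (b - h) ^ 2 < c) :
    IntervalIntegrable (fun t : ℝ => 1 / √(c - (t - h) ^ 2)) volume a b ∧
    ∫ t in a..b, 1 / √(c - (t - h) ^ 2) = Real.arcsin ((b - h) / √c) - Real.arcsin ((a - h) / √c) := by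
  have hsc : 0 < √c := Real.sqrt_pos.2 hc
  have hlt : ∀ t ∈ Icc a b, (t - h) ^ 2 < c := by
    intro t ht
    rcases le_total 0 (t - h) with h0 | h0
    · refine lt_of_le_of_lt ?_ hb
      have : t - h ≤ b - h := by linarith [ht.2]
      nlinarith
    · refine lt_of_le_of_lt ?_ ha
      have : a - h ≤ t - h := by linarith [ht.1]
      nlinarith
  have hcont : ContinuousOn (fun t : ℝ => 1 / √(c - (t - h) ^ 2)) (Icc a b) := by
    refine ContinuousOn.div continuousOn_const (by fun_prop) ?_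
    intro t ht
    exact (Real.sqrt_pos.2 (by linarith [hlt t ht])).ne'
  have hint : IntervalIntegrable (fun t : ℝ => 1 / √(c - (t - h) ^ 2)) volume a b := by
    refine ContinuousOn.intervalIntegrable ?_
    rwa [uIcc_of_le hab]
  refine ⟨hint, ?_⟩
  refine intervalIntegral.integral_eq_sub_of_hasDerivAt
    (f := fun t : ℝ => Real.arcsin ((t - h) / √c)) ?_ hint
  intro t ht
  rw [uIcc_of_le hab] at ht
  have h1 := hlt t ht
  have hsq : ((t - h) / √c) ^ 2 < 1 := by
    rw [div_pow, Real.sq_sqrt hc.le, div_lt_one hc]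
    exact h1
  have habs := abs_lt.1 ((sq_lt_one_iff_abs_lt_one _).1 hsq)
  have hd := Real.hasDerivAt_arcsin (ne_of_gt habs.1) (ne_of_lt habs.2)
  have hd2 : HasDerivAt (fun t : ℝ => (t - h) / √c) (1 / √c) t :=
    ((hasDerivAt_id t).sub_const h).div_const _
  refine (hd.comp t hd2).congr_deriv ?_
  have e : c - (t - h) ^ 2 = c * (1 - ((t - h) / √c) ^ 2) := by
    rw [div_pow, Real.sq_sqrt hc.le]
    field_simp
  rw [e, Real.sqrt_mul hc.le]
  have : √(1 - ((t - h) / √c) ^ 2) ≠ 0 := (Real.sqrt_pos.2 (by linarith)).ne'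
  field_simp


/-! ### special values -/

/-- `x₁` -/
def xa : ℝ := (√3 - 1) / 2
/-- `x₂` -/
def xb : ℝ := (√3 + 1) / 2

lemma sqrt3_gt : 1.7 < √3 := by
  rw [Real.lt_sqrt (by norm_num)]; norm_num
lemma sqrt3_lt : √3 < 1.8 := by
  rw [Real.sqrt_lt' (by norm_num)]; norm_num

lemma xa_pos : 0 < xa := by unfold xa; linarith [sqrt3_gt]
lemma xa_lt_xb : xa < xb := by unfold xa xb; linarith

lemma xa_sq : xa ^ 2 = (2 - √3) / 2 := by
  unfold xa
  linear_combination (1 / 4) * sqrt3_sq

lemma xb_sq : xb ^ 2 = (2 + √3) / 2 := by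
  unfold xb
  linear_combination (1 / 4) * sqrt3_sq

lemma arcsin_one : Real.arcsin (xa / √(2 - √3)) = Real.pi / 4 := by
  have h1 : √(2 - √3) = √2 * xa := by
    rw [Real.sqrt_eq_iff_mul_self_eq (by linarith [sqrt3_lt]) (by have := xa_pos; positivity)]
    have := xa_sq
    have h2 : √2 * √2 = 2 := Real.mul_self_sqrt (by norm_num)
    linear_combination -(xa * xa) * h2 - 2 * this
  have hxa := xa_pos
  have h3 : xa / √(2 - √3) = Real.sin (Real.pi / 4) := by
    rw [h1, Real.sin_pi_div_four]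
    have h2 : √2 * √2 = 2 := Real.mul_self_sqrt (by norm_num)
    have : 0 < √2 := Real.sqrt_pos.2 (by norm_num)
    rw [div_eq_div_iff (by positivity) (by norm_num)]
    linear_combination (-xa) * h2
  rw [h3, Real.arcsin_sin] <;> linarith [Real.pi_pos]

lemma arcsin_four : Real.arcsin (xb / √(2 + √3)) = Real.pi / 4 := by
  have hxb : 0 < xb := xa_pos.trans xa_lt_xb
  have h1 : √(2 + √3) = √2 * xb := by
    rw [Real.sqrt_eq_iff_mul_self_eq (by linarith [sqrt3_gt]) (by positivity)]
    have := xb_sq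
    have h2 : √2 * √2 = 2 := Real.mul_self_sqrt (by norm_num)
    linear_combination -(xb * xb) * h2 - 2 * this
  have h3 : xb / √(2 + √3) = Real.sin (Real.pi / 4) := by
    rw [h1, Real.sin_pi_div_four]
    have h2 : √2 * √2 = 2 := Real.mul_self_sqrt (by norm_num)
    have : 0 < √2 := Real.sqrt_pos.2 (by norm_num)
    rw [div_eq_div_iff (by positivity) (by norm_num)]
    linear_combination (-xb) * h2
  rw [h3, Real.arcsin_sin] <;> linarith [Real.pi_pos]

lemma arcsin_two : Real.arcsin ((xb - √3) / √2) = -(Real.pi / 12) := by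
  have h3 : (xb - √3) / √2 = Real.sin (-(Real.pi / 12)) := by
    have e : -(Real.pi / 12) = Real.pi / 4 - Real.pi / 3 := by ring
    rw [e, Real.sin_sub, Real.sin_pi_div_four, Real.cos_pi_div_four, Real.cos_pi_div_three,
      Real.sin_pi_div_three]
    have h2 : √2 * √2 = 2 := Real.mul_self_sqrt (by norm_num)
    have : 0 < √2 := Real.sqrt_pos.2 (by norm_num)
    rw [div_eq_iff this.ne']
    unfold xb
    linear_combination (-(1 / 4) + √3 / 4) * h2
  rw [h3, Real.arcsin_sin] <;> linarith [Real.pi_pos]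

lemma arcsin_three : Real.arcsin ((xa - √3) / √2) = -(5 * Real.pi / 12) := by
  have h3 : (xa - √3) / √2 = Real.sin (-(5 * Real.pi / 12)) := by
    have e : -(5 * Real.pi / 12) = -(Real.pi / 4 + Real.pi / 6) := by ring
    rw [e, Real.sin_neg, Real.sin_add, Real.sin_pi_div_four, Real.cos_pi_div_four,
      Real.cos_pi_div_six, Real.sin_pi_div_six]
    have h2 : √2 * √2 = 2 := Real.mul_self_sqrt (by norm_num)
    have : 0 < √2 := Real.sqrt_pos.2 (by norm_num)
    rw [div_eq_iff this.ne']
    unfold xa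
    linear_combination (1 / 4 + √3 / 4) * h2
  rw [h3, Real.arcsin_sin] <;> linarith [Real.pi_pos]

/-- the difference of reciprocals of the ends of the vertical section of `D` at `x`, `t = |x|` -/
def hsec (t : ℝ) : ℝ :=
  if t ≤ xa then 1 / √((2 - √3) - (t - 0) ^ 2) - 1 / √((2 + √3) - (t - 0) ^ 2)
  else if t ≤ xb then 1 / √(2 - (t - √3) ^ 2) - 1 / √((2 + √3) - (t - 0) ^ 2)
  else 0

lemma integral_hsec : IntegrableOn hsec (Ioi 0) volume ∧ ∫ t in Ioi 0, hsec t = Real.pi / 3 := by
  have hxa := xa_pos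
  have hab := xa_lt_xb
  have h3 := sqrt3_gt
  have h3' := sqrt3_lt
  have hxa2 := xa_sq
  have hxb2 := xb_sq
  -- three pieces
  obtain ⟨i1, e1⟩ := integral_inv_sqrt (c := 2 - √3) (h := 0) (a := 0) (b := xa) (by linarith)
    hxa.le (by norm_num; linarith) (by rw [sub_zero, hxa2]; linarith)
  obtain ⟨i2, e2⟩ := integral_inv_sqrt (c := 2) (h := √3) (a := xa) (b := xb) (by norm_num)
    hab.le (by
      have : xa - √3 = -xb := by unfold xa xb; ring
      rw [this, neg_sq, hxb2]; linarith) (by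
      have : xb - √3 = -xa := by unfold xa xb; ring
      rw [this, neg_sq, hxa2]; linarith)
  obtain ⟨i3, e3⟩ := integral_inv_sqrt (c := 2 + √3) (h := 0) (a := 0) (b := xa) (by linarith)
    hxa.le (by norm_num; linarith) (by rw [sub_zero, hxa2]; linarith)
  obtain ⟨i4, e4⟩ := integral_inv_sqrt (c := 2 + √3) (h := 0) (a := xa) (b := xb) (by linarith)
    hab.le (by rw [sub_zero, hxa2]; linarith) (by rw [sub_zero, hxb2]; linarith)
  have I1 : IntegrableOn hsec (Ioc 0 xa) volume := by
    refine ((i1.sub i3).1).congr_fun ?_ measurableSet_Ioc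
    intro t ht
    simp only [hsec, if_pos ht.2]
  have I2 : IntegrableOn hsec (Ioc xa xb) volume := by
    refine ((i2.sub i4).1).congr_fun ?_ measurableSet_Ioc
    intro t ht
    simp only [hsec, if_neg (not_le.2 ht.1), if_pos ht.2]
  have I3 : IntegrableOn hsec (Ioi xb) volume := by
    refine (integrableOn_zero).congr_fun (f := fun _ => (0 : ℝ)) ?_ measurableSet_Ioi
    intro t ht
    have ht' : xb < t := ht
    simp only [hsec, if_neg (not_le.2 (hab.trans ht')), if_neg (not_le.2 ht')]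
  have hu1 : Ioi (0 : ℝ) = (Ioc 0 xa ∪ Ioc xa xb) ∪ Ioi xb := by
    rw [Ioc_union_Ioc_eq_Ioc hxa.le hab.le, Ioc_union_Ioi_eq_Ioi (hxa.trans hab).le]
  constructor
  · rw [hu1]
    exact (I1.union I2).union I3
  · rw [hu1, setIntegral_union _ measurableSet_Ioi (I1.union I2) I3,
      setIntegral_union _ measurableSet_Ioc I1 I2]
    · have v1 : ∫ t in Ioc 0 xa, hsec t = ∫ t in (0 : ℝ)..xa,
          (1 / √((2 - √3) - (t - 0) ^ 2) - 1 / √((2 + √3) - (t - 0) ^ 2)) := by
        rw [intervalIntegral.integral_of_le hxa.le]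
        refine setIntegral_congr_fun measurableSet_Ioc ?_
        intro t ht
        simp only [hsec, if_pos ht.2]
      have v2 : ∫ t in Ioc xa xb, hsec t = ∫ t in xa..xb,
          (1 / √(2 - (t - √3) ^ 2) - 1 / √((2 + √3) - (t - 0) ^ 2)) := by
        rw [intervalIntegral.integral_of_le hab.le]
        refine setIntegral_congr_fun measurableSet_Ioc ?_
        intro t ht
        simp only [hsec, if_neg (not_le.2 ht.1), if_pos ht.2]
      have v3 : ∫ t in Ioi xb, hsec t = 0 := by
        rw [setIntegral_congr_fun (g := fun _ => (0 : ℝ)) measurableSet_Ioi]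
        · simp
        · intro t ht
          have ht' : xb < t := ht
          simp only [hsec, if_neg (not_le.2 (hab.trans ht')), if_neg (not_le.2 ht')]
      rw [v1, v2, v3, intervalIntegral.integral_sub i1 i3, intervalIntegral.integral_sub i2 i4,
        e1, e2, e3, e4]
      simp only [sub_zero, zero_div, Real.arcsin_zero]
      rw [arcsin_one, arcsin_two, arcsin_three, arcsin_four]
      ring
    · rw [Set.disjoint_left]
      intro t ht ht'
      exact absurd ht.2 (not_le.2 ht'.1)
    · rw [Set.disjoint_left]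
      rintro t (ht | ht) ht'
      · exact absurd ht.2 (not_le.2 (hab.trans ht'))
      · exact absurd ht.2 (not_le.2 ht')

/-- the cell -/
def cell : Set ℍ := {z | 3 * |pc z| < qc z ∧ 3 * |rc z| < qc z}

/-- the cell in real coordinates -/
def cellR : Set (ℝ × ℝ) := {u | 0 < u.2 ∧ 2 * √3 * |u.1| < u.1 ^ 2 + u.2 ^ 2 + 1 ∧
  √3 * |u.1 ^ 2 + u.2 ^ 2 - 1| < u.1 ^ 2 + u.2 ^ 2 + 1}

lemma cell_iff (z : ℍ) : z ∈ cell ↔ ((z.re, z.im) : ℝ × ℝ) ∈ cellR := by
  have hz := z.im_pos
  have h3 := sqrt3_pos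
  have h33 := sqrt3_sq
  have e1 : |pc z| = |z.re| / (√3 * z.im) := by
    unfold pc
    rw [abs_div, abs_of_pos (by positivity : 0 < √3 * z.im)]
  have e2 : |rc z| = |z.re ^ 2 + z.im ^ 2 - 1| / (2 * √3 * z.im) := by
    unfold rc
    rw [abs_div, abs_of_pos (by positivity : 0 < 2 * √3 * z.im)]
  have e3 : 3 * |pc z| = 2 * √3 * |z.re| / (2 * z.im) := by
    rw [e1]
    field_simp
    linear_combination (-|z.re|) * h33
  have e4 : 3 * |rc z| = √3 * |z.re ^ 2 + z.im ^ 2 - 1| / (2 * z.im) := by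
    rw [e2]
    field_simp
    linear_combination (-|z.re ^ 2 + z.im ^ 2 - 1|) * h33
  unfold cell cellR
  simp only [mem_ofPred_eq]
  rw [e3, e4]
  unfold qc
  rw [div_lt_div_iff_of_pos_right (by positivity), div_lt_div_iff_of_pos_right (by positivity)]
  constructor
  · rintro ⟨h1, h2⟩; exact ⟨hz, h1, h2⟩
  · rintro ⟨_, h1, h2⟩; exact ⟨h1, h2⟩

lemma measurableSet_cellR : MeasurableSet cellR := by
  unfold cellR
  refine MeasurableSet.inter (measurableSet_lt measurable_const measurable_snd)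
    (MeasurableSet.inter
      (measurableSet_lt (f := fun u : ℝ × ℝ => 2 * √3 * |u.1|)
        (g := fun u : ℝ × ℝ => u.1 ^ 2 + u.2 ^ 2 + 1) ?_ ?_)
      (measurableSet_lt (f := fun u : ℝ × ℝ => √3 * |u.1 ^ 2 + u.2 ^ 2 - 1|)
        (g := fun u : ℝ × ℝ => u.1 ^ 2 + u.2 ^ 2 + 1) ?_ ?_))
  · exact (continuous_const.mul continuous_fst.abs).measurable
  · fun_prop
  · exact (continuous_const.mul (by fun_prop : Continuous fun u : ℝ × ℝ =>
      u.1 ^ 2 + u.2 ^ 2 - 1).abs).measurable
  · fun_prop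

lemma mem_cellR_iff {x y : ℝ} (hy : 0 < y) : (x, y) ∈ cellR ↔
    (2 * √3 * |x| - 1 < |x| ^ 2 + y ^ 2 ∧ |x| ^ 2 + y ^ 2 < 2 + √3 ∧
      2 - √3 < |x| ^ 2 + y ^ 2) := by
  have h3 := sqrt3_gt
  have h3' := sqrt3_lt
  have h33 := sqrt3_sq
  rw [sq_abs]
  have key : (√3 * |x ^ 2 + y ^ 2 - 1| < x ^ 2 + y ^ 2 + 1) ↔
      (x ^ 2 + y ^ 2 < 2 + √3 ∧ 2 - √3 < x ^ 2 + y ^ 2) := by
    set t := x ^ 2 + y ^ 2 with ht
    have e : √3 * |t - 1| = |√3 * (t - 1)| := by
      rw [abs_mul, abs_of_pos sqrt3_pos]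
    rw [e, abs_lt]
    have f1 : (√3 + 1) - (√3 - 1) * t = (√3 - 1) * (2 + √3 - t) := by
      linear_combination (-1 : ℝ) * h33
    have f2 : (√3 + 1) * t - (√3 - 1) = (√3 + 1) * (t - (2 - √3)) := by
      linear_combination (-1 : ℝ) * h33
    constructor
    · rintro ⟨g1, g2⟩
      constructor
      · have : 0 < (√3 - 1) * (2 + √3 - t) := by rw [← f1]; linarith
        have := (pos_iff_pos_of_mul_pos this).1 (by linarith)
        linarith
      · have : 0 < (√3 + 1) * (t - (2 - √3)) := by rw [← f2]; linarith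
        have := (pos_iff_pos_of_mul_pos this).1 (by linarith)
        linarith
    · rintro ⟨g1, g2⟩
      have k1 : 0 < (√3 - 1) * (2 + √3 - t) := mul_pos (by linarith) (by linarith)
      have k2 : 0 < (√3 + 1) * (t - (2 - √3)) := mul_pos (by linarith) (by linarith)
      constructor
      · linarith
      · linarith
  constructor
  · rintro ⟨_, h1, h2⟩
    have := key.1 h2
    simp only at h1
    exact ⟨by linarith, this.1, this.2⟩
  · rintro ⟨h1, h2⟩
    exact ⟨hy, by simp only; linarith, key.2 h2⟩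

/-- the vertical sections of the cell -/
lemma section_eq (x : ℝ) : (∃ a b : ℝ, 0 < a ∧ a ≤ b ∧ hsec |x| = 1 / a - 1 / b ∧
    {y : ℝ | (x, y) ∈ cellR} = Ioo a b) ∨ (hsec |x| = 0 ∧ {y : ℝ | (x, y) ∈ cellR} = ∅) := by
  have h3 := sqrt3_gt
  have h3' := sqrt3_lt
  have h33 := sqrt3_sq
  have hxa := xa_pos
  have hab := xa_lt_xb
  have hxa2 := xa_sq
  have hxb2 := xb_sq
  have ht0 : 0 ≤ |x| := abs_nonneg x
  have f1 : 2 * √3 * xa = 3 - √3 := by unfold xa; linear_combination h33
  have f2 : 2 * √3 * xb = 3 + √3 := by unfold xb; linear_combination h33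
  rcases le_or_gt |x| xa with h | h
  · left
    have hm : |x| ^ 2 ≤ xa ^ 2 := pow_le_pow_left₀ ht0 h 2
    have hp : 0 < (2 - √3) - (|x| - 0) ^ 2 := by rw [sub_zero]; linarith
    have hq : 2 * √3 * |x| ≤ 2 * √3 * xa := by
      apply mul_le_mul_of_nonneg_left h; positivity
    refine ⟨√((2 - √3) - (|x| - 0) ^ 2), √((2 + √3) - (|x| - 0) ^ 2), Real.sqrt_pos.2 hp,
      Real.sqrt_le_sqrt (by linarith), ?_, ?_⟩
    · simp only [hsec, if_pos h]
    · ext y
      simp only [mem_ofPred_eq, mem_Ioo]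
      constructor
      · intro hy
        have hy0 : 0 < y := hy.1
        obtain ⟨g1, g2, g3⟩ := (mem_cellR_iff hy0).1 hy
        rw [Real.sqrt_lt' hy0, Real.lt_sqrt hy0.le, sub_zero]
        constructor <;> linarith
      · rintro ⟨g1, g2⟩
        have hy0 : 0 < y := lt_of_le_of_lt (Real.sqrt_nonneg _) g1
        rw [Real.sqrt_lt' hy0, sub_zero] at g1
        rw [Real.lt_sqrt hy0.le, sub_zero] at g2
        rw [mem_cellR_iff hy0]
        refine ⟨?_, ?_, ?_⟩ <;> linarith
  · rcases le_or_gt |x| xb with h' | h'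
    · left
      have hm : |x| ^ 2 ≤ xb ^ 2 := pow_le_pow_left₀ ht0 h' 2
      have hm' : xa ^ 2 ≤ |x| ^ 2 := pow_le_pow_left₀ hxa.le h.le 2
      have hq : 2 * √3 * |x| ≤ 2 * √3 * xb := by
        apply mul_le_mul_of_nonneg_left h'; positivity
      have hq' : 2 * √3 * xa ≤ 2 * √3 * |x| := by
        apply mul_le_mul_of_nonneg_left h.le; positivity
      have e : 2 - (|x| - √3) ^ 2 = 2 * √3 * |x| - 1 - |x| ^ 2 := by
        linear_combination (-1 : ℝ) * h33
      have hp : 0 < 2 - (|x| - √3) ^ 2 := by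
        have k1 : |x| - √3 ≤ 0 := by
          have : xb = (√3 + 1) / 2 := rfl
          linarith
        have k2 : -(√3 + 1) / 2 ≤ |x| - √3 := by
          have : xa = (√3 - 1) / 2 := rfl
          linarith
        nlinarith
      refine ⟨√(2 - (|x| - √3) ^ 2), √((2 + √3) - (|x| - 0) ^ 2), Real.sqrt_pos.2 hp,
        Real.sqrt_le_sqrt (by rw [e, sub_zero]; linarith), ?_, ?_⟩
      · simp only [hsec, if_neg (not_le.2 h), if_pos h']
      · ext y
        simp only [mem_ofPred_eq, mem_Ioo]
        constructor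
        · intro hy
          have hy0 : 0 < y := hy.1
          obtain ⟨g1, g2, g3⟩ := (mem_cellR_iff hy0).1 hy
          rw [Real.sqrt_lt' hy0, Real.lt_sqrt hy0.le, sub_zero, e]
          constructor <;> linarith
        · rintro ⟨g1, g2⟩
          have hy0 : 0 < y := lt_of_le_of_lt (Real.sqrt_nonneg _) g1
          rw [Real.sqrt_lt' hy0, e] at g1
          rw [Real.lt_sqrt hy0.le, sub_zero] at g2
          rw [mem_cellR_iff hy0]
          refine ⟨?_, ?_, ?_⟩ <;> linarith
    · right
      constructor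
      · simp only [hsec, if_neg (not_le.2 h), if_neg (not_le.2 h')]
      · ext y
        simp only [mem_ofPred_eq, mem_empty_iff_false, iff_false]
        intro hy
        have hy0 : 0 < y := hy.1
        obtain ⟨g1, g2, g3⟩ := (mem_cellR_iff hy0).1 hy
        have hq : 2 * √3 * xb ≤ 2 * √3 * |x| := by
          apply mul_le_mul_of_nonneg_left h'.le; positivity
        linarith

theorem volume_cell : (volume cell : ℝ≥0∞) = ENNReal.ofReal (2 * Real.pi / 3) := by
  obtain ⟨hint, hval⟩ := integral_hsec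
  have h1 : (UpperHalfPlane.coe '' cell : Set ℂ) =
      Complex.measurableEquivRealProd ⁻¹' cellR := by
    ext z
    constructor
    · rintro ⟨w, hw, rfl⟩
      exact (cell_iff w).1 hw
    · intro hz
      have him : 0 < z.im := hz.1
      refine ⟨⟨z, him⟩, ?_, rfl⟩
      rw [cell_iff]
      exact hz
  rw [volume_eq_lintegral, h1]
  have h2 : ∀ z : ℂ, (((1 / ‖z.im‖₊) ^ 2 : NNReal) : ℝ≥0∞) =
      (fun u : ℝ × ℝ => ENNReal.ofReal (1 / u.2 ^ 2)) (Complex.measurableEquivRealProd z) := by
    intro z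
    simp only [Complex.measurableEquivRealProd_apply]
    rw [ENNReal.ofReal, ENNReal.coe_inj]
    ext
    rw [Real.coe_toNNReal _ (by positivity)]
    simp
  simp_rw [h2]
  have h7 := (Complex.volume_preserving_equiv_real_prod).setLIntegral_comp_preimage_emb
    (MeasurableEquiv.measurableEmbedding _) (fun u : ℝ × ℝ => ENNReal.ofReal (1 / u.2 ^ 2)) cellR
  rw [h7]
  rw [← lintegral_indicator measurableSet_cellR, Measure.volume_eq_prod, lintegral_prod]
  · have h3 : ∀ x : ℝ, ∫⁻ y, cellR.indicator (fun u : ℝ × ℝ => ENNReal.ofReal (1 / u.2 ^ 2)) (x, y)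
        = ENNReal.ofReal (hsec |x|) := by
      intro x
      have h4 : ∀ y : ℝ, cellR.indicator (fun u : ℝ × ℝ => ENNReal.ofReal (1 / u.2 ^ 2)) (x, y)
          = ({y : ℝ | (x, y) ∈ cellR}).indicator (fun y => ENNReal.ofReal (1 / y ^ 2)) y := by
        intro y
        by_cases hy : (x, y) ∈ cellR
        · rw [indicator_of_mem hy, indicator_of_mem (show y ∈ {y : ℝ | (x, y) ∈ cellR} from hy)]
        · rw [indicator_of_notMem hy,
            indicator_of_notMem (show y ∉ {y : ℝ | (x, y) ∈ cellR} from hy)]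
      simp_rw [h4]
      rcases section_eq x with ⟨a, b, ha, hab, hv, hs⟩ | ⟨hv, hs⟩
      · rw [hs, lintegral_indicator measurableSet_Ioo, lintegral_inv_sq ha hab, hv]
      · rw [hs, hv]
        simp
    simp_rw [h3]
    have h5 : ∀ t : ℝ, 0 ≤ t → 0 ≤ hsec t := by
      intro t ht
      rcases section_eq t with ⟨a, b, ha, hab, hv, hs⟩ | ⟨hv, hs⟩
      · rw [abs_of_nonneg ht] at hv
        rw [hv]
        have := one_div_le_one_div_of_le ha hab
        linarith
      · rw [abs_of_nonneg ht] at hv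
        rw [hv]
    have h6 : Integrable (fun x : ℝ => hsec |x|) volume := by
      have hf : IntegrableOn (fun x => hsec |x|) (Ioi 0) volume := by
        refine hint.congr_fun ?_ measurableSet_Ioi
        intro t ht
        simp only [abs_of_pos (show (0 : ℝ) < t from ht)]
      have int_Iic : IntegrableOn (fun x ↦ hsec |x|) (Iic 0) := by
        rw [← Measure.map_neg_eq_self (volume : Measure ℝ)]
        let m : MeasurableEmbedding fun x : ℝ => -x := (Homeomorph.neg ℝ).measurableEmbedding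
        rw [m.integrableOn_map_iff]
        simp_rw [Function.comp_def, abs_neg, neg_preimage, neg_Iic, neg_zero]
        exact Iff.mpr integrableOn_Ici_iff_integrableOn_Ioi hf
      rw [← integrableOn_univ, ← Iic_union_Ioi (a := (0 : ℝ))]
      exact int_Iic.union hf
    rw [← ofReal_integral_eq_lintegral_ofReal h6]
    · congr 1
      rw [integral_comp_abs, hval]
      ring
    · filter_upwards with x
      exact h5 _ (abs_nonneg x)
  · refine (Measurable.indicator ?_ measurableSet_cellR).aemeasurable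
    exact ENNReal.measurable_ofReal.comp (by fun_prop)

end

end Pool.Agent.Lib.MP_d28b99_gt
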