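import Pool.Agent.Lib.MP_d28b99_gt.Congr

/-!
# Short vectors in the lattices `O g`
-/

set_option autoImplicit false

open UpperHalfPlane Set Topology MeasureTheory
open scoped MatrixGroups ENNReal

namespace Pool.Agent.Lib.MP_d28b99_gt

noncomputable section

/-- the matrix of `v ↦ entries of qmat v * g` -/
def Tmat (a b c d s : ℝ) : Matrix (Fin 4) (Fin 4) ℝ :=
  !![a, s*a, -c, -(s*c); b, s*b, -d, -(s*d); c, -(s*c), a, -(s*a); d, -(s*d), b, -(s*b)]

lemma det_Tmat (a b c d s : ℝ) : (Tmat a b c d s).det = -4 * s^2 * (a*d-b*c)^2 := by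
  rw [Tmat, Matrix.det_succ_row_zero]
  simp [Fin.sum_univ_succ, Matrix.det_fin_three, Matrix.submatrix_apply, Fin.succAbove]
  ring

lemma exists_short (g : SL(2, ℝ)) : ∃ x y z w : ℤ, ¬ (x = 0 ∧ y = 0 ∧ z = 0 ∧ w = 0) ∧
    ∀ i j, |(qmat x y z w * (g : Matrix (Fin 2) (Fin 2) ℝ)) i j| ≤ 2 := by
  have hdet : g 0 0 * g 1 1 - g 0 1 * g 1 0 = 1 := by
    have := g.2
    rw [Matrix.det_fin_two] at this
    exact this
  set T := Tmat (g 0 0) (g 0 1) (g 1 0) (g 1 1) (√3) with hT
  have hTdet : LinearMap.det (Matrix.toLin' T) = -12 := by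
    rw [LinearMap.det_toLin', hT, det_Tmat, hdet, Real.sq_sqrt (by norm_num)]
    norm_num
  set box : Set (Fin 4 → ℝ) := Set.pi univ fun _ => Icc (-2 : ℝ) 2 with hbox
  set s : Set (Fin 4 → ℝ) := Matrix.toLin' T ⁻¹' box with hs
  have hvol : volume s = ENNReal.ofReal (256 / 12) := by
    rw [hs, Measure.addHaar_preimage_linearMap _ (by rw [hTdet]; norm_num), hTdet, hbox,
      volume_pi, Measure.pi_pi]
    simp only [Real.volume_Icc, Finset.prod_const, Finset.card_univ, Fintype.card_fin]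
    rw [← ENNReal.ofReal_pow (by norm_num), ← ENNReal.ofReal_mul (by positivity)]
    congr 1
    norm_num [abs_of_neg]
  let L : AddSubgroup (Fin 4 → ℝ) :=
    (Submodule.span ℤ (Set.range (Pi.basisFun ℝ (Fin 4)))).toAddSubgroup
  have hfund : IsAddFundamentalDomain L (ZSpan.fundamentalDomain (Pi.basisFun ℝ (Fin 4)))
      (volume : Measure (Fin 4 → ℝ)) := ZSpan.isAddFundamentalDomain' _ _
  have hL : Countable L := inferInstanceAs (Countable (Submodule.span ℤ _))
  have hconv : Convex ℝ s := by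
    apply Convex.linear_preimage
    exact convex_pi fun _ _ => convex_Icc _ _
  have hsymm : ∀ x ∈ s, -x ∈ s := by
    intro x hx
    rw [hs, mem_preimage, map_neg, hbox] at *
    intro i hi
    have := hx i hi
    simp only [mem_Icc, Pi.neg_apply] at this ⊢
    constructor <;> linarith [this.1, this.2]
  have hlt : volume (ZSpan.fundamentalDomain (Pi.basisFun ℝ (Fin 4))) *
      2 ^ Module.finrank ℝ (Fin 4 → ℝ) < volume s := by
    rw [hvol, ZSpan.fundamentalDomain_pi_basisFun, volume_pi, Measure.pi_pi]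
    simp only [Real.volume_Ico, sub_zero, ENNReal.ofReal_one, Finset.prod_const_one, one_mul,
      Module.finrank_fin_fun]
    rw [show (2 : ℝ≥0∞) ^ 4 = ENNReal.ofReal 16 by
      rw [show (16 : ℝ) = 2 ^ 4 by norm_num, ENNReal.ofReal_pow (by norm_num)]; simp]
    rw [ENNReal.ofReal_lt_ofReal_iff (by norm_num)]
    norm_num
  obtain ⟨v, hv0, hv⟩ := exists_ne_zero_mem_lattice_of_measure_mul_two_pow_lt_measure hfund
    hsymm hconv hlt
  obtain ⟨c, hc⟩ := (Submodule.mem_span_range_iff_exists_fun ℤ).1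
    (show (v : Fin 4 → ℝ) ∈ Submodule.span ℤ (Set.range (Pi.basisFun ℝ (Fin 4))) from v.2)
  have hvc : ∀ i, (v : Fin 4 → ℝ) i = c i := by
    intro i
    rw [← hc, Finset.sum_apply]
    simp [Pi.single_apply]
  refine ⟨c 0, c 1, c 2, c 3, ?_, ?_⟩
  · rintro ⟨h0, h1, h2, h3⟩
    apply hv0
    ext i
    rw [hvc]
    fin_cases i <;> simp [h0, h1, h2, h3]
  · have hmem : ∀ i, |(T.mulVec (v : Fin 4 → ℝ)) i| ≤ 2 := by
      intro i
      have := hv i (mem_univ i)
      rw [mem_Icc, Matrix.toLin'_apply] at this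
      rw [abs_le]
      exact this
    have e0 := hmem 0
    have e1 := hmem 1
    have e2 := hmem 2
    have e3 := hmem 3
    simp [Matrix.mulVec, dotProduct, Fin.sum_univ_four, hT, Tmat, hvc] at e0 e1 e2 e3
    intro i j
    fin_cases i <;> fin_cases j <;> simp [qmat, Matrix.mul_apply, Fin.sum_univ_two]
    · convert e0 using 2; ring
    · convert e1 using 2; ring
    · convert e2 using 2; ring
    · convert e3 using 2; ring

end

end Pool.Agent.Lib.MP_d28b99_gt
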