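import Pool.Agent.Lib.MP_d28b99_gt.Arith
import Pool.Agent.Lib.MP_d28b99_gt.Minkowski

/-!
# Cocompactness of the congruence groups
-/

set_option autoImplicit false

open UpperHalfPlane Set Topology
open scoped MatrixGroups

namespace Pool.Agent.Lib.MP_d28b99_gt

noncomputable section

/-- matrix of an integral quaternion -/
def QQ (b : Fin 4 → ℤ) : Matrix (Fin 2) (Fin 2) ℝ := qmat (b 0) (b 1) (b 2) (b 3)

/-- conjugate -/
def cj (b : Fin 4 → ℤ) : Fin 4 → ℤ := ![b 0, -b 1, -b 2, -b 3]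

/-- reduced norm -/
def nrm (b : Fin 4 → ℤ) : ℤ := b 0 ^ 2 + b 2 ^ 2 - 3 * (b 1 ^ 2 + b 3 ^ 2)

/-- product -/
def mq (b c : Fin 4 → ℤ) : Fin 4 → ℤ :=
  ![b 0 * c 0 + 3 * b 1 * c 1 - b 2 * c 2 + 3 * b 3 * c 3,
    b 0 * c 1 + b 1 * c 0 + b 2 * c 3 - b 3 * c 2,
    b 0 * c 2 + b 2 * c 0 + 3 * b 1 * c 3 - 3 * b 3 * c 1,
    b 0 * c 3 + b 3 * c 0 + b 1 * c 2 - b 2 * c 1]

lemma QQ_mul (b c : Fin 4 → ℤ) : QQ b * QQ c = QQ (mq b c) := by
  rw [QQ, QQ, qmat_mul, QQ]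
  simp only [mq, Matrix.cons_val_zero, Matrix.cons_val_one, Matrix.cons_val]
  push_cast
  rfl

lemma det_QQ (b : Fin 4 → ℤ) : (QQ b).det = (nrm b : ℝ) := by
  rw [QQ, det_qmat, nrm]
  push_cast
  ring

lemma QQ_cj (b : Fin 4 → ℤ) : QQ b * QQ (cj b) = (nrm b : ℝ) • (1 : Matrix (Fin 2) (Fin 2) ℝ) := by
  have h := sqrt3_sq
  ext i j
  fin_cases i <;> fin_cases j <;>
    simp [QQ, qmat, cj, nrm, Matrix.mul_apply, Fin.sum_univ_two]
  · linear_combination (-(b 1 : ℝ) ^ 2 - (b 3 : ℝ) ^ 2) * h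
  · ring
  · ring
  · linear_combination (-(b 1 : ℝ) ^ 2 - (b 3 : ℝ) ^ 2) * h

lemma cj_QQ (b : Fin 4 → ℤ) : QQ (cj b) * QQ b = (nrm b : ℝ) • (1 : Matrix (Fin 2) (Fin 2) ℝ) := by
  have h := sqrt3_sq
  ext i j
  fin_cases i <;> fin_cases j <;>
    simp [QQ, qmat, cj, nrm, Matrix.mul_apply, Fin.sum_univ_two]
  · linear_combination (-(b 1 : ℝ) ^ 2 - (b 3 : ℝ) ^ 2) * h
  · ring
  · ring
  · linear_combination (-(b 1 : ℝ) ^ 2 - (b 3 : ℝ) ^ 2) * h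

lemma nrm_cj (b : Fin 4 → ℤ) : nrm (cj b) = nrm b := by
  simp [nrm, cj]

lemma nrm_ne_zero {b : Fin 4 → ℤ} (h : ¬ (b 0 = 0 ∧ b 1 = 0 ∧ b 2 = 0 ∧ b 3 = 0)) :
    nrm b ≠ 0 := by
  intro h0
  apply h
  obtain ⟨h1, h2, h3, h4⟩ := anisotropic (b 0) (b 2) (b 1) (b 3) (by
    rw [nrm] at h0; linarith)
  exact ⟨h1, h3, h2, h4⟩

/-- Two elements of the same norm `n` which are congruent modulo `N n` are equivalent. -/
lemma exists_unit {N : ℕ} {b b' t : Fin 4 → ℤ} {n : ℤ} (hn : n ≠ 0) (hb : nrm b = n)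
    (hb' : nrm b' = n) (ht : ∀ i, b i = b' i + N * n * t i) :
    ∃ u ∈ congr N, (u : Matrix (Fin 2) (Fin 2) ℝ) * QQ b' = QQ b := by
  have hn' : (n : ℝ) ≠ 0 := by exact_mod_cast hn
  set p := mq t (cj b') with hp
  set U : Matrix (Fin 2) (Fin 2) ℝ :=
    qmat (1 + N * p 0 : ℤ) (N * p 1 : ℤ) (N * p 2 : ℤ) (N * p 3 : ℤ) with hU
  have hU1 : U = 1 + (N : ℝ) • (QQ t * QQ (cj b')) := by
    rw [QQ_mul, ← hp, hU]
    ext i j
    fin_cases i <;> fin_cases j <;> simp [qmat, QQ] <;> ring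
  have hb1 : QQ b = QQ b' + ((N : ℝ) * n) • QQ t := by
    ext i j
    fin_cases i <;> fin_cases j <;> simp [qmat, QQ, ht] <;> ring
  have hnU : (n : ℝ) • U = QQ b * QQ (cj b') := by
    rw [hb1, add_mul, QQ_cj, hb', hU1, smul_add, smul_smul, Matrix.smul_mul, mul_comm (n : ℝ)]
  have hUb : U * QQ b' = QQ b := by
    have h1 : (n : ℝ) • (U * QQ b') = (n : ℝ) • QQ b := by
      rw [← Matrix.smul_mul, hnU, mul_assoc, cj_QQ, hb', Matrix.mul_smul, mul_one]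
    exact smul_right_injective _ hn' h1
  have hdet : U.det = 1 := by
    have h1 := congrArg Matrix.det hUb
    rw [Matrix.det_mul, det_QQ, det_QQ, hb, hb'] at h1
    exact mul_right_cancel₀ hn' (by rw [h1, one_mul])
  exact ⟨⟨U, hdet⟩, ⟨p 0, p 1, p 2, p 3, rfl⟩, hUb⟩

lemma dvd_840 {n : ℤ} (h0 : n ≠ 0) (h : |n| ≤ 8) : n ∣ 840 := by
  obtain ⟨h4, h5⟩ := abs_le.1 h
  interval_cases n <;> first | exact absurd rfl h0 | decide

/-- Every element of `SL(2, ℝ)` can be moved by the congruence group to one with bounded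
entries. -/
theorem exists_bound (N : ℕ) (hN : 0 < N) : ∃ B : ℝ, 0 ≤ B ∧ ∀ g : SL(2, ℝ), ∃ u ∈ congr N,
    ∀ i j, |((u⁻¹ * g : SL(2, ℝ)) : Matrix (Fin 2) (Fin 2) ℝ) i j| ≤ B := by
  classical
  let m : ℕ := N * 840
  have hm : NeZero m := ⟨by positivity⟩
  let κ := (Finset.Icc (-8 : ℤ) 8) × (Fin 4 → ZMod m)
  let rep : κ → (Fin 4 → ℤ) := fun k =>
    if h : ∃ b : Fin 4 → ℤ, nrm b = k.1 ∧ ∀ i, ((b i : ℤ) : ZMod m) = k.2 i then h.choose else 0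
  obtain ⟨C, hC⟩ : ∃ C : ℝ, ∀ q : κ × Fin 2 × Fin 2, |QQ (rep q.1) q.2.1 q.2.2| ≤ C := by
    have : (Set.range fun q : κ × Fin 2 × Fin 2 => |QQ (rep q.1) q.2.1 q.2.2|).Finite :=
      Set.finite_range _
    obtain ⟨C, hC⟩ := this.bddAbove
    exact ⟨C, fun q => hC ⟨q, rfl⟩⟩
  have hC0 : 0 ≤ C := (abs_nonneg _).trans
    (hC ((⟨0, by simp⟩, fun _ => 0), 0, 0))
  refine ⟨4 * C, by positivity, fun g => ?_⟩
  obtain ⟨x, y, z, w, hne, hshort⟩ := exists_short g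
  set v : Fin 4 → ℤ := ![x, y, z, w] with hv
  have hQv : QQ v = qmat x y z w := by simp [QQ, hv]
  rw [← hQv] at hshort
  set c := QQ v * (g : Matrix (Fin 2) (Fin 2) ℝ) with hc
  set n := nrm v with hn
  have hn0 : n ≠ 0 := nrm_ne_zero (by simpa [hv] using hne)
  have hn0' : (n : ℝ) ≠ 0 := by exact_mod_cast hn0
  have hn8 : |n| ≤ 8 := by
    have h1 : c.det = (n : ℝ) := by
      rw [hc, Matrix.det_mul, det_QQ, g.2, mul_one]
    rw [Matrix.det_fin_two] at h1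
    have h2 : |(n : ℝ)| ≤ 8 := by
      rw [← h1]
      calc |c 0 0 * c 1 1 - c 0 1 * c 1 0| ≤ |c 0 0 * c 1 1| + |c 0 1 * c 1 0| := abs_sub _ _
        _ = |c 0 0| * |c 1 1| + |c 0 1| * |c 1 0| := by rw [abs_mul, abs_mul]
        _ ≤ 2 * 2 + 2 * 2 := by
          gcongr <;> exact hshort _ _
        _ = 8 := by norm_num
    exact_mod_cast h2
  set b := cj v with hb
  have hbn : nrm b = n := by rw [hb, nrm_cj]
  let k : κ := (⟨n, by rw [Finset.mem_Icc]; exact abs_le.1 hn8⟩, fun i => ((b i : ℤ) : ZMod m))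
  have hex : ∃ b : Fin 4 → ℤ, nrm b = k.1 ∧ ∀ i, ((b i : ℤ) : ZMod m) = k.2 i :=
    ⟨b, hbn, fun i => rfl⟩
  have hrep : rep k = hex.choose := by
    simp only [rep]
    rw [dif_pos hex]
  have hrep1 : nrm (rep k) = n := by rw [hrep]; exact hex.choose_spec.1
  have hrep2 : ∀ i, ((rep k i : ℤ) : ZMod m) = ((b i : ℤ) : ZMod m) := by
    rw [hrep]; exact hex.choose_spec.2
  have hdvd : ∀ i, ∃ t : ℤ, b i = rep k i + N * n * t := by
    intro i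
    have h1 : (m : ℤ) ∣ b i - rep k i := (ZMod.intCast_eq_intCast_iff_dvd_sub _ _ _).1 (hrep2 i)
    have h2 : n ∣ 840 := dvd_840 hn0 hn8
    have h3 : (N : ℤ) * n ∣ b i - rep k i := by
      refine dvd_trans ?_ h1
      push_cast [m]
      exact mul_dvd_mul_left _ h2
    obtain ⟨t, ht⟩ := h3
    exact ⟨t, by linarith⟩
  choose t ht using hdvd
  obtain ⟨u, hu, huQ⟩ := exists_unit hn0 hbn hrep1 ht
  refine ⟨u, hu, ?_⟩
  -- `g = u * h`
  set h := (n : ℝ)⁻¹ • (QQ (rep k) * c) with hh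
  have hg : (g : Matrix (Fin 2) (Fin 2) ℝ) = (u : Matrix (Fin 2) (Fin 2) ℝ) * h := by
    rw [hh, Matrix.mul_smul, ← mul_assoc, huQ, hc, ← mul_assoc, hb, cj_QQ, Matrix.smul_mul,
      one_mul, smul_smul, inv_mul_cancel₀ hn0', one_smul]
  have huh : ((u⁻¹ * g : SL(2, ℝ)) : Matrix (Fin 2) (Fin 2) ℝ) = h := by
    rw [Matrix.SpecialLinearGroup.coe_mul, hg, ← mul_assoc, ← Matrix.SpecialLinearGroup.coe_mul,
      inv_mul_cancel, Matrix.SpecialLinearGroup.coe_one, one_mul]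
  intro i j
  rw [huh, hh, Matrix.smul_apply, Matrix.mul_apply, Fin.sum_univ_two, smul_eq_mul, abs_mul]
  have e1 : |(n : ℝ)⁻¹| ≤ 1 := by
    rw [abs_inv]
    apply inv_le_one_of_one_le₀
    exact_mod_cast Int.one_le_abs hn0
  have e2 : |QQ (rep k) i 0 * c 0 j + QQ (rep k) i 1 * c 1 j| ≤ 4 * C := by
    calc _ ≤ |QQ (rep k) i 0 * c 0 j| + |QQ (rep k) i 1 * c 1 j| := abs_add_le _ _
      _ = |QQ (rep k) i 0| * |c 0 j| + |QQ (rep k) i 1| * |c 1 j| := by rw [abs_mul, abs_mul]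
      _ ≤ C * 2 + C * 2 := by
        gcongr
        · exact hC (k, i, 0)
        · exact hshort _ _
        · exact hC (k, i, 1)
        · exact hshort _ _
      _ = 4 * C := by ring
  calc _ ≤ 1 * (4 * C) := mul_le_mul e1 e2 (abs_nonneg _) zero_le_one
    _ = 4 * C := one_mul _

lemma le_two_cosh (x : ℝ) : x ≤ 2 * Real.cosh x := by
  rw [Real.cosh_eq]
  have h1 := Real.add_one_le_exp x
  have h2 := Real.exp_pos (-x)
  linarith

/-- The congruence groups are cocompact. -/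
theorem congr_compact (N : ℕ) (hN : 3 ≤ N) :
    CompactSpace (MulAction.orbitRel.Quotient (congr N) ℍ) := by
  obtain ⟨B, hB0, hB⟩ := exists_bound N (by omega)
  have hcomp : IsCompact (Metric.closedBall (I : ℍ) (8 * B ^ 2)) := isCompact_closedBall _ _
  have himg := hcomp.image (continuous_quotient_mk' (s := MulAction.orbitRel (congr N) ℍ))
  refine ⟨?_⟩
  convert himg
  symm
  rw [eq_univ_iff_forall]
  intro q
  induction q using Quotient.inductionOn with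
  | _ z =>
  obtain ⟨u, hu, hub⟩ := hB z.toSL2R
  refine ⟨u⁻¹ • z, ?_, ?_⟩
  · rw [Metric.mem_closedBall, dist_comm]
    have h1 : u⁻¹ • z = (u⁻¹ * z.toSL2R) • (I : ℍ) := by
      rw [mul_smul, toSL2R_smul_I]
    set h := u⁻¹ * z.toSL2R with hh
    rw [h1]
    refine (le_two_cosh _).trans ?_
    rw [cosh_dist_smul]
    have e0 := abs_le.1 (hub 0 0)
    have e1 := abs_le.1 (hub 0 1)
    have e2 := abs_le.1 (hub 1 0)
    have e3 := abs_le.1 (hub 1 1)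
    rw [I_re, I_im]
    have h2 : (h 1 0 * 0 ^ 2 + (h 1 1 - h 0 0) * 0 - h 0 1 + h 1 0 * 1 ^ 2) ^ 2 ≤ (2 * B) ^ 2 := by
      apply sq_le_sq'
      · nlinarith [e1.1, e1.2, e2.1, e2.2]
      · nlinarith [e1.1, e1.2, e2.1, e2.2]
    have h3 : (h 0 0 + h 1 1) ^ 2 ≤ (2 * B) ^ 2 := by
      apply sq_le_sq'
      · linarith [e0.1, e3.1]
      · linarith [e0.2, e3.2]
    nlinarith
  · apply Quotient.sound
    change u⁻¹ • z ∈ MulAction.orbit (congr N) z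
    exact ⟨⟨u⁻¹, (congr N).inv_mem hu⟩, rfl⟩

end

end Pool.Agent.Lib.MP_d28b99_gt
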