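import Mathlib

/-!
# The congruence groups

`qmat x y z w` is the matrix of the quaternion `x + y i + z j + w k` with `i^2 = 3`, `j^2 = -1`.
-/

set_option autoImplicit false

open UpperHalfPlane Set Topology
open scoped MatrixGroups

namespace Pool.Agent.Lib.MP_d28b99_gt

noncomputable section

/-- the matrix of the quaternion `x + y i + z j + w k`, `i^2 = 3`, `j^2 = -1` -/
def qmat (x y z w : ℝ) : Matrix (Fin 2) (Fin 2) ℝ :=
  !![x + y * √3, -(z + w * √3); z - w * √3, x - y * √3]

lemma sqrt3_sq : √3 * √3 = 3 := Real.mul_self_sqrt (by norm_num)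

lemma qmat_mul (x y z w x' y' z' w' : ℝ) :
    qmat x y z w * qmat x' y' z' w' =
      qmat (x * x' + 3 * y * y' - z * z' + 3 * w * w')
        (x * y' + y * x' + z * w' - w * z')
        (x * z' + z * x' + 3 * y * w' - 3 * w * y')
        (x * w' + w * x' + y * z' - z * y') := by
  have h := sqrt3_sq
  ext i j
  fin_cases i <;> fin_cases j <;>
    simp [qmat, Matrix.mul_apply, Fin.sum_univ_two]
  · linear_combination (y * y' + w * w') * h
  · linear_combination (w * y' - y * w') * h
  · linear_combination (y * w' - w * y') * h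
  · linear_combination (y * y' + w * w') * h

lemma det_qmat (x y z w : ℝ) :
    (qmat x y z w).det = x ^ 2 + z ^ 2 - 3 * (y ^ 2 + w ^ 2) := by
  have h := sqrt3_sq
  rw [qmat, Matrix.det_fin_two_of]
  linear_combination (- y ^ 2 - w ^ 2) * h

lemma qmat_one : qmat 1 0 0 0 = 1 := by
  ext i j
  fin_cases i <;> fin_cases j <;> simp [qmat]

/-- principal congruence subgroup of level `N` of the unit group of the order -/
def congr (N : ℕ) : Subgroup SL(2, ℝ) where
  carrier := {g | ∃ x y z w : ℤ, (g : Matrix (Fin 2) (Fin 2) ℝ) =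
    qmat (1 + N * x : ℤ) (N * y : ℤ) (N * z : ℤ) (N * w : ℤ)}
  one_mem' := by
    refine ⟨0, 0, 0, 0, ?_⟩
    simp [qmat_one]
  mul_mem' := by
    rintro g g' ⟨x, y, z, w, h⟩ ⟨x', y', z', w', h'⟩
    refine ⟨x + x' + N * (x * x' + 3 * y * y' - z * z' + 3 * w * w'),
      y + y' + N * (x * y' + y * x' + z * w' - w * z'),
      z + z' + N * (x * z' + z * x' + 3 * y * w' - 3 * w * y'),
      w + w' + N * (x * w' + w * x' + y * z' - z * y'), ?_⟩
    rw [Matrix.SpecialLinearGroup.coe_mul, h, h', qmat_mul]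
    congr 1 <;> push_cast <;> ring
  inv_mem' := by
    rintro g ⟨x, y, z, w, h⟩
    refine ⟨x, -y, -z, -w, ?_⟩
    rw [Matrix.SpecialLinearGroup.coe_inv, h, qmat, Matrix.adjugate_fin_two_of, qmat]
    ext i j
    fin_cases i <;> fin_cases j <;> simp <;> ring

lemma mem_congr {N : ℕ} {g : SL(2, ℝ)} : g ∈ congr N ↔
    ∃ x y z w : ℤ, (g : Matrix (Fin 2) (Fin 2) ℝ) =
      qmat (1 + N * x : ℤ) (N * y : ℤ) (N * z : ℤ) (N * w : ℤ) := Iff.rfl

end

end Pool.Agent.Lib.MP_d28b99_gt
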