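import Pool.Agent.Lib.MP_d28b99_gt.Congr

/-!
# Hyperboloid coordinates and the integer points

`z` in the upper half plane corresponds to the trace zero quaternion `p i + q j + r k`,
`q^2 - 3 p^2 - 3 r^2 = 1`, `q > 0`.
-/

set_option autoImplicit false

open UpperHalfPlane Set Topology
open scoped MatrixGroups

namespace Pool.Agent.Lib.MP_d28b99_gt

noncomputable section

/-- `p` coordinate -/
def pc (z : ℍ) : ℝ := z.re / (√3 * z.im)
/-- `q` coordinate -/
def qc (z : ℍ) : ℝ := (z.re ^ 2 + z.im ^ 2 + 1) / (2 * z.im)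
/-- `r` coordinate -/
def rc (z : ℍ) : ℝ := (z.re ^ 2 + z.im ^ 2 - 1) / (2 * √3 * z.im)

lemma sqrt3_pos : 0 < √3 := Real.sqrt_pos.2 (by norm_num)
lemma sqrt3_ne : √3 ≠ 0 := sqrt3_pos.ne'

lemma coord_A (z : ℍ) : qc z - √3 * rc z = 1 / z.im := by
  have := z.im_pos
  have h3 := sqrt3_pos
  unfold qc rc
  field_simp
  ring

lemma coord_B (z : ℍ) : √3 * pc z = z.re / z.im := by
  have := z.im_pos
  have h3 := sqrt3_pos
  unfold pc
  field_simp

lemma coord_C (z : ℍ) : qc z + √3 * rc z = (z.re ^ 2 + z.im ^ 2) / z.im := by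
  have := z.im_pos
  have h3 := sqrt3_pos
  unfold qc rc
  field_simp
  ring

lemma qc_pos (z : ℍ) : 0 < qc z := by
  have := z.im_pos
  unfold qc
  positivity

lemma coord_eq (z : ℍ) : qc z ^ 2 = 1 + 3 * pc z ^ 2 + 3 * rc z ^ 2 := by
  have := z.im_pos
  have h3 := sqrt3_pos
  have h33 := sqrt3_sq
  have hA := coord_A z
  have hB := coord_B z
  have hC := coord_C z
  have h1 : (qc z - √3 * rc z) * (qc z + √3 * rc z) = 1 + (√3 * pc z) ^ 2 := by
    rw [hA, hB, hC]
    field_simp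
    ring
  have h2 : √3 ^ 2 = 3 := by rw [sq]; exact h33
  linear_combination h1 + (pc z ^ 2 + rc z ^ 2) * h2

lemma coord_ext {z w : ℍ} (hp : pc z = pc w) (hq : qc z = qc w) (hr : rc z = rc w) : z = w := by
  have him : z.im = w.im := by
    have h1 := coord_A z
    have h2 := coord_A w
    rw [hq, hr, h2] at h1
    have hz := z.im_pos
    have hw := w.im_pos
    field_simp at h1
    exact h1.symm ▸ rfl
  have hre : z.re = w.re := by
    have h1 := coord_B z
    have h2 := coord_B w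
    rw [hp, h2, him] at h1
    have hw := w.im_pos
    field_simp at h1
    exact h1.symm
  exact UpperHalfPlane.ext_re_im hre him

lemma cosh_dist_eq (z w : ℍ) :
    Real.cosh (dist z w) = qc z * qc w - 3 * (pc z * pc w) - 3 * (rc z * rc w) := by
  have hz := z.im_pos
  have hw := w.im_pos
  have h3 := sqrt3_pos
  have h33 : √3 ^ 2 = 3 := by rw [sq]; exact sqrt3_sq
  rw [UpperHalfPlane.cosh_dist]
  have hd : dist (z : ℂ) (w : ℂ) ^ 2 = (z.re - w.re) ^ 2 + (z.im - w.im) ^ 2 := by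
    rw [Complex.dist_eq_re_im, Real.sq_sqrt (by positivity)]
    simp
  rw [hd]
  unfold pc qc rc
  field_simp
  ring_nf
  rw [h33]
  ring

/-- the two real equations satisfied by `g • z` -/
lemma smul_eqs (g : SL(2, ℝ)) (z : ℍ) :
    (g • z).re * (g 1 0 * z.re + g 1 1) - (g • z).im * (g 1 0 * z.im) = g 0 0 * z.re + g 0 1 ∧
    (g • z).re * (g 1 0 * z.im) + (g • z).im * (g 1 0 * z.re + g 1 1) = g 0 0 * z.im := by
  have h := coe_specialLinearGroup_apply g z
  have hne : (((g 1 0 : ℝ) : ℂ) * z + ((g 1 1 : ℝ) : ℂ)) ≠ 0 := by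
    refine UpperHalfPlane.linear_ne_zero (cd := g.1 1) z ?_
    intro h0
    have hdet := g.det_coe
    rw [Matrix.det_fin_two] at hdet
    have h1 : (g : Matrix (Fin 2) (Fin 2) ℝ) 1 0 = 0 := congrFun h0 0
    have h2 : (g : Matrix (Fin 2) (Fin 2) ℝ) 1 1 = 0 := congrFun h0 1
    rw [h1, h2] at hdet
    simp at hdet
  simp only [Algebra.algebraMap_self, RingHom.id_apply] at h
  rw [eq_div_iff hne] at h
  have hre := congrArg Complex.re h
  have him := congrArg Complex.im h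
  simp at hre him
  constructor
  · linear_combination hre
  · linear_combination him

lemma sl_det (g : SL(2, ℝ)) : g 0 0 * g 1 1 - g 0 1 * g 1 0 = 1 := by
  have hdet := g.det_coe
  rw [Matrix.det_fin_two] at hdet
  exact hdet

lemma smul_im_mul (g : SL(2, ℝ)) (z : ℍ) :
    (g • z).im * ((g 1 0 * z.re + g 1 1) ^ 2 + (g 1 0 * z.im) ^ 2) = z.im := by
  obtain ⟨h1, h2⟩ := smul_eqs g z
  have hd := sl_det g
  linear_combination (-(g 1 0 * z.im)) * h1 + (g 1 0 * z.re + g 1 1) * h2 + z.im * hd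

lemma smul_re_mul (g : SL(2, ℝ)) (z : ℍ) :
    (g • z).re * ((g 1 0 * z.re + g 1 1) ^ 2 + (g 1 0 * z.im) ^ 2) =
      (g 0 0 * z.re + g 0 1) * (g 1 0 * z.re + g 1 1) + g 0 0 * g 1 0 * z.im ^ 2 := by
  obtain ⟨h1, h2⟩ := smul_eqs g z
  linear_combination (g 1 0 * z.re + g 1 1) * h1 + (g 1 0 * z.im) * h2

lemma act_A (g : SL(2, ℝ)) (z : ℍ) :
    qc (g • z) - √3 * rc (g • z) = g 1 0 ^ 2 * (qc z + √3 * rc z)
      + 2 * (g 1 0 * g 1 1) * (√3 * pc z) + g 1 1 ^ 2 * (qc z - √3 * rc z) := by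
  rw [coord_A, coord_A, coord_B, coord_C]
  have hz := z.im_pos
  have hg := (g • z).im_pos
  have h := smul_im_mul g z
  field_simp
  linear_combination -h

lemma act_B (g : SL(2, ℝ)) (z : ℍ) :
    √3 * pc (g • z) = g 0 0 * g 1 0 * (qc z + √3 * rc z)
      + (g 0 0 * g 1 1 + g 0 1 * g 1 0) * (√3 * pc z) + g 0 1 * g 1 1 * (qc z - √3 * rc z) := by
  rw [coord_A, coord_B, coord_B, coord_C]
  have hz := z.im_pos
  have hg := (g • z).im_pos
  have h := smul_im_mul g z
  have h' := smul_re_mul g z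
  have hne : ((g 1 0 * z.re + g 1 1) ^ 2 + (g 1 0 * z.im) ^ 2) ≠ 0 := by
    intro h0
    rw [h0, mul_zero] at h
    exact hz.ne h
  rw [← mul_div_mul_right (g • z).re (g • z).im hne, h, h']
  field_simp
  ring

lemma act_C (g : SL(2, ℝ)) (z : ℍ) :
    qc (g • z) + √3 * rc (g • z) = g 0 0 ^ 2 * (qc z + √3 * rc z)
      + 2 * (g 0 0 * g 0 1) * (√3 * pc z) + g 0 1 ^ 2 * (qc z - √3 * rc z) := by
  rw [coord_A, coord_B, coord_C, coord_C]
  have hz := z.im_pos
  have hg := (g • z).im_pos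
  have h := smul_im_mul g z
  have h' := smul_re_mul g z
  have hd := sl_det g
  have hne : ((g 1 0 * z.re + g 1 1) ^ 2 + (g 1 0 * z.im) ^ 2) ≠ 0 := by
    intro h0
    rw [h0, mul_zero] at h
    exact hz.ne h
  -- |gz|^2 = |az+b|^2/|cz+d|^2
  have e3 : ((g • z).re ^ 2 + (g • z).im ^ 2) * ((g 1 0 * z.re + g 1 1) ^ 2 + (g 1 0 * z.im) ^ 2)
      = (g 0 0 * z.re + g 0 1) ^ 2 + (g 0 0 * z.im) ^ 2 := by
    obtain ⟨h1, h2⟩ := smul_eqs g z
    rw [← h1, ← h2]
    ring
  rw [← mul_div_mul_right ((g • z).re ^ 2 + (g • z).im ^ 2) (g • z).im hne, h, e3]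
  field_simp
  ring

/-- the coordinates of `g • z` for a quaternion `g` of norm one -/
lemma smul_coord {g : SL(2, ℝ)} {X Y Z W : ℝ}
    (hg : (g : Matrix (Fin 2) (Fin 2) ℝ) = qmat X Y Z W) (z : ℍ) :
    (pc (g • z) = -(3 * Y * pc z - Z * qc z + 3 * W * rc z) * Y
        + (X * pc z + Z * rc z - W * qc z) * X
        - (X * qc z + 3 * Y * rc z - 3 * W * pc z) * W
        + (X * rc z + Y * qc z - Z * pc z) * Z) ∧
    (qc (g • z) = -(3 * Y * pc z - Z * qc z + 3 * W * rc z) * Z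
        + (X * qc z + 3 * Y * rc z - 3 * W * pc z) * X
        - 3 * (X * pc z + Z * rc z - W * qc z) * W
        + 3 * (X * rc z + Y * qc z - Z * pc z) * Y) ∧
    (rc (g • z) = -(3 * Y * pc z - Z * qc z + 3 * W * rc z) * W
        + (X * rc z + Y * qc z - Z * pc z) * X
        - (X * pc z + Z * rc z - W * qc z) * Z
        + (X * qc z + 3 * Y * rc z - 3 * W * pc z) * Y) := by
  have e2 : √3 ^ 2 = 3 := by rw [sq]; exact sqrt3_sq
  have e3 : √3 ^ 3 = 3 * √3 := by rw [pow_succ, e2]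
  have h00 : g 0 0 = X + Y * √3 := by
    have := congrFun (congrFun hg 0) 0
    simpa [qmat] using this
  have h01 : g 0 1 = -(Z + W * √3) := by
    have := congrFun (congrFun hg 0) 1
    simpa [qmat] using this
  have h10 : g 1 0 = Z - W * √3 := by
    have := congrFun (congrFun hg 1) 0
    simpa [qmat] using this
  have h11 : g 1 1 = X - Y * √3 := by
    have := congrFun (congrFun hg 1) 1
    simpa [qmat] using this
  have hA := act_A g z
  have hB := act_B g z
  have hC := act_C g z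
  rw [h00, h01, h10, h11] at *
  refine ⟨?_, ?_, ?_⟩
  · have h : √3 * pc (g • z) = √3 * (-(3 * Y * pc z - Z * qc z + 3 * W * rc z) * Y
        + (X * pc z + Z * rc z - W * qc z) * X
        - (X * qc z + 3 * Y * rc z - 3 * W * pc z) * W
        + (X * rc z + Y * qc z - Z * pc z) * Z) := by
      rw [hB]
      ring_nf
      simp only [e3]
      ring
    exact mul_left_cancel₀ sqrt3_ne h
  · have h : qc (g • z) = (qc (g • z) - √3 * rc (g • z) + (qc (g • z) + √3 * rc (g • z))) / 2 := by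
      ring
    rw [h, hA, hC]
    ring_nf
    simp only [e2]
    ring
  · have h : √3 * rc (g • z) = √3 * (-(3 * Y * pc z - Z * qc z + 3 * W * rc z) * W
        + (X * rc z + Y * qc z - Z * pc z) * X
        - (X * pc z + Z * rc z - W * qc z) * Z
        + (X * qc z + 3 * Y * rc z - 3 * W * pc z) * Y) := by
      have h' : √3 * rc (g • z) =
        ((qc (g • z) + √3 * rc (g • z)) - (qc (g • z) - √3 * rc (g • z))) / 2 := by ring
      rw [h', hA, hC]
      ring_nf
      simp only [e3]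
      ring
    exact mul_left_cancel₀ sqrt3_ne h

/-- The integer points. -/
def PP : Set ℍ := {z | ∃ p q r : ℤ, pc z = p ∧ qc z = q ∧ rc z = r}

lemma pc_I : pc I = 0 := by simp [pc]
lemma qc_I : qc I = 1 := by simp [qc]
lemma rc_I : rc I = 0 := by simp [rc]

lemma I_mem_PP : I ∈ PP := ⟨0, 1, 0, by simp [pc_I], by simp [qc_I], by simp [rc_I]⟩

/-- the elements of the unit group of the order preserve the integer points -/
lemma smul_mem_PP_of_qmat {g : SL(2, ℝ)} {X Y Z W : ℤ}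
    (hg : (g : Matrix (Fin 2) (Fin 2) ℝ) = qmat X Y Z W) {z : ℍ} (hz : z ∈ PP) : g • z ∈ PP := by
  obtain ⟨p, q, r, hp, hq, hr⟩ := hz
  obtain ⟨h1, h2, h3⟩ := smul_coord hg z
  rw [hp, hq, hr] at h1 h2 h3
  refine ⟨-(3 * Y * p - Z * q + 3 * W * r) * Y + (X * p + Z * r - W * q) * X
      - (X * q + 3 * Y * r - 3 * W * p) * W + (X * r + Y * q - Z * p) * Z,
    -(3 * Y * p - Z * q + 3 * W * r) * Z + (X * q + 3 * Y * r - 3 * W * p) * X
      - 3 * (X * p + Z * r - W * q) * W + 3 * (X * r + Y * q - Z * p) * Y,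
    -(3 * Y * p - Z * q + 3 * W * r) * W + (X * r + Y * q - Z * p) * X
      - (X * p + Z * r - W * q) * Z + (X * q + 3 * Y * r - 3 * W * p) * Y, ?_, ?_, ?_⟩
  · rw [h1]; push_cast; ring
  · rw [h2]; push_cast; ring
  · rw [h3]; push_cast; ring

lemma smul_mem_PP_of_congr {N : ℕ} {g : SL(2, ℝ)} (hg : g ∈ congr N) {z : ℍ} (hz : z ∈ PP) :
    g • z ∈ PP := by
  obtain ⟨x, y, z, w, h⟩ := hg
  exact smul_mem_PP_of_qmat h hz

/-- quarter turn about `i` -/
def sElt : SL(2, ℝ) := ⟨qmat (1 / √2) 0 (1 / √2) 0, by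
  rw [det_qmat, div_pow, Real.sq_sqrt (by norm_num)]; norm_num⟩

/-- half turn with matrix `(i + 3 j)/√6` -/
def rhoElt : SL(2, ℝ) := ⟨qmat 0 (1 / √6) (3 / √6) 0, by
  rw [det_qmat, div_pow, div_pow, Real.sq_sqrt (by norm_num)]; norm_num⟩

lemma sElt_coord (z : ℍ) : pc (sElt • z) = rc z ∧ qc (sElt • z) = qc z ∧ rc (sElt • z) = -pc z := by
  obtain ⟨h1, h2, h3⟩ := smul_coord (g := sElt) (X := 1 / √2) (Y := 0) (Z := 1 / √2) (W := 0) rfl z
  have e : (1 / √2) * (1 / √2) = 1 / 2 := by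
    rw [div_mul_div_comm, Real.mul_self_sqrt (by norm_num)]; norm_num
  refine ⟨?_, ?_, ?_⟩
  · rw [h1]; linear_combination (2 * rc z) * e
  · rw [h2]; linear_combination (2 * qc z) * e
  · rw [h3]; linear_combination (-2 * pc z) * e

lemma rhoElt_coord (z : ℍ) : pc (rhoElt • z) = qc z - 2 * pc z ∧
    qc (rhoElt • z) = 2 * qc z - 3 * pc z ∧ rc (rhoElt • z) = -rc z := by
  obtain ⟨h1, h2, h3⟩ := smul_coord (g := rhoElt) (X := 0) (Y := 1 / √6) (Z := 3 / √6) (W := 0)
    rfl z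
  have e : (1 / √6) * (1 / √6) = 1 / 6 := by
    rw [div_mul_div_comm, Real.mul_self_sqrt (by norm_num)]; norm_num
  have e3 : 3 / √6 = 3 * (1 / √6) := by ring
  rw [e3] at h1 h2 h3
  refine ⟨?_, ?_, ?_⟩
  · rw [h1]; linear_combination (6 * qc z - 12 * pc z) * e
  · rw [h2]; linear_combination (12 * qc z - 18 * pc z) * e
  · rw [h3]; linear_combination (-6 * rc z) * e

/-- the group of elements preserving the integer points -/
def stabPP : Subgroup SL(2, ℝ) where
  carrier := {g | ∀ z : ℍ, g • z ∈ PP ↔ z ∈ PP}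
  one_mem' := fun z => by simp
  mul_mem' := by
    intro a b ha hb z
    rw [mul_smul, ha, hb]
  inv_mem' := by
    intro a ha z
    rw [← ha (a⁻¹ • z), smul_inv_smul]

lemma mem_stabPP {g : SL(2, ℝ)} : g ∈ stabPP ↔ ∀ z : ℍ, g • z ∈ PP ↔ z ∈ PP := Iff.rfl

lemma sElt_mem : sElt ∈ stabPP := by
  intro z
  obtain ⟨h1, h2, h3⟩ := sElt_coord z
  constructor
  · rintro ⟨p, q, r, hp, hq, hr⟩
    refine ⟨-r, q, p, ?_, ?_, ?_⟩
    · push_cast; linarith
    · linarith
    · linarith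
  · rintro ⟨p, q, r, hp, hq, hr⟩
    refine ⟨r, q, -p, ?_, ?_, ?_⟩
    · linarith
    · linarith
    · push_cast; linarith

lemma rhoElt_mem : rhoElt ∈ stabPP := by
  intro z
  obtain ⟨h1, h2, h3⟩ := rhoElt_coord z
  constructor
  · rintro ⟨p, q, r, hp, hq, hr⟩
    refine ⟨q - 2 * p, 2 * q - 3 * p, -r, ?_, ?_, ?_⟩
    · push_cast; linarith
    · push_cast; linarith
    · push_cast; linarith
  · rintro ⟨p, q, r, hp, hq, hr⟩
    refine ⟨q - 2 * p, 2 * q - 3 * p, -r, ?_, ?_, ?_⟩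
    · push_cast; linarith
    · push_cast; linarith
    · push_cast; linarith

lemma congr_le_stabPP (N : ℕ) : congr N ≤ stabPP := by
  intro g hg z
  constructor
  · intro h
    have := smul_mem_PP_of_congr ((congr N).inv_mem hg) h
    rwa [inv_smul_smul] at this
  · exact smul_mem_PP_of_congr hg

/-- one step of the descent after a rotation: `|r| ≤ p` -/
lemma descent_aux {z : ℍ} (hz : z ∈ PP) (h1 : z ≠ I) (hr : |rc z| ≤ pc z) :
    qc (rhoElt • z) < qc z := by
  obtain ⟨p, q, r, hp, hq, hr'⟩ := hz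
  obtain ⟨-, h2, -⟩ := rhoElt_coord z
  rw [h2]
  by_contra hcon
  push Not at hcon
  have h3 : 3 * pc z ≤ qc z := by linarith
  have heq := coord_eq z
  have hp0 : 0 ≤ pc z := (abs_nonneg _).trans hr
  have hr2 : rc z ^ 2 ≤ pc z ^ 2 := by
    rw [← sq_abs (rc z)]
    exact pow_le_pow_left₀ (abs_nonneg _) hr 2
  have hq2 : qc z ^ 2 ≤ 3 := by nlinarith
  have hq1 : qc z = 1 := by
    have hpos := qc_pos z
    rw [hq] at hq2 hpos ⊢
    have h4 : q ^ 2 ≤ 3 := by exact_mod_cast hq2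
    have h5 : 0 < q := by exact_mod_cast hpos
    have h6 : q = 1 := by nlinarith
    rw [h6]; simp
  have hp1 : pc z = 0 := by
    rw [hq1] at heq
    nlinarith [sq_nonneg (rc z), sq_nonneg (pc z)]
  have hr1 : rc z = 0 := by
    rw [hp1] at hr
    exact abs_nonpos_iff.1 hr
  exact h1 (coord_ext (by rw [hp1, pc_I]) (by rw [hq1, qc_I]) (by rw [hr1, rc_I]))

lemma descent {z : ℍ} (hz : z ∈ PP) (h1 : z ≠ I) : ∃ g ∈ stabPP, qc (g • z) < qc z := by
  -- rotate
  have hrot : ∃ g ∈ stabPP, qc (g • z) = qc z ∧ |rc (g • z)| ≤ pc (g • z) ∧ g • z ≠ I := by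
    obtain ⟨a1, a2, a3⟩ := sElt_coord z
    obtain ⟨b1, b2, b3⟩ := sElt_coord (sElt • z)
    obtain ⟨c1, c2, c3⟩ := sElt_coord (sElt • sElt • z)
    have hqI : qc z ≠ 1 := by
      intro h
      have heq := coord_eq z
      rw [h] at heq
      have hp : pc z = 0 := by nlinarith [sq_nonneg (rc z), sq_nonneg (pc z)]
      have hr : rc z = 0 := by nlinarith [sq_nonneg (rc z), sq_nonneg (pc z)]
      exact h1 (coord_ext (by rw [hp, pc_I]) (by rw [h, qc_I]) (by rw [hr, rc_I]))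
    have hne : ∀ w : ℍ, qc w = qc z → w ≠ I := by
      intro w hw hI
      rw [hI, qc_I] at hw
      exact hqI hw.symm
    rcases le_total |rc z| |pc z| with h | h
    · rcases le_total 0 (pc z) with hp | hp
      · exact ⟨1, stabPP.one_mem, by simp, by simpa [abs_of_nonneg hp] using h, by simpa using h1⟩
      · refine ⟨sElt * sElt, stabPP.mul_mem sElt_mem sElt_mem, ?_, ?_, ?_⟩
        · rw [mul_smul, b2, a2]
        · rw [mul_smul, b1, b3, a1, a3, abs_neg]
          rwa [abs_of_nonpos hp] at h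
        · rw [mul_smul]; exact hne _ (by rw [b2, a2])
    · rcases le_total 0 (rc z) with hr | hr
      · refine ⟨sElt, sElt_mem, a2, ?_, hne _ a2⟩
        rw [a1, a3, abs_neg]
        rwa [abs_of_nonneg hr] at h
      · refine ⟨sElt * (sElt * sElt), stabPP.mul_mem sElt_mem (stabPP.mul_mem sElt_mem sElt_mem),
          ?_, ?_, ?_⟩
        · rw [mul_smul, mul_smul, c2, b2, a2]
        · rw [mul_smul, mul_smul, c1, c3, b1, b3, a1, a3]
          simp only [abs_neg]
          rwa [abs_of_nonpos hr] at h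
        · rw [mul_smul, mul_smul]; exact hne _ (by rw [c2, b2, a2])
  obtain ⟨g, hg, hq, hr, hI⟩ := hrot
  refine ⟨rhoElt * g, stabPP.mul_mem rhoElt_mem hg, ?_⟩
  rw [mul_smul, ← hq]
  exact descent_aux ((hg z).2 hz) hI hr

/-- `stabPP` acts transitively on the integer points -/
theorem exists_smul_I {z : ℍ} (hz : z ∈ PP) : ∃ g ∈ stabPP, g • I = z := by
  have key : ∀ n : ℕ, ∀ z ∈ PP, qc z < n → ∃ g ∈ stabPP, g • z = I := by
    intro n
    induction n with
    | zero =>
      intro z hz h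
      exact absurd h (by push_cast; exact not_lt.2 (qc_pos z).le)
    | succ n ih =>
      intro z hz h
      by_cases h1 : z = I
      · exact ⟨1, stabPP.one_mem, by simp [h1]⟩
      · obtain ⟨g, hg, hlt⟩ := descent hz h1
        have hgz := (hg z).2 hz
        have hlt' : qc (g • z) < n := by
          obtain ⟨p, q, r, hp, hq, hr⟩ := hz
          obtain ⟨p', q', r', hp', hq', hr'⟩ := hgz
          rw [hq, hq'] at hlt
          rw [hq] at h
          rw [hq']
          have h2 : q' < q := by exact_mod_cast hlt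
          have h3 : q < (n + 1 : ℕ) := by exact_mod_cast h
          have h4 : q' < (n : ℕ) := by push_cast at h3; omega
          exact_mod_cast h4
        obtain ⟨g', hg', h'⟩ := ih _ hgz hlt'
        exact ⟨g' * g, stabPP.mul_mem hg' hg, by rw [mul_smul, h']⟩
  obtain ⟨n, hn⟩ := exists_nat_gt (qc z)
  obtain ⟨g, hg, h⟩ := key n z hz hn
  exact ⟨g⁻¹, stabPP.inv_mem hg, by rw [← h, inv_smul_smul]⟩

end

end Pool.Agent.Lib.MP_d28b99_gt
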