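import Mathlib

set_option autoImplicit false

open MeasureTheory UpperHalfPlane Set Topology
open scoped MatrixGroups ENNReal ContDiff

namespace Pool.Agent.Lib.MP_d28b99_gt

noncomputable section

/-- A closed, connected, oriented hyperbolic surface, presented as a quotient of the hyperbolic
plane `ℍ` (upper half-plane with the metric of curvature `-1`) by a discrete group `Γ` of
orientation preserving isometries which acts freely and cocompactly. The set `F` is a measurable
fundamental domain for the action, used to integrate `Γ`-invariant functions over the surface. -/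
structure ClosedHyperbolicSurface where
  Γ : Subgroup SL(2, ℝ)
  discrete : DiscreteTopology Γ
  free : ∀ γ ∈ Γ, γ ≠ 1 → ∀ z : ℍ, γ • z ≠ z
  compact : CompactSpace (MulAction.orbitRel.Quotient Γ ℍ)
  F : Set ℍ
  isFundamentalDomain : IsFundamentalDomain Γ F (volume : Measure ℍ)

namespace ClosedHyperbolicSurface

variable (S : ClosedHyperbolicSurface)

/-- The underlying topological space of the surface. -/
abbrev Pt : Type := MulAction.orbitRel.Quotient S.Γ ℍ

/-- The covering projection from the hyperbolic plane. -/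
def proj (z : ℍ) : S.Pt := Quotient.mk (MulAction.orbitRel S.Γ ℍ) z

/-- The hyperbolic area. -/
def area : ℝ≥0∞ := volume S.F

/-- The surface has genus `g`: by the Gauss-Bonnet theorem this means that its area is
`4π(g-1)`. -/
def HasGenus (g : ℕ) : Prop := S.area = ENNReal.ofReal (4 * Real.pi * ((g : ℝ) - 1))

/-- The smooth functions on the surface, as `Γ`-invariant smooth functions on `ℍ`. -/
def smoothFunctions : Submodule ℝ (ℍ → ℝ) where
  carrier := {f | (∀ γ ∈ S.Γ, ∀ z : ℍ, f (γ • z) = f z) ∧
    ContDiffOn ℝ ∞ (fun z : ℂ => f (ofComplex z)) {z : ℂ | 0 < z.im}}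
  zero_mem' := ⟨fun _ _ _ => rfl, contDiffOn_const⟩
  add_mem' := by
    rintro f g ⟨hf1, hf2⟩ ⟨hg1, hg2⟩
    refine ⟨fun γ hγ z => ?_, hf2.add hg2⟩
    simp only [Pi.add_apply, hf1 γ hγ z, hg1 γ hγ z]
  smul_mem' := by
    rintro c f ⟨hf1, hf2⟩
    refine ⟨fun γ hγ z => ?_, contDiffOn_const.mul hf2⟩
    simp only [Pi.smul_apply, hf1 γ hγ z]

end ClosedHyperbolicSurface

/-- Squared norm of the hyperbolic gradient: `y² (f_x² + f_y²)`. -/
def gradSq (f : ℍ → ℝ) (z : ℍ) : ℝ :=
  z.im ^ 2 * ((fderiv ℝ (fun w : ℂ => f (ofComplex w)) (z : ℂ) 1) ^ 2 +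
    (fderiv ℝ (fun w : ℂ => f (ofComplex w)) (z : ℂ) Complex.I) ^ 2)

namespace ClosedHyperbolicSurface

variable (S : ClosedHyperbolicSurface)

/-- Dirichlet energy over the surface. -/
def energy (f : ℍ → ℝ) : ℝ≥0∞ := ∫⁻ z in S.F, ENNReal.ofReal (gradSq f z)

/-- Squared `L²` norm over the surface. -/
def mass (f : ℍ → ℝ) : ℝ≥0∞ := ∫⁻ z in S.F, ENNReal.ofReal (f z ^ 2)

/-- The `i`-th eigenvalue `λ_i` of the Laplace-Beltrami operator (with multiplicity, starting with
`λ_0 = 0`), by the min-max principle of Courant and Fischer: the infimum over the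
`(i+1)`-dimensional spaces of smooth functions of the largest Rayleigh quotient. -/
def eigenvalue (i : ℕ) : ℝ≥0∞ :=
  ⨅ V : {V : Submodule ℝ (ℍ → ℝ) // V ≤ S.smoothFunctions ∧ Module.finrank ℝ V = i + 1},
    ⨆ f : {f : ℍ → ℝ // f ∈ V.1 ∧ f ≠ 0}, S.energy f.1 / S.mass f.1

/-- A simple closed geodesic of the surface: the projection of a unit speed geodesic line `c` of
`ℍ`, periodic with period `len` and injective on one period. -/
structure SimpleClosedGeodesic where
  c : ℝ → ℍ
  isometry : Isometry c
  len : ℝ
  len_pos : 0 < len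
  periodic : ∀ t, S.proj (c (t + len)) = S.proj (c t)
  simple : InjOn (fun t => S.proj (c t)) (Ico 0 len)

variable {S} in
/-- The point set of a closed geodesic. -/
def SimpleClosedGeodesic.carrier (C : S.SimpleClosedGeodesic) : Set S.Pt :=
  range fun t => S.proj (C.c t)

/-- Finite collections of `n` pairwise disjoint simple closed geodesics whose complement has
exactly `m` connected components. -/
def IsCut {n : ℕ} (C : Fin n → S.SimpleClosedGeodesic) (m : ℕ) : Prop :=
  (∀ j k, j ≠ k → Disjoint (C j).carrier (C k).carrier) ∧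
    Nat.card (ConnectedComponents ↥((⋃ j, (C j).carrier)ᶜ : Set S.Pt)) = m

/-- The least total length of a finite collection of pairwise disjoint simple closed geodesics
whose complement has exactly `i+1` components. -/
def cutLength (i : ℕ) : ℝ≥0∞ :=
  ⨅ (n : ℕ) (C : {C : Fin n → S.SimpleClosedGeodesic // S.IsCut C (i + 1)}),
    ENNReal.ofReal (∑ j, (C.1 j).len)

end ClosedHyperbolicSurface

end

end Pool.Agent.Lib.MP_d28b99_gt
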