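import Pool.Agent.Lib.MP_d28b99_gt.Bump

set_option autoImplicit false

open MeasureTheory UpperHalfPlane Set Topology
open scoped MatrixGroups ENNReal Pointwise ContDiff

namespace Pool.Agent.Lib.MP_d28b99_gt

noncomputable section

namespace ClosedHyperbolicSurface

variable (S : ClosedHyperbolicSurface)

/-- a system of `n` points whose orbits are `4`-separated -/
def Sep {n : ℕ} (p : Fin n → ℍ) : Prop :=
  ∀ k l, ∀ γ : S.Γ, (k ≠ l ∨ γ ≠ 1) → 4 ≤ dist (p k) (γ • p l)

/-- greedy packing -/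
lemma exists_sep (hS : ∀ γ ∈ S.Γ, γ ≠ 1 → ∀ z : ℍ, 4 ≤ dist z (γ • z)) (n : ℕ)
    (hn : (n : ℝ≥0∞) * volume (Metric.ball (I : ℍ) 4) < S.area ∨ n = 0) :
    ∃ p : Fin (n + 1) → ℍ, S.Sep p := by
  have hS' : ∀ γ : S.Γ, γ ≠ 1 → ∀ z : ℍ, 4 ≤ dist z (γ • z) := fun γ hγ z =>
    hS γ.1 γ.2 (fun h => hγ (Subtype.ext h)) z
  induction n with
  | zero =>
    refine ⟨fun _ => I, fun k l γ h => ?_⟩
    rcases h with h | h
    · exact absurd (Subsingleton.elim (α := Fin 1) k l) h
    · exact hS' γ h _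
  | succ n ih =>
    have hlt : ((n + 1 : ℕ) : ℝ≥0∞) * volume (Metric.ball (I : ℍ) 4) < S.area := by
      rcases hn with h | h
      · exact h
      · exact absurd h (Nat.succ_ne_zero n)
    obtain ⟨p, hp⟩ := ih (Or.inl (lt_of_le_of_lt (by gcongr; exact Nat.le_succ n) hlt))
    have hex : ∃ z : ℍ, ∀ k, ∀ γ : S.Γ, 4 ≤ dist z (γ • p k) := by
      by_contra hcon
      push Not at hcon
      have hcov : S.F ⊆ ⋃ k, ⋃ γ : S.Γ, (γ • Metric.ball (p k) 4) ∩ S.F := by
        intro z hz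
        obtain ⟨k, γ, h⟩ := hcon z
        refine mem_iUnion.2 ⟨k, mem_iUnion.2 ⟨γ, ?_, hz⟩⟩
        rw [Metric.smul_ball]
        exact h
      have h1 : S.area ≤ ∑ k, volume (Metric.ball (p k) 4) := by
        calc S.area ≤ volume (⋃ k, ⋃ γ : S.Γ, (γ • Metric.ball (p k) 4) ∩ S.F) := measure_mono hcov
          _ ≤ ∑ k, volume (⋃ γ : S.Γ, (γ • Metric.ball (p k) 4) ∩ S.F) := by
            have := measure_iUnion_le (μ := (volume : Measure ℍ))
              (fun k : Fin (n+1) => ⋃ γ : S.Γ, (γ • Metric.ball (p k) 4) ∩ S.F)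
            rwa [tsum_fintype] at this
          _ ≤ ∑ k, volume (Metric.ball (p k) 4) := by
            refine Finset.sum_le_sum fun k _ => ?_
            rw [S.isFundamentalDomain.measure_eq_tsum (Metric.ball (p k) 4)]
            exact measure_iUnion_le _
      simp_rw [volume_ball] at h1
      rw [Finset.sum_const, Finset.card_univ, Fintype.card_fin, nsmul_eq_mul] at h1
      exact absurd (lt_of_le_of_lt h1 hlt) (lt_irrefl _)
    obtain ⟨z, hz⟩ := hex
    refine ⟨Fin.cons z p, ?_⟩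
    intro k l γ h
    obtain rfl | ⟨k, rfl⟩ := Fin.eq_zero_or_eq_succ k
    · obtain rfl | ⟨l, rfl⟩ := Fin.eq_zero_or_eq_succ l
      · rcases h with h | h
        · exact absurd rfl h
        · exact hS' γ h _
      · rw [Fin.cons_zero, Fin.cons_succ]
        exact hz l γ
    · obtain rfl | ⟨l, rfl⟩ := Fin.eq_zero_or_eq_succ l
      · rw [Fin.cons_zero, Fin.cons_succ, ← dist_smul γ⁻¹, inv_smul_smul, dist_comm]
        exact hz k γ⁻¹
      · rw [Fin.cons_succ, Fin.cons_succ]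
        exact hp k l γ (h.imp (fun h h' => h (by rw [h'])) id)

variable {S} {n : ℕ} {p : Fin n → ℍ}

lemma sep_unique (hp : S.Sep p) {z : ℍ} {j j' : Fin n × S.Γ} (h : dist z (j.2 • p j.1) < 2)
    (h' : dist z (j'.2 • p j'.1) < 2) : j = j' := by
  by_contra hne
  have h1 : dist (j.2 • p j.1) (j'.2 • p j'.1) < 4 := by
    have := dist_triangle_left (j.2 • p j.1) (j'.2 • p j'.1) z
    linarith
  have h2 : dist (j.2 • p j.1) (j'.2 • p j'.1) = dist (p j.1) ((j.2⁻¹ * j'.2) • p j'.1) := by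
    rw [mul_smul, ← dist_smul j.2 (p j.1), smul_inv_smul]
  have h3 : 4 ≤ dist (p j.1) ((j.2⁻¹ * j'.2) • p j'.1) := by
    apply hp
    by_contra hcon
    push Not at hcon
    exact hne (Prod.ext hcon.1 (inv_mul_eq_one.1 hcon.2))
  linarith

open Classical in
/-- the test function with coefficients `a` -/
def testFn (S : ClosedHyperbolicSurface) {n : ℕ} (p : Fin n → ℍ) (a : Fin n → ℝ) (z : ℍ) : ℝ :=
  if h : ∃ j : Fin n × S.Γ, dist z (j.2 • p j.1) < 1 then
    a h.choose.1 * bump (h.choose.2 • p h.choose.1) z else 0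

lemma testFn_eq (hp : S.Sep p) (a : Fin n → ℝ) {z : ℍ} {j : Fin n × S.Γ}
    (h : dist z (j.2 • p j.1) < 2) : S.testFn p a z = a j.1 * bump (j.2 • p j.1) z := by
  unfold testFn
  split_ifs with h1
  · have h2 : h1.choose = j := S.sep_unique hp (h1.choose_spec.trans one_lt_two) h
    rw [h2]
  · rw [bump_of_ge, mul_zero]
    by_contra h3
    exact h1 ⟨j, not_le.1 h3⟩

lemma testFn_zero (a : Fin n → ℝ) {z : ℍ} (h : ∀ j : Fin n × S.Γ, 1 ≤ dist z (j.2 • p j.1)) :
    S.testFn p a z = 0 := by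
  unfold testFn
  rw [dif_neg]
  rintro ⟨j, hj⟩
  exact absurd (h j) (not_le.2 hj)

lemma testFn_local (hp : S.Sep p) (a : Fin n → ℝ) (z : ℍ) :
    (∃ j : Fin n × S.Γ, dist z (j.2 • p j.1) < 2 ∧
      S.testFn p a =ᶠ[𝓝 z] fun w => a j.1 * bump (j.2 • p j.1) w) ∨
    ((∀ j : Fin n × S.Γ, 2 ≤ dist z (j.2 • p j.1)) ∧ S.testFn p a =ᶠ[𝓝 z] fun _ => 0) := by
  by_cases h : ∃ j : Fin n × S.Γ, dist z (j.2 • p j.1) < 2
  · left
    obtain ⟨j, hj⟩ := h
    refine ⟨j, hj, ?_⟩
    filter_upwards [(isOpen_lt (continuous_id.dist continuous_const) continuous_const).mem_nhds hj]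
      with w hw
    exact testFn_eq hp a hw
  · right
    push Not at h
    refine ⟨h, ?_⟩
    filter_upwards [Metric.ball_mem_nhds z one_pos] with w hw
    refine testFn_zero a fun j => ?_
    have h1 := h j
    have h2 := dist_triangle_left z (j.2 • p j.1) w
    rw [Metric.mem_ball] at hw
    linarith

/-- as a linear map -/
def testMap (S : ClosedHyperbolicSurface) {n : ℕ} (p : Fin n → ℍ) :
    (Fin n → ℝ) →ₗ[ℝ] (ℍ → ℝ) where
  toFun := S.testFn p
  map_add' a b := by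
    funext z
    rw [Pi.add_apply]
    unfold testFn
    split_ifs
    · rw [Pi.add_apply, add_mul]
    · rw [add_zero]
  map_smul' c a := by
    funext z
    rw [Pi.smul_apply]
    unfold testFn
    split_ifs
    · rw [Pi.smul_apply, smul_eq_mul, smul_eq_mul, RingHom.id_apply, mul_assoc]
    · simp

lemma testMap_injective (hp : S.Sep p) : Function.Injective (S.testMap p) := by
  intro a b h
  funext k
  have h1 : dist (p k) ((k, (1 : S.Γ)).2 • p (k, (1 : S.Γ)).1) < 2 := by simp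
  have h2 := congrFun h (p k)
  change S.testFn p a (p k) = S.testFn p b (p k) at h2
  rw [testFn_eq hp a h1, testFn_eq hp b h1, bump_of_le (by simp)] at h2
  simpa using h2

lemma testFn_smul (hp : S.Sep p) (a : Fin n → ℝ) (γ : S.Γ) (z : ℍ) :
    S.testFn p a (γ • z) = S.testFn p a z := by
  by_cases h : ∃ j : Fin n × S.Γ, dist z (j.2 • p j.1) < 2
  · obtain ⟨j, hj⟩ := h
    have h1 : dist (γ • z) ((j.1, γ * j.2).2 • p (j.1, γ * j.2).1) < 2 := by
      simp only [mul_smul, dist_smul]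
      exact hj
    rw [testFn_eq hp a hj, testFn_eq hp a h1]
    simp only [bump, mul_smul, dist_smul]
  · push Not at h
    rw [testFn_zero a fun j => one_le_two.trans (h j), testFn_zero a fun j => ?_]
    have h1 := h (j.1, γ⁻¹ * j.2)
    simp only [mul_smul] at h1
    rw [← dist_smul γ, smul_inv_smul] at h1
    exact one_le_two.trans h1

lemma testFn_contDiff (hp : S.Sep p) (a : Fin n → ℝ) :
    ContDiffOn ℝ ∞ (fun z : ℂ => S.testFn p a (ofComplex z)) {z : ℂ | 0 < z.im} := by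
  intro z hz
  refine ContDiffAt.contDiffWithinAt ?_
  have hz' : ((⟨z, hz⟩ : ℍ) : ℂ) = z := rfl
  have hop : IsOpen {w : ℂ | 0 < w.im} := isOpen_lt continuous_const Complex.continuous_im
  rcases testFn_local hp a ⟨z, hz⟩ with ⟨j, -, h⟩ | ⟨-, h⟩
  · have h1 := nhds_ofComplex h
    rw [hz'] at h1
    have h2 : ContDiffAt ℝ ∞ (fun w => a j.1 * bumpC (j.2 • p j.1) w) z :=
      contDiffAt_const.mul (bumpC_contDiffAt hz)
    refine h2.congr_of_eventuallyEq ?_
    filter_upwards [h1, hop.mem_nhds hz] with w hw hw2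
    rw [hw, bump_ofComplex hw2]
  · have h1 := nhds_ofComplex h
    rw [hz'] at h1
    exact contDiffAt_const.congr_of_eventuallyEq h1

lemma testMap_range_le (hp : S.Sep p) : LinearMap.range (S.testMap p) ≤ S.smoothFunctions := by
  rintro _ ⟨a, rfl⟩
  exact ⟨fun γ hγ z => testFn_smul hp a ⟨γ, hγ⟩ z, testFn_contDiff hp a⟩

/-- unfolding -/
lemma setLIntegral_tsum (h : ℍ → ℝ≥0∞) (hh : Measurable h) :
    ∫⁻ z in S.F, ∑' γ : S.Γ, h (γ • z) = ∫⁻ z, h z := by
  rw [lintegral_tsum]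
  · exact (S.isFundamentalDomain.lintegral_eq_tsum'' h).symm
  · intro γ
    exact (hh.comp (measurable_const_smul γ)).aemeasurable

/-- weight -/
def wt (p : Fin n → ℍ) (a : Fin n → ℝ) (r : ℝ) (z : ℍ) : ℝ≥0∞ :=
  ∑ k, (Metric.ball (p k) r).indicator (fun _ => ENNReal.ofReal (a k ^ 2)) z

lemma measurable_wt (a : Fin n → ℝ) (r : ℝ) : Measurable (wt p a r) := by
  unfold wt
  refine Finset.measurable_sum _ fun k _ => ?_
  exact measurable_const.indicator Metric.isOpen_ball.measurableSet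

lemma lintegral_wt (a : Fin n → ℝ) (r : ℝ) : ∫⁻ z, wt p a r z =
    (∑ k, ENNReal.ofReal (a k ^ 2)) * volume (Metric.ball (I : ℍ) r) := by
  unfold wt
  rw [lintegral_finsetSum, Finset.sum_mul]
  · refine Finset.sum_congr rfl fun k _ => ?_
    rw [lintegral_indicator_const Metric.isOpen_ball.measurableSet, volume_ball]
  · intro k _
    exact measurable_const.indicator Metric.isOpen_ball.measurableSet

lemma gradSq_testFn_le (hp : S.Sep p) (a : Fin n → ℝ) {C : ℝ}
    (hC : ∀ u, 1 ≤ u → (deriv cut u) ^ 2 * (u ^ 2 - 1) ≤ C) (z : ℍ) :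
    ENNReal.ofReal (gradSq (S.testFn p a) z) ≤
      ENNReal.ofReal C * ∑' γ : S.Γ, wt p a 1 (γ • z) := by
  rcases testFn_local hp a z with ⟨j, hj, h⟩ | ⟨-, h⟩
  · rw [gradSq_congr h, gradSq_smul_bump]
    rcases lt_or_ge (dist z (j.2 • p j.1)) 1 with h1 | h1
    · have h2 : ENNReal.ofReal (a j.1 ^ 2) ≤ ∑' γ : S.Γ, wt p a 1 (γ • z) := by
        refine le_trans ?_ (ENNReal.le_tsum j.2⁻¹)
        unfold wt
        refine le_trans ?_ (Finset.single_le_sum (f := fun k => (Metric.ball (p k) 1).indicator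
          (fun _ => ENNReal.ofReal (a k ^ 2)) (j.2⁻¹ • z)) (fun _ _ => bot_le) (Finset.mem_univ j.1))
        rw [indicator_of_mem]
        rw [Metric.mem_ball, ← dist_smul j.2, smul_inv_smul]
        exact h1
      rw [mul_comm, ENNReal.ofReal_mul' (sq_nonneg _)]
      refine mul_le_mul' (ENNReal.ofReal_le_ofReal (hC _ (Real.one_le_cosh _))) h2
    · rw [deriv_cut_of_ge]
      · simp
      · rw [Real.cosh_le_cosh, abs_of_nonneg dist_nonneg]
        simpa using h1
  · rw [gradSq_congr h, gradSq_zero]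
    simp

lemma le_sq_testFn (hp : S.Sep p) (a : Fin n → ℝ) (z : ℍ) :
    ∑' γ : S.Γ, wt p a (1 / 2) (γ • z) ≤ ENNReal.ofReal (S.testFn p a z ^ 2) := by
  by_cases h : ∃ j : Fin n × S.Γ, dist z (j.2 • p j.1) < 1 / 2
  · obtain ⟨j, hj⟩ := h
    have hj2 : dist z (j.2 • p j.1) < 2 := hj.trans (by norm_num)
    rw [testFn_eq hp a hj2, bump_of_le hj.le, mul_one]
    have hne : ∀ γ : S.Γ, ∀ k, (k, γ) ≠ (j.1, j.2⁻¹) →
        (Metric.ball (p k) (1/2)).indicator (fun _ => ENNReal.ofReal (a k ^ 2)) (γ • z) = 0 := by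
      intro γ k hne
      rw [indicator_of_notMem]
      intro hmem
      apply hne
      rw [Metric.mem_ball, ← dist_smul γ⁻¹, inv_smul_smul] at hmem
      have := sep_unique hp (j := (k, γ⁻¹)) (j' := j) (hmem.trans (by norm_num)) hj2
      rw [← this]
      simp
    rw [tsum_eq_single j.2⁻¹]
    · unfold wt
      rw [Finset.sum_eq_single j.1]
      · exact indicator_le_self' (fun _ _ => bot_le) _
      · intro k _ hk
        exact hne _ _ (fun h => hk (congrArg Prod.fst h))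
      · simp
    · intro γ hγ
      unfold wt
      refine Finset.sum_eq_zero fun k _ => hne _ _ (fun h => hγ (congrArg Prod.snd h))
  · push Not at h
    have : ∀ γ : S.Γ, wt p a (1 / 2) (γ • z) = 0 := by
      intro γ
      unfold wt
      refine Finset.sum_eq_zero fun k _ => ?_
      rw [indicator_of_notMem]
      intro hmem
      rw [Metric.mem_ball, ← dist_smul γ⁻¹, inv_smul_smul] at hmem
      exact absurd (h (k, γ⁻¹)) (not_le.2 hmem)
    simp only [this, tsum_zero]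
    exact bot_le

lemma energy_testFn_le (hp : S.Sep p) (a : Fin n → ℝ) {C : ℝ}
    (hC : ∀ u, 1 ≤ u → (deriv cut u) ^ 2 * (u ^ 2 - 1) ≤ C) :
    S.energy (S.testFn p a) ≤ ENNReal.ofReal C * volume (Metric.ball (I : ℍ) 1) *
      ∑ k, ENNReal.ofReal (a k ^ 2) := by
  unfold energy
  calc ∫⁻ z in S.F, ENNReal.ofReal (gradSq (S.testFn p a) z)
      ≤ ∫⁻ z in S.F, ENNReal.ofReal C * ∑' γ : S.Γ, wt p a 1 (γ • z) :=
        lintegral_mono fun z => gradSq_testFn_le hp a hC z
    _ = ENNReal.ofReal C * ∫⁻ z in S.F, ∑' γ : S.Γ, wt p a 1 (γ • z) := by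
        rw [lintegral_const_mul' _ _ ENNReal.ofReal_ne_top]
    _ = _ := by
        rw [setLIntegral_tsum _ (measurable_wt a 1), lintegral_wt]
        ring

lemma le_mass_testFn (hp : S.Sep p) (a : Fin n → ℝ) :
    volume (Metric.ball (I : ℍ) (1 / 2)) * ∑ k, ENNReal.ofReal (a k ^ 2) ≤
      S.mass (S.testFn p a) := by
  unfold mass
  rw [mul_comm, ← lintegral_wt (p := p), ← setLIntegral_tsum (S := S) _ (measurable_wt a (1 / 2))]
  exact lintegral_mono fun z => le_sq_testFn hp a z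

end ClosedHyperbolicSurface

/-- B3 -/
theorem eigenvalue_le : ∃ C₀ V₀ : ℝ, 0 < C₀ ∧ 0 < V₀ ∧ ∀ S : ClosedHyperbolicSurface,
    (∀ γ ∈ S.Γ, γ ≠ 1 → ∀ z : ℍ, 4 ≤ dist z (γ • z)) →
    ∀ i : ℕ, ENNReal.ofReal ((i + 1) * V₀) ≤ S.area → S.eigenvalue i ≤ ENNReal.ofReal C₀ := by
  obtain ⟨C, hC0, hC⟩ := exists_bound_cut
  set v1 := volume (Metric.ball (I : ℍ) 1) with hv1
  set v2 := volume (Metric.ball (I : ℍ) (1 / 2)) with hv2
  set v4 := volume (Metric.ball (I : ℍ) 4) with hv4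
  have hv1f : v1 ≠ ⊤ := (volume_ball_lt_top _ _).ne
  have hv1p : v1 ≠ 0 := (volume_ball_pos _ one_pos).ne'
  have hv2f : v2 ≠ ⊤ := (volume_ball_lt_top _ _).ne
  have hv2p : v2 ≠ 0 := (volume_ball_pos _ (by norm_num)).ne'
  have hv4f : v4 ≠ ⊤ := (volume_ball_lt_top _ _).ne
  have hv4p : v4 ≠ 0 := (volume_ball_pos _ (by norm_num)).ne'
  have hqf : ENNReal.ofReal C * v1 / v2 ≠ ⊤ := by
    refine ENNReal.div_ne_top (ENNReal.mul_ne_top ENNReal.ofReal_ne_top hv1f) hv2p
  have hqp : ENNReal.ofReal C * v1 / v2 ≠ 0 := by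
    refine (ENNReal.div_pos (mul_ne_zero ?_ hv1p) hv2f).ne'
    simpa using hC0
  refine ⟨(ENNReal.ofReal C * v1 / v2).toReal, v4.toReal, ENNReal.toReal_pos hqp hqf,
    ENNReal.toReal_pos hv4p hv4f, fun S hS i hi => ?_⟩
  rw [ENNReal.ofReal_toReal hqf]
  have hlt : (i : ℝ≥0∞) * v4 < S.area := by
    refine lt_of_lt_of_le ?_ hi
    rw [ENNReal.ofReal_mul (by positivity), ENNReal.ofReal_toReal hv4f]
    refine (ENNReal.mul_lt_mul_iff_left hv4p hv4f).2 ?_
    have : ENNReal.ofReal ((i : ℝ) + 1) = ((i + 1 : ℕ) : ℝ≥0∞) := by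
      rw [← ENNReal.ofReal_natCast]
      push_cast
      rfl
    rw [this]
    exact_mod_cast Nat.lt_succ_self i
  obtain ⟨p, hp⟩ := S.exists_sep hS i (Or.inl hlt)
  have hfin : Module.finrank ℝ (LinearMap.range (S.testMap p)) = i + 1 := by
    rw [LinearMap.finrank_range_of_inj (ClosedHyperbolicSurface.testMap_injective hp)]
    simp
  unfold ClosedHyperbolicSurface.eigenvalue
  refine (iInf_le _ ⟨LinearMap.range (S.testMap p),
    ClosedHyperbolicSurface.testMap_range_le hp, hfin⟩).trans ?_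
  refine iSup_le ?_
  rintro ⟨f, ⟨a, rfl⟩, hne⟩
  change S.energy (S.testFn p a) / S.mass (S.testFn p a) ≤ _
  have hs0 : (∑ k, ENNReal.ofReal (a k ^ 2)) ≠ 0 := by
    intro h0
    apply hne
    have : a = 0 := by
      funext k
      have h1 := (Finset.sum_eq_zero_iff.1 h0) k (Finset.mem_univ _)
      rw [ENNReal.ofReal_eq_zero] at h1
      have h2 : a k ^ 2 = 0 := le_antisymm h1 (sq_nonneg _)
      simpa using h2
    rw [this, map_zero]
  have hsf : (∑ k, ENNReal.ofReal (a k ^ 2)) ≠ ⊤ :=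
    (ENNReal.sum_lt_top.2 fun k _ => ENNReal.ofReal_lt_top).ne
  calc S.energy (S.testFn p a) / S.mass (S.testFn p a)
      ≤ (ENNReal.ofReal C * v1 * ∑ k, ENNReal.ofReal (a k ^ 2)) /
          (v2 * ∑ k, ENNReal.ofReal (a k ^ 2)) :=
        ENNReal.div_le_div (ClosedHyperbolicSurface.energy_testFn_le hp a hC)
          (ClosedHyperbolicSurface.le_mass_testFn hp a)
    _ = ENNReal.ofReal C * v1 / v2 := ENNReal.mul_div_mul_right _ _ hs0 hsf

end

end Pool.Agent.Lib.MP_d28b99_gt
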