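import Pool.Agent.Lib.MP_d28b99_gt.Sides
import Pool.Agent.Lib.MP_d28b99_gt.Eigen
import Pool.Agent.Lib.MP_d28b99_gt.Cocompact
import Pool.Agent.Lib.MP_d28b99_gt.Area

set_option autoImplicit false

open MeasureTheory UpperHalfPlane Set Topology
open scoped MatrixGroups ENNReal

namespace Pool.Agent.Lib.MP_d28b99_gt

noncomputable section

namespace ClosedHyperbolicSurface

variable {S : ClosedHyperbolicSurface}

lemma le_len {R : ℝ} (hR : ∀ γ ∈ S.Γ, γ ≠ 1 → ∀ z : ℍ, R ≤ dist z (γ • z))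
    (C : S.SimpleClosedGeodesic) : R ≤ C.len := by
  obtain ⟨γ, hγ⟩ := S.proj_eq_iff.1 (C.periodic 0)
  have hd : dist (C.c 0) (C.c (0 + C.len)) = C.len := by
    rw [C.isometry.dist_eq, Real.dist_eq, zero_add, zero_sub, abs_neg, abs_of_pos C.len_pos]
  have hne : (γ : SL(2, ℝ)) ≠ 1 := by
    intro h
    have h1 : C.c 0 = C.c (0 + C.len) := by
      rw [← hγ]
      change _ = (γ : SL(2, ℝ)) • C.c 0
      rw [h, one_smul]
    rw [h1, dist_self] at hd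
    exact C.len_pos.ne hd
  have h2 := hR γ.1 γ.2 hne (C.c 0)
  have h3 : (γ : SL(2, ℝ)) • C.c 0 = C.c (0 + C.len) := hγ
  rw [h3, hd] at h2
  exact h2

/-- `L_i ≥ i · sys` -/
lemma le_cutLength {R : ℝ} (hR0 : 0 ≤ R) (hR : ∀ γ ∈ S.Γ, γ ≠ 1 → ∀ z : ℍ, R ≤ dist z (γ • z))
    (i : ℕ) : ENNReal.ofReal (i * R) ≤ S.cutLength i := by
  unfold cutLength
  refine le_iInf fun n => le_iInf fun C => ENNReal.ofReal_le_ofReal ?_
  have h1 : i ≤ n := by
    have := card_le_of_isCut C.1 C.2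
    omega
  calc (i : ℝ) * R ≤ n * R := by gcongr
    _ = ∑ _j : Fin n, R := by simp
    _ ≤ ∑ j, (C.1 j).len := Finset.sum_le_sum fun j _ => le_len hR _

end ClosedHyperbolicSurface

/-- the surface `congr N \ ℍ` -/
def congrSurface (N : ℕ) (hN : 3 ≤ N) (F : Set ℍ)
    (hF : IsFundamentalDomain (congr N) F (volume : Measure ℍ)) : ClosedHyperbolicSurface where
  Γ := congr N
  discrete := congr_discrete N hN
  free := congr_free N hN
  compact := congr_compact N hN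
  F := F
  isFundamentalDomain := hF

/-- B4 -/
theorem congr_area (N : ℕ) (hN : 3 ≤ N) (hdvd : 72 ∣ N) :
    ∃ F : Set ℍ, IsFundamentalDomain (congr N) F (volume : Measure ℍ) ∧
      ∃ g : ℕ, 2 ≤ g ∧ (volume F : ℝ≥0∞) = ENNReal.ofReal (4 * Real.pi * ((g:ℝ) - 1)) :=
  congr_area_aux N hdvd (congr_free 3 le_rfl) (congr_compact N hN)

theorem main (K : ℝ) (hK : 0 < K) : ∃ g : ℕ, 2 ≤ g ∧ ∃ S : ClosedHyperbolicSurface,
    S.HasGenus g ∧ ∃ i : ℕ, 1 ≤ i ∧ i ≤ 2 * g - 3 ∧ ∃ B : ℝ, 0 < B ∧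
      ENNReal.ofReal B ≤ S.cutLength i ∧
      S.eigenvalue i < ENNReal.ofReal (K * (i * B / g ^ 2)) := by
  obtain ⟨C₀, V₀, hC₀, hV₀, hev⟩ := eigenvalue_le
  set V₁ := max V₀ 7 with hV₁
  have hV₁7 : 7 ≤ V₁ := le_max_right _ _
  have hV₁0 : V₀ ≤ V₁ := le_max_left _ _
  obtain ⟨R₁, hR₁⟩ := ClosedHyperbolicSurface.area_large (ENNReal.ofReal (4 * V₁))
    ENNReal.ofReal_ne_top
  set R := max (max R₁ 4) (C₀ * V₁ ^ 2 / (9 * K) + 1) with hR
  obtain ⟨N₀, hN₀⟩ := congr_displacement R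
  set N := 72 * (N₀ + 1) with hN
  have hN3 : 3 ≤ N := by omega
  obtain ⟨F, hF, g, hg, hvol⟩ := congr_area N hN3 ⟨_, rfl⟩
  set S := congrSurface N hN3 F hF with hSdef
  have hdispl : ∀ γ ∈ S.Γ, γ ≠ 1 → ∀ z : ℍ, R ≤ dist z (γ • z) := hN₀ N (by omega)
  have hR4 : 4 ≤ R := (le_max_right _ _).trans (le_max_left _ _)
  have hRR₁ : R₁ ≤ R := (le_max_left _ _).trans (le_max_left _ _)
  have hRbig : C₀ * V₁ ^ 2 / (9 * K) < R := by
    have : C₀ * V₁ ^ 2 / (9 * K) + 1 ≤ R := le_max_right _ _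
    linarith
  have harea : S.area = ENNReal.ofReal (4 * Real.pi * ((g:ℝ) - 1)) := hvol
  have hg1 : (1 : ℝ) ≤ (g : ℝ) - 1 := by
    have : (2 : ℝ) ≤ g := by exact_mod_cast hg
    linarith
  have hpi3 := Real.pi_gt_three
  have hpi4 := Real.pi_lt_d2
  have hbig : 4 * V₁ ≤ 4 * Real.pi * ((g:ℝ) - 1) := by
    have h1 := hR₁ S fun γ hγ hne z => hRR₁.trans (hdispl γ hγ hne z)
    rw [harea] at h1
    exact (ENNReal.ofReal_le_ofReal_iff (by positivity)).1 h1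
  -- the index
  set A := 4 * Real.pi * ((g:ℝ) - 1) with hA
  have hV₁pos : 0 < V₁ := by linarith
  have hq4 : 4 ≤ A / V₁ := by rw [le_div_iff₀ hV₁pos]; exact hbig
  set m := ⌊A / V₁⌋₊ with hm
  have hm4 : 4 ≤ m := Nat.le_floor (by exact_mod_cast hq4)
  have hmle : (m : ℝ) ≤ A / V₁ := Nat.floor_le (by linarith)
  have hmlt : A / V₁ < m + 1 := Nat.lt_floor_add_one _
  obtain ⟨i, hi⟩ : ∃ i, m = i + 1 := ⟨m - 1, by omega⟩
  have hi1 : 1 ≤ i := by omega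
  have hmi : (m : ℝ) = i + 1 := by rw [hi]; push_cast; ring
  have hmV : (m : ℝ) * V₁ ≤ A := (le_div_iff₀ hV₁pos).1 hmle
  have hi2 : i ≤ 2 * g - 3 := by
    have h1 : (m : ℝ) < 2 * (g - 1) := by
      have h2 : (m : ℝ) * 7 ≤ A :=
        (mul_le_mul_of_nonneg_left hV₁7 (Nat.cast_nonneg m)).trans hmV
      have h3 : A < 7 * (2 * (g - 1)) := by
        rw [hA]
        have : 4 * Real.pi < 14 := by linarith
        have := mul_lt_mul_of_pos_right this (by linarith : (0:ℝ) < (g:ℝ) - 1)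
        linarith
      linarith
    have h2 : (m : ℝ) + 2 < 2 * g := by linarith
    have h3 : m + 2 < 2 * g := by exact_mod_cast h2
    omega
  have hle := hev S (fun γ hγ hne z => hR4.trans (hdispl γ hγ hne z)) i (by
    rw [harea]
    apply ENNReal.ofReal_le_ofReal
    rw [hmi] at hmV
    exact (mul_le_mul_of_nonneg_left hV₁0 (by positivity)).trans hmV)
  have hR0 : 0 < R := by linarith
  have hcut := ClosedHyperbolicSurface.le_cutLength (S := S) hR0.le hdispl i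
  have hgpos : (0 : ℝ) < g := by linarith
  have hipos : (0 : ℝ) < (i : ℝ) := by exact_mod_cast hi1
  refine ⟨g, hg, S, harea, i, hi1, hi2, i * R, by positivity, hcut, lt_of_le_of_lt hle ?_⟩
  rw [ENNReal.ofReal_lt_ofReal_iff (by positivity)]
  -- `i ≥ 3 g / V₁`
  have hig : 3 * (g : ℝ) ≤ i * V₁ := by
    have h1 : A < (m + 1) * V₁ := (div_lt_iff₀ hV₁pos).1 hmlt
    rw [hmi] at h1
    have h2 : A ≤ i * V₁ + 2 * V₁ := by linarith
    have h4 : A / 2 ≤ i * V₁ := by linarith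
    have h5 : 3 * (g : ℝ) ≤ A / 2 := by
      rw [hA]
      have h7 : 3 * ((g : ℝ) - 1) ≤ Real.pi * ((g : ℝ) - 1) :=
        mul_le_mul_of_nonneg_right hpi3.le (by linarith)
      linarith
    linarith
  have h9 : (3 * (g : ℝ)) ^ 2 ≤ (i * V₁) ^ 2 := pow_le_pow_left₀ (by positivity) hig 2
  rw [div_lt_iff₀ (by positivity)] at hRbig
  have h10 : K * (i * (i * R) / g ^ 2) = K * i ^ 2 * R / g ^ 2 := by ring
  rw [h10, lt_div_iff₀ (by positivity)]
  have h11 : 9 * (C₀ * (g : ℝ) ^ 2) ≤ (i : ℝ) ^ 2 * (C₀ * V₁ ^ 2) := by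
    have := mul_le_mul_of_nonneg_left h9 hC₀.le
    nlinarith
  have h12 : (i : ℝ) ^ 2 * (C₀ * V₁ ^ 2) < (i : ℝ) ^ 2 * (R * (9 * K)) :=
    mul_lt_mul_of_pos_left hRbig (by positivity)
  linarith

end

end Pool.Agent.Lib.MP_d28b99_gt
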