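import Mathlib

set_option autoImplicit false

open UpperHalfPlane Set Topology Filter
open scoped MatrixGroups

namespace Pool.Agent.Lib.MP_d28b99_gt

noncomputable section

/-- rotation matrix -/
def rot (θ : ℝ) : SL(2, ℝ) :=
  ⟨!![Real.cos θ, Real.sin θ; -Real.sin θ, Real.cos θ], by
    rw [Matrix.det_fin_two_of]
    have := Real.sin_sq_add_cos_sq θ
    nlinarith⟩

lemma coe_smul_eq (g : SL(2, ℝ)) (z : ℍ) :
    ((g • z : ℍ) : ℂ) = (g 0 0 * z + g 0 1) / (g 1 0 * z + g 1 1) :=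
  coe_specialLinearGroup_apply g z

lemma rot_smul_I (θ : ℝ) : rot θ • I = I := by
  apply UpperHalfPlane.ext
  rw [coe_smul_eq]
  have h : (((rot θ) 1 0 : ℝ) : ℂ) * (I : ℍ) + ((rot θ) 1 1 : ℝ) ≠ 0 := by
    intro h
    have h1 := congrArg Complex.re h
    have h2 := congrArg Complex.im h
    simp [rot] at h1 h2
    rw [Complex.cos_ofReal_re] at h1
    rw [Complex.sin_ofReal_re] at h2
    have := Real.sin_sq_add_cos_sq θ
    rw [h1, h2] at this
    norm_num at this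
  rw [div_eq_iff h]
  simp [rot]
  ring_nf
  simp

lemma re_smul_eq (g : SL(2, ℝ)) (z : ℍ) :
    (g • z : ℍ).re = (g 0 0 * g 1 0 * (z.re ^ 2 + z.im ^ 2) + (g 0 0 * g 1 1 + g 0 1 * g 1 0) * z.re +
      g 0 1 * g 1 1) / Complex.normSq (g 1 0 * z + g 1 1) := by
  have h : (g • z : ℍ).re = ((g • z : ℍ) : ℂ).re := rfl
  rw [h, coe_smul_eq, Complex.div_re]
  simp [Complex.add_re, Complex.mul_re, Complex.add_im, Complex.mul_im]
  ring

lemma exists_rot (w : ℍ) : ∃ k : SL(2, ℝ), k • I = I ∧ (k • w).re = 0 := by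
  have hc : Continuous fun θ : ℝ => Real.cos θ * Real.sin θ * (1 - (w.re ^ 2 + w.im ^ 2)) +
      (Real.cos θ ^ 2 - Real.sin θ ^ 2) * w.re := by fun_prop
  have h0 : (fun θ : ℝ => Real.cos θ * Real.sin θ * (1 - (w.re ^ 2 + w.im ^ 2)) +
      (Real.cos θ ^ 2 - Real.sin θ ^ 2) * w.re) 0 = w.re := by simp
  have h1 : (fun θ : ℝ => Real.cos θ * Real.sin θ * (1 - (w.re ^ 2 + w.im ^ 2)) +
      (Real.cos θ ^ 2 - Real.sin θ ^ 2) * w.re) (Real.pi / 2) = -w.re := by simp
  have : (0:ℝ) ∈ range fun θ : ℝ => Real.cos θ * Real.sin θ * (1 - (w.re ^ 2 + w.im ^ 2)) +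
      (Real.cos θ ^ 2 - Real.sin θ ^ 2) * w.re := by
    rcases le_total 0 w.re with h | h
    · exact mem_range_of_exists_le_of_exists_ge hc ⟨Real.pi / 2, h1.le.trans (by linarith)⟩
        ⟨0, h.trans h0.ge⟩
    · exact mem_range_of_exists_le_of_exists_ge hc ⟨0, h0.le.trans h⟩
        ⟨Real.pi / 2, le_trans (by linarith) h1.ge⟩
  obtain ⟨θ, hθ⟩ := this
  refine ⟨rot θ, rot_smul_I θ, ?_⟩
  rw [re_smul_eq]
  have : (rot θ 0 0 * rot θ 1 0 * (w.re ^ 2 + w.im ^ 2) + (rot θ 0 0 * rot θ 1 1 + rot θ 0 1 * rot θ 1 0) * w.re +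
      rot θ 0 1 * rot θ 1 1) = 0 := by
    simp only [rot, Matrix.SpecialLinearGroup.coe_mk, Matrix.of_apply, Matrix.cons_val', Matrix.cons_val_zero,
      Matrix.cons_val_one, Matrix.cons_val_fin_one]
    simp only at hθ
    linarith
  rw [this, zero_div]

/-- the points of the vertical geodesic -/
def vert (u : ℝ) : ℍ := ⟨⟨0, Real.exp u⟩, Real.exp_pos u⟩

@[simp] lemma vert_re (u : ℝ) : (vert u).re = 0 := rfl
@[simp] lemma vert_im (u : ℝ) : (vert u).im = Real.exp u := rfl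

lemma vert_zero : vert 0 = I := by
  apply UpperHalfPlane.ext_re_im <;> simp

lemma dist_vert (u v : ℝ) : dist (vert u) (vert v) = |u - v| := by
  rw [dist_of_re_eq (by simp)]
  simp [Real.dist_eq]

lemma eq_vert_of_re {z : ℍ} (h : z.re = 0) : z = vert (Real.log z.im) := by
  apply UpperHalfPlane.ext_re_im
  · simp [h]
  · simp [Real.exp_log z.im_pos]

lemma eq_vert_of_dist {v : ℍ} {u : ℝ} (h0 : dist (vert 0) v = |0 - u|)
    (h1 : dist (vert 1) v = |1 - u|) : v = vert u := by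
  have e0 := cosh_dist' (vert 0) v
  have e1 := cosh_dist' (vert 1) v
  rw [h0, Real.cosh_abs] at e0
  rw [h1, Real.cosh_abs] at e1
  have hv := v.im_pos
  simp only [vert_re, vert_im, Real.exp_zero] at e0 e1
  rw [eq_div_iff (by positivity)] at e0 e1
  rw [Real.cosh_eq] at e0 e1
  have hE : Real.exp u * Real.exp (-u) = 1 := by rw [← Real.exp_add]; simp
  have e2 : Real.exp (0 - u) = Real.exp (-u) := by congr 1; ring
  have e3 : Real.exp (-(0 - u)) = Real.exp u := by congr 1; ring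
  have e4 : Real.exp (1 - u) = Real.exp 1 * Real.exp (-u) := by rw [← Real.exp_add]; congr 1
  have e5 : Real.exp (-(1 - u)) * Real.exp 1 = Real.exp u := by rw [← Real.exp_add]; congr 1; ring
  rw [e2, e3] at e0
  rw [e4] at e1
  have e1pos : 1 < Real.exp 1 := by
    have := Real.add_one_lt_exp (x := 1) (by norm_num)
    linarith
  have hu := Real.exp_pos u
  have hnu := Real.exp_pos (-u)
  -- subtract
  have k1 : (Real.exp 1 ^ 2 - 1) * (v.im * Real.exp (-u) - 1) = 0 := by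
    have : (Real.exp 1 * Real.exp (-u) + Real.exp (-(1 - u))) / 2 * (2 * Real.exp 1 * v.im) =
      Real.exp 1 ^ 2 * Real.exp (-u) * v.im + (Real.exp (-(1 - u)) * Real.exp 1) * v.im := by ring
    rw [this, e5] at e1
    linarith
  have k2 : v.im * Real.exp (-u) = 1 := by
    rcases mul_eq_zero.1 k1 with h | h
    · nlinarith
    · linarith
  have k3 : v.im = Real.exp u := by
    have : v.im * Real.exp (-u) * Real.exp u = Real.exp u := by rw [k2, one_mul]
    rw [mul_assoc, mul_comm (Real.exp (-u)), hE, mul_one] at this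
    exact this
  have k4 : v.re = 0 := by
    rw [k3] at e0
    have : (0 - v.re) ^ 2 = 0 := by nlinarith
    have := pow_eq_zero_iff (two_ne_zero) |>.1 this
    linarith
  apply UpperHalfPlane.ext_re_im
  · simp [k4]
  · simp [k3]

/-- two point homogeneity -/
lemma exists_move (p q : ℍ) : ∃ g : SL(2, ℝ), g • p = I ∧ (g • q).re = 0 ∧ 1 ≤ (g • q).im := by
  obtain ⟨g1, hg1⟩ := MulAction.exists_smul_eq SL(2, ℝ) p I
  obtain ⟨k, hk1, hk2⟩ := exists_rot (g1 • q)
  have h1 : (k * g1) • p = I := by rw [mul_smul, hg1, hk1]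
  have h2 : ((k * g1) • q).re = 0 := by rw [mul_smul]; exact hk2
  rcases le_total 1 ((k * g1) • q).im with h | h
  · exact ⟨k * g1, h1, h2, h⟩
  · set w := (k * g1) • q with hw
    refine ⟨rot (Real.pi / 2) * (k * g1), ?_, ?_, ?_⟩
    · rw [mul_smul, h1, rot_smul_I]
    · rw [mul_smul, ← hw, re_smul_eq]
      simp [rot, h2]
    · rw [mul_smul, ← hw]
      have h3 : ((rot (Real.pi / 2) • w : ℍ) : ℂ) = 1 / (-w) := by
        rw [coe_smul_eq]
        simp [rot]
      have h4 : (rot (Real.pi / 2) • w : ℍ).im = w.im / Complex.normSq w := by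
        have : (rot (Real.pi / 2) • w : ℍ).im = ((rot (Real.pi / 2) • w : ℍ) : ℂ).im := rfl
        rw [this, h3]
        simp [Complex.inv_im, neg_div]
      rw [h4, le_div_iff₀ (normSq_pos w), Complex.normSq_apply]
      have e1 : (w : ℂ).re = 0 := h2
      have e2 : (w : ℂ).im = w.im := rfl
      rw [e1, e2]
      have := w.im_pos
      nlinarith

/-- classification of geodesic lines -/
theorem exists_eq_vert {c : ℝ → ℍ} (hc : Isometry c) : ∃ g : SL(2, ℝ), ∀ u, g • c u = vert u := by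
  obtain ⟨g, h0, h1, h2⟩ := exists_move (c 0) (c 1)
  have hd : dist (g • c 0) (g • c 1) = 1 := by
    rw [dist_smul, hc.dist_eq, Real.dist_eq]; norm_num
  have h3 : g • c 1 = vert 1 := by
    rw [eq_vert_of_re h1]
    rw [h0, ← vert_zero, eq_vert_of_re h1, dist_vert] at hd
    have h4 : 0 ≤ Real.log (g • c 1).im := Real.log_nonneg h2
    rw [abs_of_nonpos (by linarith)] at hd
    congr 1
    linarith
  refine ⟨g, fun u => eq_vert_of_dist ?_ ?_⟩
  · rw [vert_zero, ← h0, dist_smul, hc.dist_eq, Real.dist_eq]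
  · rw [← h3, dist_smul, hc.dist_eq, Real.dist_eq]

/-- half balls are connected -/
lemma isPreconnected_halfBall_pos (z : ℍ) (ε : ℝ) : IsPreconnected (Metric.ball z ε ∩ {w : ℍ | 0 < w.re}) := by
  rw [← isEmbedding_coe.isInducing.isPreconnected_image]
  have : ((↑) : ℍ → ℂ) '' (Metric.ball z ε ∩ {w : ℍ | 0 < w.re}) =
      (((↑) : ℍ → ℂ) '' Metric.ball z ε) ∩ {w : ℂ | 0 < w.re} := by
    ext w
    constructor
    · rintro ⟨v, ⟨h1, h2⟩, rfl⟩
      exact ⟨⟨v, h1, rfl⟩, h2⟩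
    · rintro ⟨⟨v, h1, rfl⟩, h2⟩
      exact ⟨v, ⟨h1, h2⟩, rfl⟩
  rw [this, image_coe_ball]
  refine Convex.isPreconnected ?_
  refine (convex_ball _ _).inter ?_
  exact convex_halfSpace_re_gt 0

lemma isPreconnected_halfBall_neg (z : ℍ) (ε : ℝ) : IsPreconnected (Metric.ball z ε ∩ {w : ℍ | w.re < 0}) := by
  rw [← isEmbedding_coe.isInducing.isPreconnected_image]
  have : ((↑) : ℍ → ℂ) '' (Metric.ball z ε ∩ {w : ℍ | w.re < 0}) =
      (((↑) : ℍ → ℂ) '' Metric.ball z ε) ∩ {w : ℂ | w.re < 0} := by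
    ext w
    constructor
    · rintro ⟨v, ⟨h1, h2⟩, rfl⟩
      exact ⟨⟨v, h1, rfl⟩, h2⟩
    · rintro ⟨⟨v, h1, rfl⟩, h2⟩
      exact ⟨v, ⟨h1, h2⟩, rfl⟩
  rw [this, image_coe_ball]
  refine Convex.isPreconnected ?_
  refine (convex_ball _ _).inter ?_
  exact convex_halfSpace_re_lt 0

/-- translate -/
def shiftPt (s δ : ℝ) : ℍ := ⟨⟨δ, Real.exp s⟩, Real.exp_pos s⟩

lemma tendsto_shiftPt (s : ℝ) : Tendsto (shiftPt s) (𝓝 0) (𝓝 (vert s)) := by
  rw [isEmbedding_coe.tendsto_nhds_iff]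
  have h1 : Continuous fun δ : ℝ => (⟨δ, Real.exp s⟩ : ℂ) := by
    have : (fun δ : ℝ => (⟨δ, Real.exp s⟩ : ℂ)) = fun δ : ℝ => (δ : ℂ) + Real.exp s * Complex.I := by
      funext δ
      apply Complex.ext
      · simp
      · simp [Complex.exp_ofReal_re]
    rw [this]
    fun_prop
  exact h1.tendsto 0

lemma mem_closure_halfBall_pos {z : ℍ} {ε s : ℝ} (h : vert s ∈ Metric.ball z ε) :
    vert s ∈ closure (Metric.ball z ε ∩ {w : ℍ | 0 < w.re}) := by
  refine mem_closure_of_tendsto (f := shiftPt s) (b := 𝓝[>] 0)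
    ((tendsto_shiftPt s).mono_left nhdsWithin_le_nhds) ?_
  have h1 := (tendsto_shiftPt s).mono_left (nhdsWithin_le_nhds (s := Ioi (0:ℝ)))
  filter_upwards [h1.eventually (Metric.isOpen_ball.mem_nhds h), self_mem_nhdsWithin] with δ h2 h3
  exact ⟨h2, h3⟩

lemma mem_closure_halfBall_neg {z : ℍ} {ε s : ℝ} (h : vert s ∈ Metric.ball z ε) :
    vert s ∈ closure (Metric.ball z ε ∩ {w : ℍ | w.re < 0}) := by
  refine mem_closure_of_tendsto (f := shiftPt s) (b := 𝓝[<] 0)
    ((tendsto_shiftPt s).mono_left nhdsWithin_le_nhds) ?_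
  have h1 := (tendsto_shiftPt s).mono_left (nhdsWithin_le_nhds (s := Iio (0:ℝ)))
  filter_upwards [h1.eventually (Metric.isOpen_ball.mem_nhds h), self_mem_nhdsWithin] with δ h2 h3
  exact ⟨h2, h3⟩

end

end Pool.Agent.Lib.MP_d28b99_gt
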