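import Pool.Agent.Lib.MP_d28b99_gt.Defs

set_option autoImplicit false

open MeasureTheory UpperHalfPlane Set Topology
open scoped MatrixGroups ENNReal Pointwise

namespace Pool.Agent.Lib.MP_d28b99_gt

noncomputable section

instance smulInvariantMeasure_SL : SMulInvariantMeasure SL(2, ℝ) ℍ volume := by
  constructor
  intro g s hs
  have h := measure_preimage_smul_of_nullMeasurableSet (G := GL (Fin 2) ℝ) (μ := (volume : Measure ℍ)) hs.nullMeasurableSet (g : GL (Fin 2) ℝ)
  exact h

instance smulInvariantMeasure_sub (Γ : Subgroup SL(2, ℝ)) : SMulInvariantMeasure Γ ℍ volume := by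
  constructor
  intro g s hs
  exact (smulInvariantMeasure_SL).measure_preimage_smul (g : SL(2, ℝ)) hs

instance measurableConstSMul_sub (Γ : Subgroup SL(2, ℝ)) : MeasurableConstSMul Γ ℍ where
  measurable_const_smul g := (continuous_const_smul g).measurable

instance measurableConstSMul_SL : MeasurableConstSMul SL(2, ℝ) ℍ where
  measurable_const_smul g := (continuous_const_smul g).measurable

/-- every point is a translate of `I` -/
lemma exists_SL_smul_I (z : ℍ) : ∃ g : SL(2, ℝ), g • (I : ℍ) = z :=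
  MulAction.exists_smul_eq SL(2, ℝ) I z

lemma volume_ball (z : ℍ) (r : ℝ) : volume (Metric.ball z r) = volume (Metric.ball (I : ℍ) r) := by
  obtain ⟨g, hg⟩ := exists_SL_smul_I z
  rw [← hg, ← Metric.smul_ball, measure_smul]

lemma volume_ball_lt_top (z : ℍ) (r : ℝ) : volume (Metric.ball z r) < ∞ := by
  refine lt_of_le_of_lt (measure_mono Metric.ball_subset_closedBall) ?_
  exact (isCompact_closedBall z r).measure_lt_top

lemma volume_pos_of_isOpen {U : Set ℍ} (hU : IsOpen U) (hne : U.Nonempty) : 0 < volume U := by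
  rw [pos_iff_ne_zero]
  intro h
  rw [volume_def, withDensity_apply_eq_zero'] at h
  · have h1 : (volume.comap UpperHalfPlane.coe) U = 0 := by
      refine measure_mono_null ?_ h
      intro z hz
      refine ⟨?_, hz⟩
      simp only [mem_ofPred_eq, ne_eq]
      have : (0 : ℝ) < z.im := z.im_pos
      have h3 : ((1 / NNReal.mk z.im z.im_pos.le : NNReal) ^ 2) ≠ 0 := by
        refine pow_ne_zero 2 (one_div_ne_zero ?_)
        exact fun h4 => z.im_pos.ne' (congrArg NNReal.toReal h4)
      exact_mod_cast h3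
    rw [measurableEmbedding_coe.comap_apply] at h1
    have h2 : IsOpen (UpperHalfPlane.coe '' U) := isOpenEmbedding_coe.isOpenMap U hU
    exact (h2.measure_pos volume (hne.image _)).ne' h1
  · refine Measurable.aemeasurable ?_
    have : Continuous fun z : ℍ => (1 / NNReal.mk z.im z.im_pos.le : NNReal) ^ 2 := by
      refine .pow (.div₀ continuous_const ?_ ?_) _
      · exact continuous_im.subtype_mk _
      · exact fun x ↦ NNReal.ne_iff.mp x.im_ne_zero
    exact this.measurable.coe_nnreal_ennreal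

lemma volume_ball_pos (z : ℍ) {r : ℝ} (hr : 0 < r) : 0 < volume (Metric.ball z r) :=
  volume_pos_of_isOpen Metric.isOpen_ball ⟨z, Metric.mem_ball_self hr⟩

/-- points on the imaginary axis, three apart -/
def farPt (n : ℕ) : ℍ := ⟨⟨0, Real.exp (3 * n)⟩, Real.exp_pos _⟩

lemma dist_farPt (m n : ℕ) : dist (farPt m) (farPt n) = 3 * |(m : ℝ) - n| := by
  have h : (farPt m).re = (farPt n).re := rfl
  rw [dist_of_re_eq h]
  have h1 : (farPt m).im = Real.exp (3 * m) := rfl
  have h2 : (farPt n).im = Real.exp (3 * n) := rfl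
  rw [h1, h2, Real.log_exp, Real.log_exp, Real.dist_eq, ← mul_sub, abs_mul]
  norm_num

lemma volume_univ_eq_top : (volume : Measure ℍ) univ = ∞ := by
  have hd : Pairwise (Function.onFun Disjoint fun n => Metric.ball (farPt n) 1) := by
    intro m n hmn
    refine Metric.ball_disjoint_ball ?_
    rw [dist_farPt]
    have h : (1 : ℝ) ≤ |(m : ℝ) - n| := by
      have h1 : (1 : ℤ) ≤ |(m : ℤ) - n| := Int.one_le_abs (sub_ne_zero.2 (by exact_mod_cast hmn))
      exact_mod_cast h1
    linarith
  have h1 : volume (⋃ n, Metric.ball (farPt n) 1) = ∑' n, volume (Metric.ball (farPt n) 1) :=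
    measure_iUnion hd fun n => Metric.isOpen_ball.measurableSet
  have h2 : (∑' n : ℕ, volume (Metric.ball (farPt n) 1)) = ∞ := by
    simp_rw [volume_ball]
    exact ENNReal.tsum_const_eq_top_of_ne_zero (volume_ball_pos I one_pos).ne'
  rw [h2] at h1
  exact top_le_iff.1 (h1 ▸ measure_mono (subset_univ _))

lemma exists_ball_large (A : ℝ≥0∞) (hA : A ≠ ∞) : ∃ R : ℝ, A < volume (Metric.ball (I : ℍ) R) := by
  have h1 : Filter.Tendsto (fun n : ℕ => volume (Metric.ball (I : ℍ) n)) Filter.atTop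
      (𝓝 (volume (⋃ n : ℕ, Metric.ball (I : ℍ) n))) :=
    tendsto_measure_iUnion_atTop fun m n hmn => Metric.ball_subset_ball (by exact_mod_cast hmn)
  rw [Metric.iUnion_ball_nat, volume_univ_eq_top] at h1
  obtain ⟨n, hn⟩ := (h1.eventually (lt_mem_nhds hA.lt_top)).exists
  exact ⟨n, hn⟩

namespace ClosedHyperbolicSurface

variable (S : ClosedHyperbolicSurface)

instance instDiscrete : DiscreteTopology S.Γ := S.discrete

instance instIsometric : IsIsometricSMul S.Γ ℍ where
  isometry_smul γ := isometry_smul ℍ (γ : SL(2, ℝ))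

instance instCountable : Countable S.Γ := by
  have h1 : SecondCountableTopology (Matrix (Fin 2) (Fin 2) ℝ) :=
    inferInstanceAs (SecondCountableTopology (Fin 2 → Fin 2 → ℝ))
  have h2 : SecondCountableTopology SL(2, ℝ) :=
    TopologicalSpace.Subtype.secondCountableTopology _
  exact TopologicalSpace.separableSpace_iff_countable.1 inferInstance

/-- B5 -/
theorem area_large (A : ℝ≥0∞) (hA : A ≠ ∞) : ∃ R : ℝ, ∀ S : ClosedHyperbolicSurface,
    (∀ γ ∈ S.Γ, γ ≠ 1 → ∀ z : ℍ, R ≤ dist z (γ • z)) → A ≤ S.area := by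
  obtain ⟨R, hR⟩ := exists_ball_large A hA
  refine ⟨2 * R, fun S hS => hR.le.trans ?_⟩
  refine S.isFundamentalDomain.measure_le_of_pairwise_disjoint Metric.isOpen_ball.nullMeasurableSet ?_
  intro γ δ hne
  refine Disjoint.aedisjoint ?_
  rw [Set.disjoint_left]
  rintro w ⟨hw1, -⟩ ⟨hw2, -⟩
  rw [Metric.smul_ball, Metric.mem_ball] at hw1 hw2
  have h1 : dist (γ • (I : ℍ)) (δ • I) < 2 * R := by
    have := dist_triangle_left (γ • (I : ℍ)) (δ • I) w
    linarith
  have h2 : 2 * R ≤ dist (I : ℍ) (((γ⁻¹ * δ : S.Γ) : SL(2, ℝ)) • I) := by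
    refine hS _ (γ⁻¹ * δ).2 ?_ _
    intro h
    apply hne
    have : γ⁻¹ * δ = 1 := Subtype.ext h
    rwa [inv_mul_eq_one] at this
  have h3 : dist (γ • (I : ℍ)) (δ • I) = dist (I : ℍ) (((γ⁻¹ * δ : S.Γ) : SL(2, ℝ)) • I) := by
    have : ((γ⁻¹ * δ : S.Γ) : SL(2, ℝ)) • (I : ℍ) = γ⁻¹ • δ • I := mul_smul γ⁻¹ δ I
    rw [this, ← dist_smul γ I, smul_inv_smul]
  linarith

end ClosedHyperbolicSurface

end

end Pool.Agent.Lib.MP_d28b99_gt
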