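import Pool.Agent.Lib.MP_d28b99_gt.Defs
import Pool.Agent.Lib.MP_d28b99_gt.Lines
import Pool.Agent.Lib.MP_d28b99_gt.AbstractSides

set_option autoImplicit false

open MeasureTheory UpperHalfPlane Set Topology
open scoped MatrixGroups ENNReal

namespace Pool.Agent.Lib.MP_d28b99_gt

noncomputable section

namespace ClosedHyperbolicSurface

variable (S : ClosedHyperbolicSurface)

instance : DiscreteTopology S.Γ := S.discrete
instance : CompactSpace S.Pt := S.compact

lemma smul_def' (γ : S.Γ) (z : ℍ) : γ • z = (γ : SL(2, ℝ)) • z := rfl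

lemma proj_eq_iff {z w : ℍ} : S.proj z = S.proj w ↔ ∃ γ : S.Γ, γ • w = z := by
  unfold proj
  rw [Quotient.eq, MulAction.orbitRel_apply, MulAction.mem_orbit_iff]

lemma proj_smul (γ : S.Γ) (z : ℍ) : S.proj (γ • z) = S.proj z := S.proj_eq_iff.2 ⟨γ, rfl⟩

lemma continuous_proj : Continuous S.proj := continuous_quotient_mk'

lemma isOpenMap_proj : IsOpenMap S.proj := isOpenMap_quotient_mk'_mul

lemma surjective_proj : Function.Surjective S.proj := Quotient.mk_surjective

instance : ConnectedSpace S.Pt := by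
  have : ConnectedSpace ℍ := by
    infer_instance
  exact S.surjective_proj.connectedSpace S.continuous_proj

instance : T2Space S.Pt := by
  infer_instance

lemma free' (γ : S.Γ) {z : ℍ} (h : γ • z = z) : γ = 1 := by
  by_contra hne
  exact S.free γ.1 γ.2 (fun h' => hne (Subtype.ext h')) z h

lemma smul_left_inj {γ δ : S.Γ} {z : ℍ} (h : γ • z = δ • z) : γ = δ := by
  have : (δ⁻¹ * γ) • z = z := by rw [mul_smul, h, inv_smul_smul]
  have := S.free' _ this
  rwa [inv_mul_eq_one, eq_comm] at this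

variable {S}

namespace SimpleClosedGeodesic

variable (C : S.SimpleClosedGeodesic)

lemma continuous_c : Continuous C.c := C.isometry.continuous

/-- The deck transformation along a closed geodesic. -/
lemma exists_deck : ∃ τ : S.Γ, ∀ t, C.c (t + C.len) = τ • C.c t := by
  have hex : ∀ t, ∃ γ : S.Γ, γ • C.c t = C.c (t + C.len) := fun t => S.proj_eq_iff.1 (C.periodic t)
  obtain ⟨τ, hτ⟩ := hex 0
  refine ⟨τ, ?_⟩
  -- the set where the deck transformation is `τ` is clopen
  have hclosed : ∀ γ : S.Γ, IsClosed {t | γ • C.c t = C.c (t + C.len)} := fun γ =>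
    isClosed_eq ((continuous_const_smul γ).comp C.continuous_c)
      (C.continuous_c.comp (continuous_id.add continuous_const))
  have hlf : LocallyFinite fun γ : {γ : S.Γ // γ ≠ τ} => {t | γ.1 • C.c t = C.c (t + C.len)} := by
    intro t
    refine ⟨Icc (t - 1) (t + 1), Icc_mem_nhds (by linarith) (by linarith), ?_⟩
    have hK : IsCompact (C.c '' Icc (t - 1) (t + 1)) := isCompact_Icc.image C.continuous_c
    have hL : IsCompact ((fun t => C.c (t + C.len)) '' Icc (t - 1) (t + 1)) :=
      isCompact_Icc.image (C.continuous_c.comp (continuous_id.add continuous_const))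
    have hfin := ProperlyDiscontinuousSMul.finite_disjoint_inter_image (Γ := S.Γ) hK hL
    refine Set.Finite.of_finite_image (f := fun γ : {γ : S.Γ // γ ≠ τ} => γ.1) (hfin.subset ?_)
      (fun a _ b _ h => Subtype.ext h)
    rintro _ ⟨γ, ⟨u, hu1, hu2⟩, rfl⟩
    refine ⟨γ.1 • C.c u, ⟨C.c u, ⟨u, hu2, rfl⟩, rfl⟩, ?_⟩
    have : γ.1 • C.c u = C.c (u + C.len) := hu1
    rw [this]
    exact ⟨u, hu2, rfl⟩
  have hcl2 : IsClosed (⋃ γ : {γ : S.Γ // γ ≠ τ}, {t | γ.1 • C.c t = C.c (t + C.len)}) :=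
    hlf.isClosed_iUnion fun γ => hclosed γ.1
  have hcompl : {t | τ • C.c t = C.c (t + C.len)}ᶜ =
      ⋃ γ : {γ : S.Γ // γ ≠ τ}, {t | γ.1 • C.c t = C.c (t + C.len)} := by
    ext t
    simp only [mem_compl_iff, mem_ofPred_eq, mem_iUnion]
    constructor
    · intro h
      obtain ⟨γ, hγ⟩ := hex t
      exact ⟨⟨γ, fun h' => h (h' ▸ hγ)⟩, hγ⟩
    · rintro ⟨γ, hγ⟩ h
      exact γ.2 (S.smul_left_inj (hγ.trans h.symm))
  have hclopen : IsClopen {t | τ • C.c t = C.c (t + C.len)} :=
    ⟨hclosed τ, by rw [← isClosed_compl_iff, hcompl]; exact hcl2⟩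
  have huniv := hclopen.eq_univ ⟨0, hτ⟩
  intro t
  have : t ∈ {t | τ • C.c t = C.c (t + C.len)} := by rw [huniv]; trivial
  exact this.symm

lemma deck_zpow {τ : S.Γ} (hτ : ∀ t, C.c (t + C.len) = τ • C.c t) (k : ℤ) (t : ℝ) :
    C.c (t + k * C.len) = τ ^ k • C.c t := by
  induction k using Int.induction_on with
  | zero => simp
  | succ n ih =>
    have e : t + ((n : ℤ) + 1 : ℤ) * C.len = (t + (n : ℤ) * C.len) + C.len := by push_cast; ring
    rw [e, hτ, ih, ← mul_smul, ← zpow_one_add]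
    congr 2
    ring
  | pred n ih =>
    have e : (t + (-(n : ℤ) : ℤ) * C.len) = (t + (-(n : ℤ) - 1 : ℤ) * C.len) + C.len := by
      push_cast; ring
    rw [e, hτ] at ih
    have : C.c (t + (-(n : ℤ) - 1 : ℤ) * C.len) = τ⁻¹ • τ ^ (-(n : ℤ)) • C.c t := by
      rw [← ih, inv_smul_smul]
    rw [this, ← mul_smul]
    congr 1
    rw [← zpow_neg_one, ← zpow_add]
    congr 1
    ring

/-- if a translate of the line meets the line, it is the same line -/
lemma translate_subset {γ : S.Γ} {s t : ℝ} (h : γ • C.c s = C.c t) (u : ℝ) :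
    γ • C.c u ∈ range C.c := by
  obtain ⟨τ, hτ⟩ := C.exists_deck
  have hl := C.len_pos
  -- reduce both parameters to one period
  set m : ℤ := ⌊s / C.len⌋ with hm
  set n : ℤ := ⌊t / C.len⌋ with hn
  have hs0 : s - m * C.len ∈ Ico 0 C.len := by
    have h1 := Int.floor_le (s / C.len)
    have h2 := Int.lt_floor_add_one (s / C.len)
    rw [le_div_iff₀ hl] at h1
    rw [div_lt_iff₀ hl] at h2
    constructor
    · rw [hm]; linarith
    · rw [hm]; linarith
  have ht0 : t - n * C.len ∈ Ico 0 C.len := by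
    have h1 := Int.floor_le (t / C.len)
    have h2 := Int.lt_floor_add_one (t / C.len)
    rw [le_div_iff₀ hl] at h1
    rw [div_lt_iff₀ hl] at h2
    constructor
    · rw [hn]; linarith
    · rw [hn]; linarith
  have e1 : C.c s = τ ^ m • C.c (s - m * C.len) := by
    rw [← C.deck_zpow hτ]; congr 1; ring
  have e2 : C.c t = τ ^ n • C.c (t - n * C.len) := by
    rw [← C.deck_zpow hτ]; congr 1; ring
  have e3 : S.proj (C.c (s - m * C.len)) = S.proj (C.c (t - n * C.len)) := by
    rw [← S.proj_smul (τ ^ m), ← e1, ← S.proj_smul (τ ^ n) (C.c (t - n * C.len)), ← e2, ← h,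
      S.proj_smul]
  have e4 : s - m * C.len = t - n * C.len := C.simple hs0 ht0 e3
  have e5 : t = s + ((n - m : ℤ) : ℝ) * C.len := by push_cast; linarith
  have e6 : γ • C.c s = τ ^ (n - m) • C.c s := by
    rw [h, e5, C.deck_zpow hτ]
  have e7 := S.smul_left_inj e6
  rw [e7, ← C.deck_zpow hτ]
  exact ⟨_, rfl⟩

lemma exists_mem_Icc (t : ℝ) : ∃ s ∈ Icc (0:ℝ) C.len, S.proj (C.c t) = S.proj (C.c s) := by
  obtain ⟨τ, hτ⟩ := C.exists_deck
  have hl := C.len_pos
  have h1 := Int.floor_le (t / C.len)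
  have h2 := Int.lt_floor_add_one (t / C.len)
  rw [le_div_iff₀ hl] at h1
  rw [div_lt_iff₀ hl] at h2
  refine ⟨t - ⌊t / C.len⌋ * C.len, ⟨by linarith, by linarith⟩, ?_⟩
  have e1 : C.c t = τ ^ ⌊t / C.len⌋ • C.c (t - ⌊t / C.len⌋ * C.len) := by
    rw [← C.deck_zpow hτ]; congr 1; ring
  rw [e1, S.proj_smul]

lemma carrier_eq : C.carrier = (fun t => S.proj (C.c t)) '' Icc 0 C.len := by
  apply Subset.antisymm
  · rintro _ ⟨t, rfl⟩
    obtain ⟨s, hs, h⟩ := C.exists_mem_Icc t
    exact ⟨s, hs, h.symm⟩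
  · rintro _ ⟨s, hs, rfl⟩
    exact ⟨s, rfl⟩

lemma isCompact_carrier : IsCompact C.carrier := by
  rw [carrier_eq]
  exact isCompact_Icc.image (S.continuous_proj.comp C.continuous_c)

lemma isClosed_carrier : IsClosed C.carrier := C.isCompact_carrier.isClosed

lemma isPreconnected_carrier : IsPreconnected C.carrier :=
  isPreconnected_range (S.continuous_proj.comp C.continuous_c)

/-- near a point of the line, only the line itself projects to the geodesic -/
lemma exists_ball (t : ℝ) : ∃ ε > 0, ∀ w ∈ Metric.ball (C.c t) ε, S.proj w ∈ C.carrier →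
    w ∈ range C.c := by
  have hK : IsCompact (C.c '' Icc 0 C.len) := isCompact_Icc.image C.continuous_c
  have hL : IsCompact (Metric.closedBall (C.c t) 1) := isCompact_closedBall _ _
  have hfin := ProperlyDiscontinuousSMul.finite_disjoint_inter_image (Γ := S.Γ) hK hL
  -- the translates which avoid the point
  set T : Set S.Γ := {γ | ((γ • ·) '' (C.c '' Icc 0 C.len) ∩ Metric.closedBall (C.c t) 1).Nonempty} with hT
  have hfin' : T.Finite := hfin
  have hcl : IsClosed (⋃ γ ∈ {γ ∈ T | C.c t ∉ (γ • ·) '' (C.c '' Icc 0 C.len)},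
      (γ • ·) '' (C.c '' Icc 0 C.len)) := by
    refine (hfin'.subset (sep_subset _ _)).isClosed_biUnion fun γ _ => ?_
    exact (hK.image (continuous_const_smul γ)).isClosed
  have hnot : C.c t ∉ (⋃ γ ∈ {γ ∈ T | C.c t ∉ (γ • ·) '' (C.c '' Icc 0 C.len)},
      (γ • ·) '' (C.c '' Icc 0 C.len)) := by
    simp only [mem_iUnion, not_exists]
    intro γ hγ h
    exact hγ.2 h
  obtain ⟨δ, hδ, hball⟩ := Metric.isOpen_iff.1 hcl.isOpen_compl _ hnot
  refine ⟨min δ 1, lt_min hδ one_pos, fun w hw hwC => ?_⟩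
  rw [carrier_eq] at hwC
  obtain ⟨s, hs, hsw⟩ := hwC
  obtain ⟨γ, hγ⟩ := S.proj_eq_iff.1 hsw.symm
  have hwimg : w ∈ (γ • ·) '' (C.c '' Icc 0 C.len) := ⟨C.c s, ⟨s, hs, rfl⟩, hγ⟩
  have hγT : γ ∈ T := by
    refine ⟨w, hwimg, ?_⟩
    exact Metric.ball_subset_closedBall (Metric.ball_subset_ball (min_le_right _ _) hw)
  by_cases hmem : C.c t ∈ (γ • ·) '' (C.c '' Icc 0 C.len)
  · obtain ⟨_, ⟨s', hs', rfl⟩, h⟩ := hmem
    rw [← hγ]
    exact C.translate_subset h s
  · exfalso
    apply hball (Metric.ball_subset_ball (min_le_left _ _) hw)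
    simp only [mem_iUnion]
    exact ⟨γ, ⟨hγT, hmem⟩, hwimg⟩

end SimpleClosedGeodesic

/-- Removing `n` disjoint simple closed geodesics leaves at most `n+1` components. -/
theorem card_le_of_isCut {n : ℕ} (C : Fin n → S.SimpleClosedGeodesic)
    {m : ℕ} (h : S.IsCut C m) : m ≤ n + 1 := by
  obtain ⟨hdisj, hcard⟩ := h
  rw [← hcard]
  set W : Set S.Pt := (⋃ j, (C j).carrier)ᶜ with hW
  have hWo : IsOpen W := (isClosed_iUnion_of_finite fun j => (C j).isClosed_carrier).isOpen_compl
  refine card_components_le (fun j => (C j).carrier) (fun j => (C j).isPreconnected_carrier)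
    (fun j => ⟨_, mem_range_self 0⟩) W rfl ?_ ?_
  · intro x hx
    obtain ⟨z, rfl⟩ := S.surjective_proj x
    obtain ⟨ε, hε, hball⟩ := Metric.isOpen_iff.1 (hWo.preimage S.continuous_proj) z hx
    refine ⟨S.proj '' Metric.ball z ε, S.isOpenMap_proj _ Metric.isOpen_ball,
      ⟨z, Metric.mem_ball_self hε, rfl⟩, ?_⟩
    have hsub : S.proj '' Metric.ball z ε ⊆ W := by
      rintro _ ⟨w, hw, rfl⟩; exact hball hw
    have hpre : IsPreconnected (S.proj '' Metric.ball z ε) := by
      refine IsPreconnected.image ?_ _ S.continuous_proj.continuousOn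
      rw [← isEmbedding_coe.isInducing.isPreconnected_image, image_coe_ball]
      exact (convex_ball _ _).isPreconnected
    intro y hy
    exact ⟨hsub hy, mk_eq_mk_of_preconnected hsub hpre hy ⟨z, Metric.mem_ball_self hε, rfl⟩⟩
  · rintro j x ⟨t, rfl⟩
    -- a small ball which only sees the line
    obtain ⟨ε1, hε1, h1⟩ := (C j).exists_ball t
    have hoth : S.proj ((C j).c t) ∉ ⋃ k ∈ {k | k ≠ j}, (C k).carrier := by
      simp only [mem_iUnion, not_exists]
      intro k hk hmem
      exact Set.disjoint_left.1 (hdisj k j hk) hmem ⟨t, rfl⟩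
    have hclo : IsClosed (⋃ k ∈ {k : Fin n | k ≠ j}, (C k).carrier) :=
      (Set.toFinite _).isClosed_biUnion fun k _ => (C k).isClosed_carrier
    obtain ⟨ε2, hε2, h2⟩ := Metric.isOpen_iff.1 (hclo.isOpen_compl.preimage S.continuous_proj)
      ((C j).c t) hoth
    set ε := min ε1 ε2 with hε
    have hεpos : 0 < ε := lt_min hε1 hε2
    have hline : ∀ w ∈ Metric.ball ((C j).c t) ε, S.proj w ∉ W → w ∈ range (C j).c := by
      intro w hw hwW
      have hw' : S.proj w ∈ ⋃ k, (C k).carrier := not_not.1 hwW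
      obtain ⟨k, hk⟩ := mem_iUnion.1 hw'
      by_cases hkj : k = j
      · subst hkj
        exact h1 w (Metric.ball_subset_ball (min_le_left _ _) hw) hk
      · exfalso
        apply h2 (Metric.ball_subset_ball (min_le_right _ _) hw)
        simp only [mem_iUnion]
        exact ⟨k, hkj, hk⟩
    -- normalise the line
    obtain ⟨g, hg⟩ := exists_eq_vert (C j).isometry
    set B := Metric.ball ((C j).c t) ε with hB
    have hgB : ∀ w, w ∈ B ↔ g • w ∈ Metric.ball (vert t) ε := by
      intro w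
      rw [hB, Metric.mem_ball, Metric.mem_ball, ← hg t, dist_smul]
    set Hp : Set ℍ := (g⁻¹ • ·) '' (Metric.ball (vert t) ε ∩ {w : ℍ | 0 < w.re}) with hHp
    set Hm : Set ℍ := (g⁻¹ • ·) '' (Metric.ball (vert t) ε ∩ {w : ℍ | w.re < 0}) with hHm
    have hcont : Continuous (fun w : ℍ => g⁻¹ • w) := continuous_const_smul g⁻¹
    have hHpc : IsPreconnected (S.proj '' Hp) :=
      ((isPreconnected_halfBall_pos _ _).image _ hcont.continuousOn).image _
        S.continuous_proj.continuousOn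
    have hHmc : IsPreconnected (S.proj '' Hm) :=
      ((isPreconnected_halfBall_neg _ _).image _ hcont.continuousOn).image _
        S.continuous_proj.continuousOn
    have hoff : ∀ w ∈ B, (g • w).re ≠ 0 → S.proj w ∈ W := by
      intro w hw hre
      by_contra hcon
      obtain ⟨u, hu⟩ := hline w hw hcon
      apply hre
      rw [← hu, hg u]
      rfl
    have hmemHp : ∀ w, w ∈ Hp ↔ w ∈ B ∧ 0 < (g • w).re := by
      intro w
      constructor
      · rintro ⟨v, ⟨hv1, hv2⟩, rfl⟩
        simp only [hgB, smul_inv_smul]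
        exact ⟨hv1, hv2⟩
      · rintro ⟨hw1, hw2⟩
        exact ⟨g • w, ⟨(hgB w).1 hw1, hw2⟩, inv_smul_smul g w⟩
    have hmemHm : ∀ w, w ∈ Hm ↔ w ∈ B ∧ (g • w).re < 0 := by
      intro w
      constructor
      · rintro ⟨v, ⟨hv1, hv2⟩, rfl⟩
        simp only [hgB, smul_inv_smul]
        exact ⟨hv1, hv2⟩
      · rintro ⟨hw1, hw2⟩
        exact ⟨g • w, ⟨(hgB w).1 hw1, hw2⟩, inv_smul_smul g w⟩
    have hsubp : S.proj '' Hp ⊆ W := by
      rintro _ ⟨w, hw, rfl⟩
      have := (hmemHp w).1 hw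
      exact hoff w this.1 this.2.ne'
    have hsubm : S.proj '' Hm ⊆ W := by
      rintro _ ⟨w, hw, rfl⟩
      have := (hmemHm w).1 hw
      exact hoff w this.1 this.2.ne
    -- closure statements
    have hclp : ∀ s, (C j).c s ∈ B → (C j).c s ∈ closure Hp := by
      intro s hs
      have h3 : vert s ∈ Metric.ball (vert t) ε := by rw [← hg s]; exact (hgB _).1 hs
      have h4 := mem_closure_halfBall_pos h3
      have h5 := image_closure_subset_closure_image hcont (mem_image_of_mem (fun w : ℍ => g⁻¹ • w) h4)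
      have h6 : (C j).c s = g⁻¹ • vert s := by rw [← hg s, inv_smul_smul]
      rw [h6]
      exact h5
    have hclm : ∀ s, (C j).c s ∈ B → (C j).c s ∈ closure Hm := by
      intro s hs
      have h3 : vert s ∈ Metric.ball (vert t) ε := by rw [← hg s]; exact (hgB _).1 hs
      have h4 := mem_closure_halfBall_neg h3
      have h5 := image_closure_subset_closure_image hcont (mem_image_of_mem (fun w : ℍ => g⁻¹ • w) h4)
      have h6 : (C j).c s = g⁻¹ • vert s := by rw [← hg s, inv_smul_smul]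
      rw [h6]
      exact h5
    have hBt : (C j).c t ∈ B := Metric.mem_ball_self hεpos
    have hnep : Hp.Nonempty := closure_nonempty_iff.1 ⟨_, hclp t hBt⟩
    have hnem : Hm.Nonempty := closure_nonempty_iff.1 ⟨_, hclm t hBt⟩
    obtain ⟨p0, hp0⟩ := hnep
    obtain ⟨m0, hm0⟩ := hnem
    have hp0' : S.proj p0 ∈ S.proj '' Hp := ⟨p0, hp0, rfl⟩
    have hm0' : S.proj m0 ∈ S.proj '' Hm := ⟨m0, hm0, rfl⟩
    have hcomp1 : S.proj '' Hp ⊆ compSet W (ConnectedComponents.mk ⟨S.proj p0, hsubp hp0'⟩) := by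
      intro y hy
      exact ⟨hsubp hy, mk_eq_mk_of_preconnected hsubp hHpc hy hp0'⟩
    have hcomp2 : S.proj '' Hm ⊆ compSet W (ConnectedComponents.mk ⟨S.proj m0, hsubm hm0'⟩) := by
      intro y hy
      exact ⟨hsubm hy, mk_eq_mk_of_preconnected hsubm hHmc hy hm0'⟩
    refine ⟨S.proj '' B, ConnectedComponents.mk ⟨S.proj p0, hsubp hp0'⟩,
      ConnectedComponents.mk ⟨S.proj m0, hsubm hm0'⟩, S.isOpenMap_proj _ Metric.isOpen_ball,
      ⟨_, hBt, rfl⟩, ?_, ?_⟩
    · rintro _ ⟨w, hw, rfl⟩ hyW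
      rcases lt_trichotomy (g • w).re 0 with h | h | h
      · right
        obtain ⟨_, h'⟩ := hcomp2 ⟨w, (hmemHm w).2 ⟨hw, h⟩, rfl⟩
        exact h'
      · exfalso
        -- then `w` is on the line
        have h7 : w = (C j).c (Real.log (g • w).im) := by
          have h8 := eq_vert_of_re h
          rw [← hg] at h8
          exact (smul_left_cancel g h8)
        apply hyW
        rw [mem_iUnion]
        exact ⟨j, by rw [h7]; exact ⟨_, rfl⟩⟩
      · left
        obtain ⟨_, h'⟩ := hcomp1 ⟨w, (hmemHp w).2 ⟨hw, h⟩, rfl⟩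
        exact h'
    · rintro _ ⟨w, hw, rfl⟩ hyW
      obtain ⟨s, rfl⟩ := hline w hw hyW
      constructor
      · refine closure_mono hcomp1 ?_
        exact image_closure_subset_closure_image S.continuous_proj ⟨_, hclp s hw, rfl⟩
      · refine closure_mono hcomp2 ?_
        exact image_closure_subset_closure_image S.continuous_proj ⟨_, hclm s hw, rfl⟩

end ClosedHyperbolicSurface

end

end Pool.Agent.Lib.MP_d28b99_gt
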