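import Pool.Agent.Lib.MP_d28b99_gt.Defs

set_option autoImplicit false

open MeasureTheory UpperHalfPlane Set Topology
open scoped MatrixGroups ENNReal

namespace Pool.Agent.Lib.MP_d28b99_gt

noncomputable section

/-! Skeleton: statements of the bundles. -/

/-- the matrix of the quaternion `x + y i + z j + w k`, `i^2 = 3`, `j^2 = -1` -/
def qmat (x y z w : ℝ) : Matrix (Fin 2) (Fin 2) ℝ :=
  !![x + y * √3, -(z + w * √3); z - w * √3, x - y * √3]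

/-- principal congruence subgroup of level `N` of the unit group of the order -/
def congr (N : ℕ) : Subgroup SL(2, ℝ) where
  carrier := {g | ∃ x y z w : ℤ, (g : Matrix (Fin 2) (Fin 2) ℝ) =
    qmat (1 + N * x : ℤ) (N * y : ℤ) (N * z : ℤ) (N * w : ℤ)}
  one_mem' := sorry
  mul_mem' := sorry
  inv_mem' := sorry

/-- B1a -/
theorem congr_discrete (N : ℕ) (hN : 3 ≤ N) : DiscreteTopology (congr N) := sorry

/-- B1b -/
theorem congr_free (N : ℕ) (hN : 3 ≤ N) : ∀ γ ∈ congr N, γ ≠ 1 → ∀ z : ℍ, γ • z ≠ z := sorry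

/-- B1c -/
theorem congr_compact (N : ℕ) (hN : 3 ≤ N) :
    CompactSpace (MulAction.orbitRel.Quotient (congr N) ℍ) := sorry

/-- B1d -/
theorem congr_displacement (R : ℝ) : ∃ N₀ : ℕ, ∀ N : ℕ, N₀ ≤ N → ∀ γ ∈ congr N, γ ≠ 1 →
    ∀ z : ℍ, R ≤ dist z (γ • z) := sorry

/-- B2 -/
theorem card_le_of_isCut {S : ClosedHyperbolicSurface} {n : ℕ} (C : Fin n → S.SimpleClosedGeodesic)
    {m : ℕ} (h : S.IsCut C m) (hm : 0 < m) : m ≤ n + 1 := sorry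

/-- B3 -/
theorem eigenvalue_le : ∃ C₀ V₀ : ℝ, 0 < C₀ ∧ 0 < V₀ ∧ ∀ S : ClosedHyperbolicSurface,
    (∀ γ ∈ S.Γ, γ ≠ 1 → ∀ z : ℍ, 4 ≤ dist z (γ • z)) →
    ∀ i : ℕ, ENNReal.ofReal ((i + 1) * V₀) ≤ S.area → S.eigenvalue i ≤ ENNReal.ofReal C₀ := sorry

/-- B4: fundamental domain of area in `4πℤ` -/
theorem congr_area (N : ℕ) (hN : 3 ≤ N) (hdvd : 72 ∣ N) :
    ∃ F : Set ℍ, IsFundamentalDomain (congr N) F (volume : Measure ℍ) ∧
      ∃ g : ℕ, 2 ≤ g ∧ (volume F : ℝ≥0∞) = ENNReal.ofReal (4 * Real.pi * ((g:ℝ) - 1)) := sorry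

/-- B5: large area from large displacement -/
theorem area_large (A : ℝ≥0∞) (hA : A ≠ ∞) : ∃ R : ℝ, ∀ S : ClosedHyperbolicSurface,
    (∀ γ ∈ S.Γ, γ ≠ 1 → ∀ z : ℍ, R ≤ dist z (γ • z)) → A ≤ S.area := sorry

theorem main : ¬ ∃ K : ℝ, 0 < K ∧ ∀ g : ℕ, 2 ≤ g → ∀ S : ClosedHyperbolicSurface, S.HasGenus g →
    ∀ i : ℕ, 1 ≤ i → i ≤ 2 * g - 3 →
      ENNReal.ofReal K * (i * S.cutLength i / g ^ 2) ≤ S.eigenvalue i := sorry

end

end Pool.Agent.Lib.MP_d28b99_gt
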