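import Pool.Agent.Lib.MP_d28b99_gt.Cell

/-!
# The Voronoi cells of the integer points
-/

set_option autoImplicit false

open MeasureTheory UpperHalfPlane Set Topology
open scoped MatrixGroups ENNReal Pointwise

namespace Pool.Agent.Lib.MP_d28b99_gt

noncomputable section

instance : SMulInvariantMeasure SL(2, ℝ) ℍ (volume : Measure ℍ) where
  measure_preimage_smul g _ hs :=
    SMulInvariantMeasure.measure_preimage_smul
      (Matrix.SpecialLinearGroup.mapGL ℝ g : GL (Fin 2) ℝ) hs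

instance : MeasurableConstSMul SL(2, ℝ) ℍ where
  measurable_const_smul g := (continuous_const_smul g).measurable

/-- the open Voronoi cell of `v` -/
def Vor (v : ℍ) : Set ℍ := {z | ∀ w ∈ PP, w ≠ v → dist z v < dist z w}

lemma mem_Vor {v z : ℍ} : z ∈ Vor v ↔ ∀ w ∈ PP, w ≠ v → dist z v < dist z w := Iff.rfl

lemma smul_mem_Vor {g : SL(2, ℝ)} (hg : g ∈ stabPP) (v z : ℍ) :
    g • z ∈ Vor (g • v) ↔ z ∈ Vor v := by
  simp only [mem_Vor]
  constructor
  · intro h w hw hne
    have := h (g • w) ((hg w).2 hw) (by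
      intro h'
      exact hne (smul_left_cancel g h'))
    rwa [dist_smul, dist_smul] at this
  · intro h w hw hne
    have hw' : g⁻¹ • w ∈ PP := by
      rw [← hg (g⁻¹ • w), smul_inv_smul]; exact hw
    have := h (g⁻¹ • w) hw' (by
      intro h'
      rw [inv_smul_eq_iff] at h'
      exact hne h')
    rw [← dist_smul g z v, ← dist_smul g z (g⁻¹ • w), smul_inv_smul] at this
    exact this

lemma countable_PP : PP.Countable := by
  have hinj : Function.Injective (fun z : PP => ((z.2.choose, z.2.choose_spec.choose,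
      z.2.choose_spec.choose_spec.choose) : ℤ × ℤ × ℤ)) := by
    intro z w h
    simp only [Prod.mk.injEq] at h
    obtain ⟨h1, h2, h3⟩ := h
    have hz := z.2.choose_spec.choose_spec.choose_spec
    have hw := w.2.choose_spec.choose_spec.choose_spec
    apply Subtype.ext
    apply coord_ext
    · rw [hz.1, hw.1, h1]
    · rw [hz.2.1, hw.2.1, h2]
    · rw [hz.2.2, hw.2.2, h3]
  exact hinj.countable

lemma dist_lt_iff (z v w : ℍ) : dist z v < dist z w ↔
    Real.cosh (dist z v) < Real.cosh (dist z w) := by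
  rw [Real.cosh_lt_cosh, abs_of_nonneg dist_nonneg, abs_of_nonneg dist_nonneg]

/-- integer points: `|p| + |r| + 1 ≤ q` -/
lemma int_ineq {a b c : ℤ} (hb : 0 < b) (h : b ^ 2 = 1 + 3 * a ^ 2 + 3 * c ^ 2) :
    |a| + |c| + 1 ≤ b := by
  by_contra hcon
  push Not at hcon
  have ha := abs_nonneg a
  have hc := abs_nonneg c
  have e1 : |a| ^ 2 = a ^ 2 := sq_abs a
  have e2 : |c| ^ 2 = c ^ 2 := sq_abs c
  have h1 : b ≤ |a| + |c| := by omega
  set x := |a| with hx
  set y := |c| with hy
  have h2 : b ^ 2 ≤ (x + y) ^ 2 := pow_le_pow_left₀ hb.le h1 2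
  nlinarith [sq_nonneg (x - y)]

/-- the neighbour `(1, 2, 0)` of `i` -/
def nb : ℍ := ⟨⟨√3 / 2, 1 / 2⟩, by norm_num⟩

lemma nb_coord : pc nb = 1 ∧ qc nb = 2 ∧ rc nb = 0 := by
  have h33 := sqrt3_sq
  have h3 := sqrt3_pos
  have e1 : nb.re = √3 / 2 := rfl
  have e2 : nb.im = 1 / 2 := rfl
  have e3 : nb.re ^ 2 + nb.im ^ 2 = 1 := by
    rw [e1, e2]; linear_combination (1 / 4) * h33
  refine ⟨?_, ?_, ?_⟩
  · unfold pc; rw [e1, e2]; field_simp
  · unfold qc; rw [e3, e2]; norm_num
  · unfold rc; rw [e3]; simp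

lemma nb_mem : nb ∈ PP := by
  obtain ⟨h1, h2, h3⟩ := nb_coord
  exact ⟨1, 2, 0, by simp [h1], by simp [h2], by simp [h3]⟩

theorem Vor_I : Vor I = cell := by
  ext z
  constructor
  · intro h
    obtain ⟨n1, n2, n3⟩ := nb_coord
    have key : ∀ w ∈ PP, qc w = 2 → 3 * (pc z * pc w + rc z * rc w) < qc z := by
      intro w hw hq
      have hne : w ≠ I := by
        intro h'
        rw [h', qc_I] at hq
        norm_num at hq
      have := h w hw hne
      rw [dist_lt_iff, cosh_dist_eq, cosh_dist_eq, pc_I, qc_I, rc_I, hq] at this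
      linarith
    obtain ⟨a1, a2, a3⟩ := sElt_coord nb
    obtain ⟨b1, b2, b3⟩ := sElt_coord (sElt • nb)
    obtain ⟨c1, c2, c3⟩ := sElt_coord (sElt • sElt • nb)
    have m1 := (sElt_mem nb).2 nb_mem
    have m2 := (sElt_mem _).2 m1
    have m3 := (sElt_mem _).2 m2
    have k0 := key _ nb_mem n2
    have k1 := key _ m1 (by rw [a2, n2])
    have k2 := key _ m2 (by rw [b2, a2, n2])
    have k3 := key _ m3 (by rw [c2, b2, a2, n2])
    rw [n1, n3] at k0
    rw [a1, a3, n1, n3] at k1
    rw [b1, b3, a1, a3, n1, n3] at k2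
    rw [c1, c3, b1, b3, a1, a3, n1, n3] at k3
    constructor
    · have : |pc z| < qc z / 3 := abs_lt.2 ⟨by linarith, by linarith⟩
      linarith
    · have : |rc z| < qc z / 3 := abs_lt.2 ⟨by linarith, by linarith⟩
      linarith
  · rintro ⟨h1, h2⟩ w hw hne
    rw [dist_lt_iff, cosh_dist_eq, cosh_dist_eq, pc_I, qc_I, rc_I]
    have hwe := coord_eq w
    have hq := qc_pos z
    have hqw := qc_pos w
    obtain ⟨a, b, c, ha, hb, hc⟩ := hw
    have hb0 : 0 < b := by rw [hb] at hqw; exact_mod_cast hqw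
    have heq : b ^ 2 = 1 + 3 * a ^ 2 + 3 * c ^ 2 := by
      rw [ha, hb, hc] at hwe; exact_mod_cast hwe
    have hin := int_ineq hb0 heq
    have hin' : |pc w| + |rc w| + 1 ≤ qc w := by
      rw [ha, hb, hc]; exact_mod_cast hin
    have hpos : 0 < |pc w| + |rc w| := by
      by_contra hcon
      push Not at hcon
      have g1 := abs_nonneg (pc w)
      have g2 := abs_nonneg (rc w)
      have e1 : pc w = 0 := abs_eq_zero.1 (by linarith)
      have e2 : rc w = 0 := abs_eq_zero.1 (by linarith)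
      have e3 : qc w = 1 := by
        have := coord_eq w
        rw [e1, e2] at this
        nlinarith
      exact hne (coord_ext (by rw [e1, pc_I]) (by rw [e3, qc_I]) (by rw [e2, rc_I]))
    have k1 : pc z * pc w ≤ |pc z| * |pc w| := by
      rw [← abs_mul]; exact le_abs_self _
    have k2 : rc z * rc w ≤ |rc z| * |rc w| := by
      rw [← abs_mul]; exact le_abs_self _
    have k3 : 3 * (|pc z| * |pc w|) + 3 * (|rc z| * |rc w|) < qc z * (|pc w| + |rc w|) := by
      have g1 := abs_nonneg (pc w)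
      have g2 := abs_nonneg (rc w)
      rcases g1.eq_or_lt with g | g
      · have : 0 < |rc w| := by linarith
        rw [← g]
        nlinarith
      · nlinarith
    have k4 : qc z * (|pc w| + |rc w| + 1) ≤ qc z * qc w :=
      mul_le_mul_of_nonneg_left hin' hq.le
    linarith

lemma measurableSet_bisector (v w : ℍ) : MeasurableSet {z : ℍ | dist z v = dist z w} :=
  (isClosed_eq (by fun_prop) (by fun_prop)).measurableSet

lemma sqrt3_int {a b : ℤ} (h : (a : ℝ) = √3 * b) : a = 0 ∧ b = 0 := by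
  have hirr : Irrational (√3) := by
    have := Nat.Prime.irrational_sqrt (p := 3) (by norm_num)
    exact_mod_cast this
  by_cases hb : b = 0
  · subst hb
    simp at h
    exact ⟨h, rfl⟩
  · exfalso
    have hb' : (b : ℝ) ≠ 0 := by exact_mod_cast hb
    apply hirr
    refine ⟨(a : ℚ) / b, ?_⟩
    push_cast
    rw [h]
    field_simp

/-- the bisector of `i` and another integer point is a null set -/
lemma bisector_I_null {w : ℍ} (hw : w ∈ PP) (hne : w ≠ I) :
    (volume {z : ℍ | dist z I = dist z w} : ℝ≥0∞) = 0 := by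
  have h33 := sqrt3_sq
  obtain ⟨a, b, c, ha, hb, hc⟩ := hw
  have hα : qc w - 1 - √3 * rc w ≠ 0 := by
    intro h0
    rw [hb, hc] at h0
    have h1 : ((b - 1 : ℤ) : ℝ) = √3 * c := by push_cast; linarith
    obtain ⟨h2, h3⟩ := sqrt3_int h1
    have hq : qc w = 1 := by rw [hb, show b = 1 by omega]; simp
    have hr : rc w = 0 := by rw [hc, h3]; simp
    have hp : pc w = 0 := by
      have := coord_eq w
      rw [hq, hr] at this
      nlinarith
    exact hne (coord_ext (by rw [hp, pc_I]) (by rw [hq, qc_I]) (by rw [hr, rc_I]))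
  set α := qc w - 1 - √3 * rc w with hαd
  rw [volume_eq_lintegral]
  apply setLIntegral_measure_zero
  -- contained in a sphere
  set ctr : ℂ := ((√3 * pc w / α : ℝ) : ℂ) with hctr
  set ρ : ℝ := √((√3 * pc w / α) ^ 2 - (qc w - 1 + √3 * rc w) / α) with hρ
  refine measure_mono_null (t := Metric.sphere ctr ρ) ?_ (Measure.addHaar_sphere _ _ _)
  rintro _ ⟨z, hz, rfl⟩
  have hz' : dist z I = dist z w := hz
  have hcosh : Real.cosh (dist z I) = Real.cosh (dist z w) := by rw [hz']
  rw [cosh_dist_eq, cosh_dist_eq, pc_I, qc_I, rc_I] at hcosh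
  have him := z.im_pos
  have hA := coord_A z
  have hB := coord_B z
  have hC := coord_C z
  -- polynomial equation
  have hpoly : α * (z.re ^ 2 + z.im ^ 2) - 2 * (√3 * pc w) * z.re + (qc w - 1 + √3 * rc w) = 0 := by
    have e1 : (qc z - √3 * rc z) * z.im = 1 := by rw [hA]; field_simp
    have e2 : √3 * pc z * z.im = z.re := by rw [hB]; field_simp
    have e3 : (qc z + √3 * rc z) * z.im = z.re ^ 2 + z.im ^ 2 := by rw [hC]; field_simp
    rw [← e3, ← e2]
    have e4 : (qc w - 1 + √3 * rc w) = (qc w - 1 + √3 * rc w) * ((qc z - √3 * rc z) * z.im) := by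
      rw [e1, mul_one]
    rw [e4]
    linear_combination (-2 * z.im) * hcosh - 2 * z.im * (rc w * rc z + pc w * pc z) * h33
  have hd : dist (z : ℂ) ctr ^ 2 = (√3 * pc w / α) ^ 2 - (qc w - 1 + √3 * rc w) / α := by
    rw [Complex.dist_eq_re_im, Real.sq_sqrt (by positivity), hctr]
    simp only [Complex.ofReal_re, Complex.ofReal_im]
    have r1 : (z : ℂ).re = z.re := rfl
    have r2 : (z : ℂ).im = z.im := rfl
    rw [r1, r2]
    field_simp
    linear_combination α * hpoly
  rw [Metric.mem_sphere, hρ, ← hd, Real.sqrt_sq dist_nonneg]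

/-- bisectors of integer points are null sets -/
lemma bisector_null {v w : ℍ} (hv : v ∈ PP) (hw : w ∈ PP) (hne : w ≠ v) :
    (volume {z : ℍ | dist z v = dist z w} : ℝ≥0∞) = 0 := by
  obtain ⟨g, hg, rfl⟩ := exists_smul_I hv
  have hw' : g⁻¹ • w ∈ PP := by
    rw [← hg (g⁻¹ • w), smul_inv_smul]; exact hw
  have hne' : g⁻¹ • w ≠ I := by
    intro h
    rw [inv_smul_eq_iff] at h
    exact hne h
  have h0 := bisector_I_null hw' hne'
  have hset : {z : ℍ | dist z (g • I) = dist z w} =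
      (fun z => g⁻¹ • z) ⁻¹' {z : ℍ | dist z I = dist z (g⁻¹ • w)} := by
    ext z
    simp only [mem_preimage, mem_ofPred_eq]
    rw [← dist_smul g (g⁻¹ • z) I, ← dist_smul g (g⁻¹ • z) (g⁻¹ • w), smul_inv_smul,
      smul_inv_smul]
  rw [hset, measure_preimage_smul, h0]

/-- local finiteness of the integer points -/
lemma finite_near (z : ℍ) (R : ℝ) : {v ∈ PP | dist z v ≤ R}.Finite := by
  obtain ⟨n, hn⟩ := exists_nat_gt (Real.cosh (dist I z + R))
  have hsub : {v ∈ PP | dist z v ≤ R} ⊆ {v | ∃ p q r : ℤ, (|p| ≤ n ∧ |q| ≤ n ∧ |r| ≤ n) ∧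
      pc v = p ∧ qc v = q ∧ rc v = r} := by
    rintro v ⟨⟨p, q, r, hp, hq, hr⟩, hd⟩
    refine ⟨p, q, r, ?_, hp, hq, hr⟩
    have h1 : qc v = Real.cosh (dist I v) := by
      rw [cosh_dist_eq, pc_I, qc_I, rc_I]; ring
    have h2 : dist I v ≤ dist I z + R := (dist_triangle I z v).trans (by linarith)
    have h3 : qc v ≤ n := by
      rw [h1]
      refine le_trans ?_ hn.le
      rw [Real.cosh_le_cosh, abs_of_nonneg dist_nonneg]
      exact h2.trans (le_abs_self _)
    have h4 := coord_eq v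
    have h5 := qc_pos v
    have hn0 : (0 : ℝ) ≤ n := Nat.cast_nonneg n
    have h9 : qc v ^ 2 ≤ (n : ℝ) ^ 2 := pow_le_pow_left₀ h5.le h3 2
    have h6 : |pc v| ≤ n := by
      refine abs_le_of_sq_le_sq ?_ hn0
      nlinarith [sq_nonneg (pc v), sq_nonneg (rc v)]
    have h7 : |rc v| ≤ n := by
      refine abs_le_of_sq_le_sq ?_ hn0
      nlinarith [sq_nonneg (pc v), sq_nonneg (rc v)]
    have h8 : |qc v| ≤ n := by rwa [abs_of_pos h5]
    rw [hp] at h6
    rw [hr] at h7
    rw [hq] at h8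
    exact ⟨by exact_mod_cast h6, by exact_mod_cast h8, by exact_mod_cast h7⟩
  refine Set.Finite.subset ?_ hsub
  refine Set.Finite.of_finite_image (f := fun v : ℍ => (pc v, qc v, rc v)) ?_ ?_
  · refine Set.Finite.subset (((Set.finite_Icc (-(n : ℤ)) n).prod
      ((Set.finite_Icc (-(n : ℤ)) n).prod (Set.finite_Icc (-(n : ℤ)) n))).image
      (fun u : ℤ × ℤ × ℤ => ((u.1 : ℝ), (u.2.1 : ℝ), (u.2.2 : ℝ)))) ?_
    rintro _ ⟨v, ⟨p, q, r, ⟨h1, h2, h3⟩, hp, hq, hr⟩, rfl⟩
    exact ⟨(p, q, r), ⟨abs_le.1 h1, abs_le.1 h2, abs_le.1 h3⟩, by simp [hp, hq, hr]⟩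
  · intro v _ w _ h
    simp only [Prod.mk.injEq] at h
    exact coord_ext h.1 h.2.1 h.2.2

/-- almost every point lies in an open Voronoi cell -/
lemma ae_mem_Vor : ∀ᵐ z : ℍ, ∃ v ∈ PP, z ∈ Vor v := by
  have hnull : ∀ᵐ z : ℍ, ∀ v ∈ PP, ∀ w ∈ PP, w ≠ v → dist z v ≠ dist z w := by
    rw [ae_ball_iff countable_PP]
    intro v hv
    rw [ae_ball_iff countable_PP]
    intro w hw
    by_cases hne : w = v
    · simp [hne]
    · have := bisector_null hv hw hne
      rw [← compl_mem_ae_iff] at this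
      filter_upwards [this] with z hz _
      exact hz
  filter_upwards [hnull] with z hz
  obtain ⟨v, ⟨hv, hvd⟩, hmin⟩ := Set.exists_min_image {v ∈ PP | dist z v ≤ dist z I}
    (fun v => dist z v) (finite_near z (dist z I)) ⟨I, I_mem_PP, le_rfl⟩
  refine ⟨v, hv, fun w hw hne => ?_⟩
  refine lt_of_le_of_ne ?_ (hz v hv w hw hne)
  rcases le_or_gt (dist z w) (dist z I) with h | h
  · exact hmin w ⟨hw, h⟩
  · exact hvd.trans h.le

lemma Vor_disjoint {v w z : ℍ} (hv : v ∈ PP) (hw : w ∈ PP) (h1 : z ∈ Vor v) (h2 : z ∈ Vor w) :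
    v = w := by
  by_contra hne
  have a := h1 w hw (fun h => hne h.symm)
  have b := h2 v hv hne
  exact lt_asymm a b

lemma measurableSet_Vor (v : ℍ) : MeasurableSet (Vor v) := by
  have : Vor v = ⋂ w ∈ PP, {z : ℍ | w ≠ v → dist z v < dist z w} := by
    ext z; simp [mem_Vor]
  rw [this]
  refine MeasurableSet.biInter countable_PP ?_
  intro w _
  by_cases hne : w = v
  · simp [hne]
  · simp only [hne, not_false_eq_true, ne_eq, forall_const]
    exact measurableSet_lt (by fun_prop) (by fun_prop)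

/-- every Voronoi cell has area `2π/3` -/
theorem volume_Vor {v : ℍ} (hv : v ∈ PP) :
    (volume (Vor v) : ℝ≥0∞) = ENNReal.ofReal (2 * Real.pi / 3) := by
  obtain ⟨g, hg, rfl⟩ := exists_smul_I hv
  have : Vor (g • I) = (fun z => g⁻¹ • z) ⁻¹' Vor I := by
    ext z
    rw [mem_preimage, ← smul_mem_Vor hg I (g⁻¹ • z), smul_inv_smul]
  rw [this, measure_preimage_smul, Vor_I, volume_cell]

end

end Pool.Agent.Lib.MP_d28b99_gt
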